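import Pool.Agent.U959.OC.Sum
import Pool.Agent.K1H9.RP.Basic

/-!
# Symmetric functions on order cones; the variance of the sum of the coordinates
-/

set_option autoImplicit false

namespace Pool.Agent.U959.OC

open MeasureTheory Set Filter Topology
open scoped ENNReal InnerProductSpace
open Pool.Agent.W695.KH (Eu EU Sm Pot)
open Pool.Agent.R972.OP

variable {ρ : ℝ → ℝ} {n : ℕ}

/-- law of independent variables -/
noncomputable def iid (n : ℕ) (ρ : ℝ → ℝ) : Measure (Eu (Fin n)) :=
  volume.withDensity fun x => ∏ i, ENNReal.ofReal (ρ (x i))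

theorem dens_meas (h : LCD ρ) :
    Measurable fun x : Eu (Fin n) => ∏ i, ENNReal.ofReal (ρ (x i)) :=
  Finset.measurable_prod _ fun i _ => (h.meas.comp (by fun_prop)).ennreal_ofReal

theorem Pn_eq (h : LCD ρ) : Pn n ρ =
    volume.withDensity fun y : Fin n → ℝ => ∏ i, ENNReal.ofReal (ρ (y i)) := by
  have := sf_law h
  unfold Pn law at *
  rw [Pool.Agent.K1H9.RP.pi_withDensity _ _ h.meas.ennreal_ofReal, volume_pi]

theorem iid_eq (h : LCD ρ) : iid n ρ = Measure.map (WithLp.toLp 2) (Pn n ρ) := by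
  have hm : Measurable (WithLp.toLp 2 : (Fin n → ℝ) → Eu (Fin n)) :=
    (PiLp.volume_preserving_toLp (Fin n)).measurable
  refine Measure.ext fun s hs => ?_
  rw [Measure.map_apply hm hs, Pn_eq h, iid, withDensity_apply _ hs, withDensity_apply _ (hm hs)]
  have h1 := (PiLp.volume_preserving_toLp (Fin n)).setLIntegral_comp_preimage hs (dens_meas h)
  rw [← h1]

theorem iid_prob (h : LCD ρ) : IsProbabilityMeasure (iid n ρ) := by
  have := h.prob
  have hm : Measurable (WithLp.toLp 2 : (Fin n → ℝ) → Eu (Fin n)) :=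
    (PiLp.volume_preserving_toLp (Fin n)).measurable
  rw [iid_eq h]
  unfold Pn
  exact Measure.isProbabilityMeasure_map hm.aemeasurable

/-! ### permutations -/

theorem permE (p : Equiv.Perm (Fin n)) :
    MeasurePreserving (fun x : Eu (Fin n) => (WithLp.toLp 2 fun i => x (p i) : Eu (Fin n)))
      volume volume := by
  have h1 := (PiLp.volume_preserving_ofLp (Fin n))
  have h2 := (Pool.Agent.R372.OP.SYM.perm p).1
  have h3 := (PiLp.volume_preserving_toLp (Fin n))
  exact h3.comp (h2.comp h1)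

open Classical in
theorem cntE (R : Fin n → Fin n → Prop) (x : Eu (Fin n)) (hx : ∀ i j, i ≠ j → x i ≠ x j) :
    (Finset.univ.filter fun p : Equiv.Perm (Fin n) => (WithLp.toLp 2 fun i => x (p i) : Eu (Fin n)) ∈
      coneE R).card = Pool.Agent.R372.OP.SYM.Lc R := by
  have h1 := Pool.Agent.R372.OP.SYM.cntL R (fun i => x i) (fun i j hij => by
    by_contra hne
    exact hx i j hne hij)
  rw [← h1]
  congr 1
  ext p
  simp only [Finset.mem_filter, Finset.mem_univ, true_and]
  exact Iff.rfl

open Classical in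
/-- lower integrals of symmetric functions over order cones -/
theorem symL (R : Fin n → Fin n → Prop) (H : Eu (Fin n) → ℝ≥0∞) (hH : Measurable H)
    (hs : ∀ (p : Equiv.Perm (Fin n)) (x : Eu (Fin n)), H (WithLp.toLp 2 fun i => x (p i)) = H x) :
    (Fintype.card (Equiv.Perm (Fin n)) : ℝ≥0∞) * ∫⁻ x in coneE R, H x =
      (Pool.Agent.R372.OP.SYM.Lc R : ℝ≥0∞) * ∫⁻ x, H x := by
  have hc := coneE_meas (n := n) R
  have h0 : Measurable ((coneE R).indicator H) := hH.indicator hc
  calc (Fintype.card (Equiv.Perm (Fin n)) : ℝ≥0∞) * ∫⁻ x in coneE R, H x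
      = ∑ _p : Equiv.Perm (Fin n), ∫⁻ x in coneE R, H x := by
        rw [Finset.sum_const, Finset.card_univ, nsmul_eq_mul]
    _ = ∑ p : Equiv.Perm (Fin n), ∫⁻ x : Eu (Fin n), (coneE R).indicator H
          (WithLp.toLp 2 fun i => x (p i)) := by
        refine Finset.sum_congr rfl fun p _ => ?_
        rw [(permE p).lintegral_comp h0, lintegral_indicator hc]
    _ = ∫⁻ x : Eu (Fin n), ∑ p : Equiv.Perm (Fin n), (coneE R).indicator H
          (WithLp.toLp 2 fun i => x (p i)) := by
        have hm : ∀ p ∈ (Finset.univ : Finset (Equiv.Perm (Fin n))),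
            Measurable fun x : Eu (Fin n) => (coneE R).indicator H (WithLp.toLp 2 fun i => x (p i)) :=
          fun p _ => h0.comp (permE p).measurable
        rw [lintegral_finsetSum _ hm]
    _ = ∫⁻ x : Eu (Fin n), (Pool.Agent.R372.OP.SYM.Lc R : ℝ≥0∞) * H x := by
        refine lintegral_congr_ae ?_
        filter_upwards [ae_good (n := n) ∅ Set.finite_empty] with x hx
        have h1 : ∀ p : Equiv.Perm (Fin n), (coneE R).indicator H (WithLp.toLp 2 fun i => x (p i)) =
            if (WithLp.toLp 2 fun i => x (p i) : Eu (Fin n)) ∈ coneE R then H x else 0 := by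
          intro p
          rw [indicator_apply, hs]
        rw [Finset.sum_congr rfl fun p _ => h1 p, ← Finset.sum_filter, Finset.sum_const,
          cntE R x hx.2, nsmul_eq_mul]
    _ = _ := by rw [lintegral_const_mul _ hH]

/-- symmetric functions have the same means under all conditionings -/
theorem symI (h : LCD ρ) (R : Fin n → Fin n → Prop) (H : Eu (Fin n) → ℝ≥0∞) (hH : Measurable H)
    (hs : ∀ (p : Equiv.Perm (Fin n)) (x : Eu (Fin n)), H (WithLp.toLp 2 fun i => x (p i)) = H x) :
    ∫⁻ x in coneE R, H x ∂(iid n ρ) = iid n ρ (coneE R) * ∫⁻ x, H x ∂(iid n ρ) := by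
  have hc := coneE_meas (n := n) R
  have hd := dens_meas (n := n) h
  obtain ⟨w, hw⟩ : ∃ w : Eu (Fin n) → ℝ≥0∞, w = fun x => ∏ i, ENNReal.ofReal (ρ (x i)) := ⟨_, rfl⟩
  have hws : ∀ (p : Equiv.Perm (Fin n)) (x : Eu (Fin n)), w (WithLp.toLp 2 fun i => x (p i)) = w x := by
    intro p x
    rw [hw]
    exact Equiv.prod_comp p fun i => ENNReal.ofReal (ρ (x i))
  have hiid : iid n ρ = volume.withDensity w := by rw [hw]; rfl
  rw [← hw] at hd
  have hp := iid_prob (n := n) h
  have h1 : ∫⁻ x, w x = 1 := by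
    have := hp.measure_univ
    rw [hiid, withDensity_apply _ MeasurableSet.univ, setLIntegral_univ] at this
    exact this
  have e1 := symL R (fun x => w x * H x) (hd.mul hH) fun p x => by rw [hws, hs]
  have e2 := symL R w hd hws
  rw [h1, mul_one] at e2
  rw [hiid, setLIntegral_withDensity_eq_setLIntegral_mul _ hd hH hc,
    lintegral_withDensity_eq_lintegral_mul _ hd hH, withDensity_apply _ hc]
  have hN : (Fintype.card (Equiv.Perm (Fin n)) : ℝ≥0∞) ≠ 0 := by
    exact_mod_cast Fintype.card_ne_zero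
  have hN' : (Fintype.card (Equiv.Perm (Fin n)) : ℝ≥0∞) ≠ ⊤ := ENNReal.natCast_ne_top _
  rw [← e2] at e1
  have e3 : (Fintype.card (Equiv.Perm (Fin n)) : ℝ≥0∞) * ∫⁻ x in coneE R, (w * H) x =
      (Fintype.card (Equiv.Perm (Fin n)) : ℝ≥0∞) * ((∫⁻ x in coneE R, w x) * ∫⁻ x, (w * H) x) := by
    rw [← mul_assoc]
    exact e1
  exact (ENNReal.mul_right_inj hN hN').1 e3

/-- variance of the sum for independent variables -/
theorem var_sum (h : LCD ρ) :
    ProbabilityTheory.variance (fun x : Eu (Fin n) => ∑ i, x i) (iid n ρ) =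
      n * ProbabilityTheory.variance (fun t : ℝ => t) (law ρ) ∧
    MemLp (fun x : Eu (Fin n) => ∑ i, x i) 2 (iid n ρ) := by
  have := h.prob
  have hm : Measurable (WithLp.toLp 2 : (Fin n → ℝ) → Eu (Fin n)) :=
    (PiLp.volume_preserving_toLp (Fin n)).measurable
  have hS : Continuous fun x : Eu (Fin n) => ∑ i, x i := by fun_prop
  have h1 := ProbabilityTheory.variance_sum_pi (μ := fun _ : Fin n => law ρ)
    (X := fun _ => fun t : ℝ => t) (fun _ => h.moment)
  have hmem : ∀ i : Fin n, MemLp (fun ω : Fin n → ℝ => ω i) 2 (Pn n ρ) := by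
    intro i
    exact h.moment.comp_measurePreserving (measurePreserving_eval (fun _ : Fin n => law ρ) i)
  constructor
  · rw [iid_eq h, ProbabilityTheory.variance_map hS.aemeasurable hm.aemeasurable]
    have e : (fun x : Eu (Fin n) => ∑ i, x i) ∘ (WithLp.toLp 2 : (Fin n → ℝ) → Eu (Fin n)) =
        ∑ i : Fin n, fun ω : Fin n → ℝ => ω i := by
      funext ω
      simp
    rw [e]
    unfold Pn
    rw [h1]
    simp
  · rw [iid_eq h, memLp_map_measure_iff hS.aestronglyMeasurable hm.aemeasurable]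
    have e : (fun x : Eu (Fin n) => ∑ i, x i) ∘ (WithLp.toLp 2 : (Fin n → ℝ) → Eu (Fin n)) =
        fun ω : Fin n → ℝ => ∑ i : Fin n, ω i := by
      funext ω
      simp
    rw [e]
    exact memLp_finsetSum _ fun i _ => hmem i

end Pool.Agent.U959.OC
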