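import Pool.Agent.R972.OP.Stm

/-!
# Rates of the logistic law for lattice placements

Increments `W_{k+1} - W_k` of `W_k = √(k (N - k)) - √((k + 1) (N - k - 1))` and the rates for which
`W` satisfies the equation of `WC`. The rates are at most `4 t² (N - t)² / N²`, `t = k + 1`.
-/

set_option autoImplicit false

namespace Pool.Agent.U959.OC

open MeasureTheory Set Filter Topology
open Pool.Agent.R972.OP

/-- `√(t (N - t))` -/
noncomputable def sr (N t : ℝ) : ℝ := Real.sqrt (t * (N - t))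

/-- second difference of `√(t (N - t))` -/
theorem sr_conc {N t : ℝ} (h1 : 1 ≤ t) (h2 : t ≤ N - 1) :
    N ^ 2 / (4 * sr N t ^ 3) ≤ 2 * sr N t - sr N (t - 1) - sr N (t + 1) := by
  have ha1 : 1 ≤ t * (N - t) := by nlinarith
  have haN : N - 1 ≤ t * (N - t) := by nlinarith
  have hN : 2 ≤ N := by linarith
  obtain ⟨a, ha⟩ : ∃ a, a = t * (N - t) := ⟨_, rfl⟩
  obtain ⟨b, hb⟩ : ∃ b, b = N - 2 * t := ⟨_, rfl⟩
  have hu2 : (t + 1) * (N - (t + 1)) = a - 1 + b := by rw [ha, hb]; ring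
  have hv2 : (t - 1) * (N - (t - 1)) = a - 1 - b := by rw [ha, hb]; ring
  have hNab : N ^ 2 = 4 * a + b ^ 2 := by rw [ha, hb]; ring
  have hu0 : 0 ≤ a - 1 + b := by rw [← hu2]; nlinarith
  have hv0 : 0 ≤ a - 1 - b := by rw [← hv2]; nlinarith
  rw [← ha] at ha1 haN
  have ha0 : 0 < a := by linarith
  unfold sr
  rw [hu2, hv2, ← ha]
  obtain ⟨S, hS⟩ : ∃ S, S = Real.sqrt a := ⟨_, rfl⟩
  obtain ⟨u, hu⟩ : ∃ u, u = Real.sqrt (a - 1 + b) := ⟨_, rfl⟩
  obtain ⟨v, hv⟩ : ∃ v, v = Real.sqrt (a - 1 - b) := ⟨_, rfl⟩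
  rw [← hS, ← hu, ← hv]
  have hS0 : 0 < S := by rw [hS]; exact Real.sqrt_pos.2 ha0
  have hSS : S ^ 2 = a := by rw [hS]; exact Real.sq_sqrt ha0.le
  have huu : u ^ 2 = a - 1 + b := by rw [hu]; exact Real.sq_sqrt hu0
  have hvv : v ^ 2 = a - 1 - b := by rw [hv]; exact Real.sq_sqrt hv0
  have hu' : 0 ≤ u := by rw [hu]; exact Real.sqrt_nonneg _
  have hv' : 0 ≤ v := by rw [hv]; exact Real.sqrt_nonneg _
  -- b² ≤ (a-1)²
  have hb2 : b ^ 2 ≤ (a - 1) ^ 2 := by nlinarith [mul_nonneg hu0 hv0]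
  have hq0 : 0 ≤ (a - 1) - b ^ 2 / (2 * a) := by
    have h3 : b ^ 2 / (2 * a) ≤ (a - 1) := by
      rw [div_le_iff₀ (by positivity)]
      nlinarith
    linarith
  have huv : u * v ≤ (a - 1) - b ^ 2 / (2 * a) := by
    refine abs_le_of_sq_le_sq' ?_ hq0 |>.2
    have e1 : (u * v) ^ 2 = (a - 1) ^ 2 - b ^ 2 := by
      rw [mul_pow, huu, hvv]; ring
    have e2 : ((a - 1) - b ^ 2 / (2 * a)) ^ 2 = (a - 1) ^ 2 - b ^ 2 + (b ^ 2 / a + b ^ 4 / (4 * a ^ 2)) := by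
      field_simp
      ring
    rw [e1, e2]
    have : 0 ≤ b ^ 2 / a + b ^ 4 / (4 * a ^ 2) := by positivity
    linarith
  obtain ⟨T, hT⟩ : ∃ T, T = 2 * S - N ^ 2 / (4 * S ^ 3) := ⟨_, rfl⟩
  have hT0 : 0 ≤ T := by
    rw [hT, sub_nonneg, div_le_iff₀ (by positivity)]
    have h4 : 2 * S * (4 * S ^ 3) = 8 * a ^ 2 := by rw [← hSS]; ring
    rw [h4]
    nlinarith
  have hT2 : T ^ 2 = 4 * a - 4 - b ^ 2 / a + N ^ 4 / (16 * a ^ 3) := by
    have e1 : T ^ 2 = 4 * S ^ 2 - N ^ 2 / S ^ 2 + N ^ 4 / (16 * (S ^ 2) ^ 3) := by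
      rw [hT]
      field_simp
      ring
    rw [e1, hSS]
    have e2 : N ^ 2 / a = 4 + b ^ 2 / a := by
      rw [hNab]
      field_simp
    rw [e2]
    ring
  have hsum : (u + v) ^ 2 ≤ T ^ 2 := by
    have e1 : (u + v) ^ 2 = 2 * (a - 1) + 2 * (u * v) := by
      have : (u + v) ^ 2 = u ^ 2 + v ^ 2 + 2 * (u * v) := by ring
      rw [this, huu, hvv]
      ring
    rw [e1, hT2]
    have h5 : 0 ≤ N ^ 4 / (16 * a ^ 3) := by positivity
    have h6 : 2 * (b ^ 2 / (2 * a)) = b ^ 2 / a := by field_simp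
    linarith
  have hfin : u + v ≤ T := (abs_le_of_sq_le_sq' hsum hT0).2
  rw [hT] at hfin
  linarith

/-- the increasing function -/
noncomputable def WL (N k : ℕ) : ℝ := sr N k - sr N ((k : ℝ) + 1)

/-- the rates -/
noncomputable def cl (N k : ℕ) : ℝ :=
  sr N ((k : ℝ) + 1) / (2 * sr N ((k : ℝ) + 1) - sr N k - sr N ((k : ℝ) + 2))

theorem sr_nonneg (N t : ℝ) : 0 ≤ sr N t := Real.sqrt_nonneg _

theorem diff_pos {N k : ℕ} (h : k + 1 < N) :
    0 < sr N ((k : ℝ) + 1) ∧ (N : ℝ) ^ 2 / (4 * sr N ((k : ℝ) + 1) ^ 3) ≤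
      2 * sr N ((k : ℝ) + 1) - sr N k - sr N ((k : ℝ) + 2) := by
  have hk0 : (0 : ℝ) ≤ k := Nat.cast_nonneg k
  have h2 : (k : ℝ) + 1 + 1 ≤ N := by exact_mod_cast h
  have h3 := sr_conc (N := (N : ℝ)) (t := (k : ℝ) + 1) (by linarith) (by linarith)
  have e1 : (k : ℝ) + 1 - 1 = k := by ring
  have e2 : (k : ℝ) + 1 + 1 = (k : ℝ) + 2 := by ring
  rw [e1, e2] at h3
  refine ⟨?_, h3⟩
  unfold sr
  refine Real.sqrt_pos.2 (mul_pos (by linarith) (by linarith))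

theorem diff_pos' {N k : ℕ} (h : k + 1 < N) :
    0 < 2 * sr N ((k : ℝ) + 1) - sr N k - sr N ((k : ℝ) + 2) := by
  obtain ⟨h1, h2⟩ := diff_pos h
  have hN : (0 : ℝ) < N := by
    have : 0 < N := by omega
    exact_mod_cast this
  exact lt_of_lt_of_le (by positivity) h2

theorem cl_nonneg {N k : ℕ} (h : k + 1 < N) : 0 ≤ cl N k :=
  div_nonneg (sr_nonneg _ _) (diff_pos' h).le

/-- the rates are at most `4 t² (N - t)² / N²` -/
theorem cl_le {N k : ℕ} (h : k + 1 < N) :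
    cl N k ≤ 4 * (((k : ℝ) + 1) * (N - ((k : ℝ) + 1))) ^ 2 / (N : ℝ) ^ 2 := by
  obtain ⟨h1, h2⟩ := diff_pos h
  have hN : (0 : ℝ) < N := by
    have : 0 < N := by omega
    exact_mod_cast this
  have hk0 : (0 : ℝ) ≤ k := Nat.cast_nonneg k
  have h3 : (k : ℝ) + 1 + 1 ≤ N := by exact_mod_cast h
  have hsq : sr N ((k : ℝ) + 1) ^ 2 = ((k : ℝ) + 1) * (N - ((k : ℝ) + 1)) := by
    unfold sr
    exact Real.sq_sqrt (mul_nonneg (by linarith) (by linarith))
  have h4 : 0 < (N : ℝ) ^ 2 / (4 * sr N ((k : ℝ) + 1) ^ 3) := by positivity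
  unfold cl
  calc sr N ((k : ℝ) + 1) / (2 * sr N ((k : ℝ) + 1) - sr N k - sr N ((k : ℝ) + 2))
      ≤ sr N ((k : ℝ) + 1) / ((N : ℝ) ^ 2 / (4 * sr N ((k : ℝ) + 1) ^ 3)) :=
        div_le_div_of_nonneg_left h1.le h4 h2
    _ = 4 * (sr N ((k : ℝ) + 1) ^ 2) ^ 2 / (N : ℝ) ^ 2 := by
        field_simp
    _ = _ := by rw [hsq]

theorem wcl (N : ℕ) : WC N (WL N) (cl N) 0 := by
  refine ⟨?_, fun k hk => cl_nonneg hk, ?_⟩
  · intro k hk
    have := diff_pos' hk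
    unfold WL
    push_cast
    have e2 : (k : ℝ) + 1 + 1 = (k : ℝ) + 2 := by ring
    rw [e2]
    linarith
  · have key : ∀ k, k + 1 < N → cl N k * (WL N (k + 1) - WL N k) = sr N ((k : ℝ) + 1) := by
      intro k hk
      have h0 := diff_pos' hk
      have e1 : WL N (k + 1) - WL N k =
          2 * sr N ((k : ℝ) + 1) - sr N k - sr N ((k : ℝ) + 2) := by
        unfold WL
        push_cast
        have e2 : (k : ℝ) + 1 + 1 = (k : ℝ) + 2 := by ring
        rw [e2]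
        ring
      rw [e1]
      unfold cl
      exact div_mul_cancel₀ _ h0.ne'
    intro j hj
    have h1 : (if j + 1 < N then cl N j * (WL N (j + 1) - WL N j) else 0) = sr N ((j : ℝ) + 1) := by
      split_ifs with h
      · exact key j h
      · have : (N : ℝ) = j + 1 := by exact_mod_cast (by omega : N = j + 1)
        unfold sr
        rw [this]
        simp
    have h2 : (if 0 < j then cl N (j - 1) * (WL N j - WL N (j - 1)) else 0) = sr N j := by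
      split_ifs with h
      · obtain ⟨i, rfl⟩ : ∃ i, j = i + 1 := ⟨j - 1, by omega⟩
        rw [Nat.add_sub_cancel, key i hj]
        push_cast
        rfl
      · have : j = 0 := by omega
        subst this
        unfold sr
        simp
    rw [h1, h2]
    unfold WL
    ring

end Pool.Agent.U959.OC
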