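import Pool.Agent.R364.OP.UPA
import Pool.Agent.U959.OC.Rate

/-!
# Asymptotics of the energies with the rates of the logistic law
-/

set_option autoImplicit false

namespace Pool.Agent.U959.OC

open MeasureTheory Set Filter Topology
open Pool.Agent.R972.OP
open Pool.Agent.R364.OP

variable {n : ℕ}

/-- `8 ∑ (x_a (1 - x_a))² (∂_a f)²` -/
noncomputable def Glo (f : (Fin n → ℝ) → ℝ) (x : Fin n → ℝ) : ℝ :=
  ∑ a, 8 * (x a * (1 - x a)) ^ 2 * pd f a x ^ 2

/-- scalar estimate -/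
theorem scal {x h B η D r : ℝ} (hx0 : 0 ≤ x) (hh0 : 0 ≤ h)
    (hxh : x + h ≤ 1) (hη0 : 0 ≤ η) (hη1 : η ≤ 1) (hD : |D| ≤ B) (hr : |r| ≤ η) :
    4 * ((x + h) * (1 - (x + h))) ^ 2 * (D + r) ^ 2 ≤
      4 * (x * (1 - x)) ^ 2 * D ^ 2 + (4 * h * B ^ 2 + (2 * B + 1) * η) := by
  have hB : 0 ≤ B := le_trans (abs_nonneg _) hD
  have h1 : (D + r) ^ 2 ≤ D ^ 2 + (2 * B + 1) * η := by
    have e1 : D * r ≤ B * η := by
      calc D * r ≤ |D * r| := le_abs_self _
        _ = |D| * |r| := abs_mul _ _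
        _ ≤ B * η := mul_le_mul hD hr (abs_nonneg _) hB
    have e2 : r ^ 2 ≤ η := by
      have : r ^ 2 ≤ η ^ 2 := by
        rw [← sq_abs r]; exact pow_le_pow_left₀ (abs_nonneg _) hr 2
      nlinarith
    nlinarith
  obtain ⟨p, hp⟩ : ∃ p, p = x * (1 - x) := ⟨_, rfl⟩
  obtain ⟨q, hq⟩ : ∃ q, q = (x + h) * (1 - (x + h)) := ⟨_, rfl⟩
  have hp0 : 0 ≤ p := by rw [hp]; exact mul_nonneg hx0 (by linarith)
  have hq0 : 0 ≤ q := by rw [hq]; exact mul_nonneg (by linarith) (by linarith)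
  have hp1 : p ≤ 1 / 4 := by rw [hp]; nlinarith [sq_nonneg (x - 1 / 2)]
  have hq1 : q ≤ 1 / 4 := by rw [hq]; nlinarith [sq_nonneg (x + h - 1 / 2)]
  have hqp : q ≤ p + h := by rw [hp, hq]; nlinarith
  have hqq : q ^ 2 ≤ p ^ 2 + h := by nlinarith
  have hq16 : q ^ 2 ≤ 1 / 16 := by nlinarith
  rw [← hp, ← hq]
  have h4 : D ^ 2 ≤ B ^ 2 := by
    rw [← sq_abs D]; exact pow_le_pow_left₀ (abs_nonneg _) hD 2
  have h6 : 0 ≤ (2 * B + 1) * η := by positivity
  calc 4 * q ^ 2 * (D + r) ^ 2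
      ≤ 4 * q ^ 2 * (D ^ 2 + (2 * B + 1) * η) :=
        mul_le_mul_of_nonneg_left h1 (by positivity)
    _ = 4 * q ^ 2 * D ^ 2 + 4 * q ^ 2 * ((2 * B + 1) * η) := by ring
    _ ≤ 4 * (p ^ 2 + h) * D ^ 2 + 1 * ((2 * B + 1) * η) := by
        apply add_le_add
        · apply mul_le_mul_of_nonneg_right _ (sq_nonneg _)
          linarith
        · apply mul_le_mul_of_nonneg_right _ h6
          linarith
    _ ≤ 4 * p ^ 2 * D ^ 2 + (4 * h * B ^ 2 + (2 * B + 1) * η) := by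
        have : h * D ^ 2 ≤ h * B ^ 2 := mul_le_mul_of_nonneg_left h4 hh0
        nlinarith

theorem upl_ev {f : (Fin n → ℝ) → ℝ} (hf : ContDiff ℝ 1 f) {B : ℝ}
    (hB : ∀ x ∈ cube n, ‖fderiv ℝ f x‖ ≤ B) {N : ℕ} (hN : 0 < N)
    {g : Fin n → ℕ} (hg : ∀ a, g a < N) {η : ℝ} (hη1 : η ≤ 1)
    (hη : ∀ x ∈ cube n, ∀ z ∈ cube n, ‖z - x‖ ≤ 1 / N → ‖fderiv ℝ f z - fderiv ℝ f x‖ ≤ η) :
    ∑ a, (if g a + 1 < N then
      cl N (g a) * (f (lp N (Function.update g a (g a + 1))) - f (lp N g)) ^ 2 else 0) +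
    ∑ a, (if 0 < g a then
      cl N (g a - 1) * (f (lp N (Function.update g a (g a - 1))) - f (lp N g)) ^ 2 else 0) ≤
    Glo f (lp N g) + (n : ℝ) * (4 * (1 / N) * B ^ 2 + 2 * ((2 * B + 1) * η)) := by
  have hN' : (0 : ℝ) < N := by exact_mod_cast hN
  have hx := lp_mem hN hg
  have hη0 : 0 ≤ η := by
    have := hη _ hx _ hx (by simp)
    simpa using this
  have hBx := hB _ hx
  have hB0 : 0 ≤ B := le_trans (norm_nonneg _) hBx
  have hinv0 : (0 : ℝ) ≤ 1 / N := by positivity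
  rw [← Finset.sum_add_distrib]
  unfold Glo
  have hn : (n : ℝ) * (4 * (1 / N) * B ^ 2 + 2 * ((2 * B + 1) * η)) =
      ∑ _a : Fin n, (4 * (1 / N) * B ^ 2 + 2 * ((2 * B + 1) * η)) := by
    rw [Finset.sum_const, Finset.card_univ, Fintype.card_fin, nsmul_eq_mul]
  rw [hn, ← Finset.sum_add_distrib]
  apply Finset.sum_le_sum
  intro a _
  have hxa0 : 0 ≤ lp N g a := hx.1 a
  have hxa1 : lp N g a ≤ 1 := hx.2 a
  have hD := pd_abs_le hBx a
  have hbase : 0 ≤ 4 * (lp N g a * (1 - lp N g a)) ^ 2 * pd f a (lp N g) ^ 2 := by positivity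
  have hrest : 0 ≤ 4 * (1 / N) * B ^ 2 + (2 * B + 1) * η := by positivity
  have hrest0 : 0 ≤ (2 * B + 1) * η := by positivity
  have hlp : lp N g a = (g a : ℝ) / N := rfl
  have t1 : (if g a + 1 < N then
      cl N (g a) * (f (lp N (Function.update g a (g a + 1))) - f (lp N g)) ^ 2 else 0) ≤
      4 * (lp N g a * (1 - lp N g a)) ^ 2 * pd f a (lp N g) ^ 2 +
        (4 * (1 / N) * B ^ 2 + (2 * B + 1) * η) := by
    split_ifs with h
    · obtain ⟨r, hr, he⟩ := step hf hN hg hη a (g a + 1) h 1 (by norm_num) (by push_cast; ring)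
      rw [he]
      have hxh : lp N g a + 1 / N ≤ 1 := by
        rw [hlp, ← add_div, div_le_one hN']
        exact_mod_cast h.le
      refine le_trans ?_ (scal hxa0 hinv0 hxh hη0 hη1 hD hr)
      calc cl N (g a) * (1 / (N : ℝ) * (1 * (pd f a (lp N g) + r))) ^ 2
          ≤ (4 * (((g a : ℝ) + 1) * (N - ((g a : ℝ) + 1))) ^ 2 / (N : ℝ) ^ 2) *
            (1 / (N : ℝ) * (1 * (pd f a (lp N g) + r))) ^ 2 :=
            mul_le_mul_of_nonneg_right (cl_le h) (sq_nonneg _)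
        _ = _ := by
            rw [hlp]
            field_simp
    · linarith
  have t2 : (if 0 < g a then
      cl N (g a - 1) * (f (lp N (Function.update g a (g a - 1))) - f (lp N g)) ^ 2 else 0) ≤
      4 * (lp N g a * (1 - lp N g a)) ^ 2 * pd f a (lp N g) ^ 2 +
        (2 * B + 1) * η := by
    split_ifs with h
    · have hcast : ((g a - 1 : ℕ) : ℝ) = (g a : ℝ) - 1 := by
        rw [Nat.cast_sub h]; simp
      obtain ⟨r, hr, he⟩ := step hf hN hg hη a (g a - 1) (lt_of_le_of_lt (Nat.sub_le _ _) (hg a))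
        (-1) (by norm_num) (by rw [hcast]; ring)
      rw [he]
      have h5 := scal (x := lp N g a) (h := 0) hxa0 le_rfl (by linarith) hη0 hη1
        hD hr
      have hlt : g a - 1 + 1 < N := by
        have := hg a
        omega
      have e : (4 * ((((g a - 1 : ℕ) : ℝ) + 1) * (N - (((g a - 1 : ℕ) : ℝ) + 1))) ^ 2 /
          (N : ℝ) ^ 2) * (1 / (N : ℝ) * (-1 * (pd f a (lp N g) + r))) ^ 2 =
          4 * ((lp N g a + 0) * (1 - (lp N g a + 0))) ^ 2 * (pd f a (lp N g) + r) ^ 2 := by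
        rw [hlp, hcast]
        field_simp
        ring
      have h6 : cl N (g a - 1) * (1 / (N : ℝ) * (-1 * (pd f a (lp N g) + r))) ^ 2 ≤ _ :=
        mul_le_mul_of_nonneg_right (cl_le hlt) (sq_nonneg _)
      rw [e] at h6
      linarith
    · linarith
  linarith

theorem upl_c {f : (Fin n → ℝ) → ℝ} (hf : ContDiff ℝ 1 f) {B : ℝ}
    (hB : ∀ x ∈ cube n, ‖fderiv ℝ f x‖ ≤ B) {N : ℕ} (hN : 0 < N)
    {g : Fin n → ℕ} (hg : ∀ a, g a < N) (a b : Fin n) (hab : g b = g a + 1) :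
    cl N (g a) * (f (lp N (mv (g a) (g a + 1) g)) - f (lp N g)) ^ 2 ≤ B ^ 2 := by
  have hN' : (0 : ℝ) < N := by exact_mod_cast hN
  have hx := lp_mem hN hg
  have hB0 : 0 ≤ B := le_trans (norm_nonneg _) (hB _ hx)
  have hb := hg b
  have hg' : ∀ c, mv (g a) (g a + 1) g c < N := by
    intro c
    unfold mv
    rw [Equiv.swap_apply_def]
    have hc := hg c
    have ha := hg a
    split_ifs <;> omega
  have hy := lp_mem hN hg'
  have hnorm : ‖lp N (mv (g a) (g a + 1) g) - lp N g‖ ≤ 1 / N := by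
    rw [pi_norm_le_iff_of_nonneg (by positivity)]
    intro c
    show ‖((mv (g a) (g a + 1) g c : ℕ) : ℝ) / N - (g c : ℝ) / N‖ ≤ 1 / N
    rw [← sub_div, norm_div, Real.norm_eq_abs, Real.norm_eq_abs, abs_of_pos hN']
    apply div_le_div_of_nonneg_right _ hN'.le
    unfold mv
    rw [Equiv.swap_apply_def]
    split_ifs with h1 h2
    · rw [h1]; push_cast; simp
    · rw [h2]; push_cast; simp
    · simp
  have hdiff : |f (lp N (mv (g a) (g a + 1) g)) - f (lp N g)| ≤ B * (1 / N) := by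
    have := Convex.norm_image_sub_le_of_norm_fderiv_le (𝕜 := ℝ) (f := f)
      (s := cube n) (C := B) (x := lp N g) (y := lp N (mv (g a) (g a + 1) g))
      (fun z _ => (hf.differentiable one_ne_zero) z) hB (convex_Icc 0 1) hx hy
    rw [Real.norm_eq_abs] at this
    exact this.trans (mul_le_mul_of_nonneg_left hnorm hB0)
  have hsq : (f (lp N (mv (g a) (g a + 1) g)) - f (lp N g)) ^ 2 ≤ (B * (1 / N)) ^ 2 := by
    rw [← sq_abs (f (lp N (mv (g a) (g a + 1) g)) - f (lp N g))]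
    exact pow_le_pow_left₀ (abs_nonneg _) hdiff 2
  have hlt : g a + 1 < N := by rw [← hab]; exact hb
  have hc1 : cl N (g a) ≤ (N : ℝ) ^ 2 := by
    refine (cl_le hlt).trans ?_
    have h1 : (0 : ℝ) ≤ ((g a : ℝ) + 1) := by positivity
    have h2 : ((g a : ℝ) + 1) ≤ N := by exact_mod_cast hlt.le
    have h3 : ((g a : ℝ) + 1) * (N - ((g a : ℝ) + 1)) ≤ (N : ℝ) ^ 2 / 4 := by
      nlinarith [sq_nonneg ((g a : ℝ) + 1 - N / 2)]
    have h4 : (0 : ℝ) ≤ ((g a : ℝ) + 1) * (N - ((g a : ℝ) + 1)) :=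
      mul_nonneg h1 (by linarith)
    rw [div_le_iff₀ (by positivity)]
    have h5 : (((g a : ℝ) + 1) * (N - ((g a : ℝ) + 1))) ^ 2 ≤ ((N : ℝ) ^ 2 / 4) ^ 2 :=
      pow_le_pow_left₀ h4 h3 2
    have h6 : (0 : ℝ) ≤ (N : ℝ) ^ 4 := by positivity
    nlinarith
  calc cl N (g a) * (f (lp N (mv (g a) (g a + 1) g)) - f (lp N g)) ^ 2
      ≤ (N : ℝ) ^ 2 * (f (lp N (mv (g a) (g a + 1) g)) - f (lp N g)) ^ 2 :=
        mul_le_mul_of_nonneg_right hc1 (sq_nonneg _)
    _ ≤ (N : ℝ) ^ 2 * (B * (1 / N)) ^ 2 := mul_le_mul_of_nonneg_left hsq (by positivity)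
    _ = B ^ 2 := by field_simp

theorem upl (n : ℕ) (f : (Fin n → ℝ) → ℝ) (hf : ContDiff ℝ 1 f) :
  ∃ (err : ℕ → ℝ) (C : ℝ), Tendsto err atTop (𝓝 0) ∧ 0 ≤ C ∧
  ∀ (N : ℕ) (g : Fin n → ℕ), 0 < N → (∀ a, g a < N) → Function.Injective g →
  (∑ a, (if g a + 1 < N then
      cl N (g a) * (f (lp N (Function.update g a (g a + 1))) - f (lp N g)) ^ 2 else 0) +
    ∑ a, (if 0 < g a then
      cl N (g a - 1) * (f (lp N (Function.update g a (g a - 1))) - f (lp N g)) ^ 2 else 0) ≤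
    Glo f (lp N g) + err N) ∧
  ∀ a b, g b = g a + 1 →
    cl N (g a) * (f (lp N (mv (g a) (g a + 1) g)) - f (lp N g)) ^ 2 ≤ C := by
  have hK : IsCompact (cube n) := isCompact_Icc
  have hcont : Continuous (fderiv ℝ f) := hf.continuous_fderiv one_ne_zero
  obtain ⟨B, hB⟩ := hK.exists_bound_of_continuousOn hcont.continuousOn
  have h0mem : (0 : Fin n → ℝ) ∈ cube n := ⟨le_refl _, zero_le_one⟩
  have hB0 : 0 ≤ B := le_trans (norm_nonneg _) (hB 0 h0mem)
  obtain ⟨err, herr, herr2⟩ := exists_err (α := Fin n → ℕ)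
    (fun N => {g | 0 < N ∧ ∀ a, g a < N})
    (fun N g => ∑ a, (if g a + 1 < N then
      cl N (g a) * (f (lp N (Function.update g a (g a + 1))) - f (lp N g)) ^ 2 else 0) +
    ∑ a, (if 0 < g a then
      cl N (g a - 1) * (f (lp N (Function.update g a (g a - 1))) - f (lp N g)) ^ 2 else 0) -
    Glo f (lp N g)) (by
      intro N
      refine Set.Finite.subset (Set.Finite.pi' (fun _ : Fin n => Set.finite_Iio N)) ?_
      rintro g ⟨_, hg⟩ a
      exact hg a) (by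
      intro ε hε
      obtain ⟨η, hη0, hη1, hηε⟩ : ∃ η : ℝ, 0 < η ∧ η ≤ 1 ∧
          (n : ℝ) * (2 * ((2 * B + 1) * η)) ≤ ε / 2 := by
        have hpos : (0 : ℝ) < (n : ℝ) * (2 * (2 * B + 1)) + 1 := by positivity
        refine ⟨min 1 (ε / 2 / ((n : ℝ) * (2 * (2 * B + 1)) + 1)), ?_, min_le_left _ _, ?_⟩
        · apply lt_min one_pos
          positivity
        · set q := (n : ℝ) * (2 * (2 * B + 1)) with hq
          have hq0 : 0 ≤ q := by positivity
          have h1 : min 1 (ε / 2 / (q + 1)) ≤ ε / 2 / (q + 1) := min_le_right _ _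
          calc (n : ℝ) * (2 * ((2 * B + 1) * min 1 (ε / 2 / (q + 1))))
              = q * min 1 (ε / 2 / (q + 1)) := by rw [hq]; ring
            _ ≤ q * (ε / 2 / (q + 1)) := mul_le_mul_of_nonneg_left h1 hq0
            _ ≤ (q + 1) * (ε / 2 / (q + 1)) :=
                mul_le_mul_of_nonneg_right (by linarith) (by positivity)
            _ = ε / 2 := by field_simp
      have huc : UniformContinuousOn (fderiv ℝ f) (cube n) :=
        hK.uniformContinuousOn_of_continuous hcont.continuousOn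
      rw [Metric.uniformContinuousOn_iff] at huc
      obtain ⟨δ, hδ, huc⟩ := huc η hη0
      have e1 : Tendsto (fun N : ℕ => (n : ℝ) * (4 * (1 / (N : ℝ)) * B ^ 2)) atTop (𝓝 0) := by
        have : Tendsto (fun N : ℕ => (1 : ℝ) / (N : ℝ)) atTop (𝓝 0) :=
          tendsto_one_div_atTop_nhds_zero_nat
        have h2 := ((this.const_mul 4).mul_const (B ^ 2)).const_mul (n : ℝ)
        simpa using h2
      have e2 : ∀ᶠ N : ℕ in atTop, (1 : ℝ) / (N : ℝ) < δ :=
        (tendsto_one_div_atTop_nhds_zero_nat (𝕜 := ℝ)).eventually_lt_const hδ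
      have e3 : ∀ᶠ N : ℕ in atTop, (n : ℝ) * (4 * (1 / (N : ℝ)) * B ^ 2) < ε / 2 :=
        e1.eventually_lt_const (by linarith)
      filter_upwards [e2, e3] with N h2 h3
      rintro g ⟨hN, hg⟩
      have := upl_ev hf hB hN hg hη1 (fun x hx z hz hzx => by
        rw [← dist_eq_norm]
        apply le_of_lt
        apply huc z hz x hx
        rw [dist_eq_norm]
        exact lt_of_le_of_lt hzx h2)
      have h4 : (n : ℝ) * (4 * (1 / N) * B ^ 2 + 2 * ((2 * B + 1) * η)) =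
        (n : ℝ) * (4 * (1 / (N : ℝ)) * B ^ 2) + (n : ℝ) * (2 * ((2 * B + 1) * η)) := by ring
      rw [h4] at this
      linarith)
  refine ⟨err, B ^ 2, herr, by positivity, ?_⟩
  intro N g hN hg _
  refine ⟨?_, ?_⟩
  · have := herr2 N g ⟨hN, hg⟩
    linarith
  · intro a b hab
    exact upl_c hf hB hN hg a b hab

end Pool.Agent.U959.OC
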