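import Pool.Agent.U959.OC.Apx
import Pool.Agent.R372.OP.SYM

/-!
# Approximation of log-concave densities restricted to order cones, limits
-/

set_option autoImplicit false

namespace Pool.Agent.U959.OC

open MeasureTheory Set Filter Topology
open scoped ENNReal InnerProductSpace
open Pool.Agent.W695.KH (Eu EU Sm Pot)
open Pool.Agent.Y506.RG (LC1 GD)

variable {n : ℕ}

theorem coneE_meas (R : Fin n → Fin n → Prop) : MeasurableSet (coneE R) := by
  have : coneE R = ⋂ i, ⋂ j, ⋂ (_ : R i j), {x : Eu (Fin n) | x i ≤ x j} := by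
    ext x; simp only [coneE, mem_ofPred_eq, mem_iInter]
  rw [this]
  exact MeasurableSet.iInter fun i => MeasurableSet.iInter fun j => MeasurableSet.iInter fun _ =>
    measurableSet_le (by fun_prop) (by fun_prop)

theorem wR_meas {h : ℝ → ℝ} (hh : Measurable h) (R : Fin n → Fin n → Prop) :
    Measurable (wR h R) := by
  unfold wR
  refine Measurable.ite (coneE_meas R) ?_ measurable_const
  exact Finset.measurable_prod _ fun i _ => hh.comp (by fun_prop)

theorem wR_nonneg {h : ℝ → ℝ} (hh : ∀ s, 0 ≤ h s) (R : Fin n → Fin n → Prop) (x : Eu (Fin n)) :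
    0 ≤ wR h R x := by
  unfold wR
  split_ifs
  · exact Finset.prod_nonneg fun i _ => hh _
  · exact le_rfl

/-- almost all points avoid a finite set in all coordinates and have distinct coordinates -/
theorem ae_good (E : Set ℝ) (hE : E.Finite) : ∀ᵐ x : Eu (Fin n), (∀ i, x i ∉ E) ∧
    ∀ i j, i ≠ j → x i ≠ x j := by
  have h1 : ∀ᵐ x : Fin n → ℝ, (∀ i, x i ∉ E) ∧ ∀ i j, i ≠ j → x i ≠ x j := by
    have h2 : ∀ᵐ x : Fin n → ℝ, ∀ i, x i ∉ E := by
      refine ae_all_iff.2 fun i => ?_
      have h3 : ∀ᵐ t : ℝ, t ∉ E := by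
        rw [ae_iff]
        simpa using hE.measure_zero volume
      exact (Measure.quasiMeasurePreserving_eval (μ := fun _ : Fin n => (volume : Measure ℝ)) i).ae h3
    filter_upwards [h2, Pool.Agent.R372.OP.SYM.ties (n := n)] with x hx hi
    exact ⟨hx, fun i j hij he => hij (hi he)⟩
  exact (PiLp.volume_preserving_ofLp (Fin n)).quasiMeasurePreserving.ae h1

theorem trunc {ρ : ℝ → ℝ} (h : LCD ρ) (r : ℝ) :
    LC1 fun s => if |s| ≤ r then ρ s else 0 := by
  refine ⟨fun s => ?_, ?_, fun x y t ht0 ht1 => ?_⟩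
  · split_ifs
    · exact h.nonneg s
    · exact le_rfl
  · exact Measurable.ite (measurableSet_le (by fun_prop) measurable_const) h.meas measurable_const
  · have h0 : 0 ≤ if |(1 - t) * x + t * y| ≤ r then ρ ((1 - t) * x + t * y) else 0 := by
      split_ifs
      · exact h.nonneg _
      · exact le_rfl
    by_cases hx : |x| ≤ r
    · by_cases hy : |y| ≤ r
      · have hxy : |(1 - t) * x + t * y| ≤ r := by
          rw [abs_le] at hx hy ⊢
          constructor <;> nlinarith
        rw [if_pos hx, if_pos hy, if_pos hxy]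
        exact h.logc x y t ht0 ht1
      · rw [if_neg hy, Real.zero_rpow ht0.ne', mul_zero]
        exact h0
    · rw [if_neg hx, Real.zero_rpow (by linarith : (1 - t) ≠ 0), zero_mul]
      exact h0

/-- approximation of a truncated density -/
theorem apx_trunc {h : ℝ → ℝ} (hh : LC1 h) {r : ℝ} (hr : 0 < r) (hs : ∀ s, r < |s| → h s = 0)
    (hpos : 0 < ∫ s, h s) (R : Fin n → Fin n → Prop) (hR : ∀ a, ¬ R a a) (ε : ℝ) (hε : 0 < ε) :
    Integrable (wR h R) ∧
    ∃ U : Eu (Fin n) → ℝ, (∀ c : ℝ, ∃ (b : Eu (Fin n) → Eu (Fin n)) (A : ℝ),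
      Pot (fun x => U x + c) b A) ∧ Integrable (fun x => Real.exp (-U x)) ∧
      ∫ x, |Real.exp (-U x) - wR h R x| ≤ ε := by
  classical
  obtain ⟨H, K, hK, hGD, hb, E, hE, hlim⟩ := Pool.Agent.Y333.RG.reg h r hh hr hs hpos
  have hg : Integrable fun x : Eu (Fin n) =>
      (K * Real.exp (r ^ 2 / 2)) ^ n * Real.exp (-(1 / 4 * ‖x‖ ^ 2)) :=
    (Pool.Agent.W762.KH.gauss_int (κ := Fin n) (1 / 4) (by norm_num)).const_mul _
  have hU := fun k : ℕ => Uk_pot (n := n) (hGD k) hK hr (hb k) (k := (k : ℝ)) (Nat.cast_nonneg k) R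
  have hcont : ∀ k : ℕ, Continuous fun x : Eu (Fin n) => Uk (H k) k R x := by
    intro k
    obtain ⟨V', A0, hA0, hVd, hVm, hVl⟩ := (hGD k).pot
    unfold Uk
    refine (continuous_finsetSum _ fun i _ => ?_).add (continuous_finsetSum _ fun p _ => ?_)
    · have h1 : Continuous fun s => -Real.log (H k s) :=
        continuous_iff_continuousAt.2 fun s => (hVd s).continuousAt
      exact h1.comp (by fun_prop)
    · split_ifs
      · fun_prop
      · exact continuous_const
  -- pointwise limit
  have hpt : ∀ᵐ x : Eu (Fin n), Tendsto (fun k : ℕ => Real.exp (-Uk (H k) k R x)) atTop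
      (𝓝 (wR h R x)) := by
    filter_upwards [ae_good (n := n) E hE] with x hx
    have e : ∀ k : ℕ, Real.exp (-Uk (H k) k R x) = (∏ i, H k (x i)) *
        ∏ p : Fin n × Fin n, Real.exp (-(if R p.1 p.2 then (k : ℝ) / 2 * max 0 (x p.1 - x p.2) ^ 2 else 0)) := by
      intro k
      rw [← Real.exp_sum, Finset.sum_neg_distrib]
      have e1 : ∏ i, H k (x i) = Real.exp (-∑ i, -Real.log (H k (x i))) := by
        rw [Finset.sum_neg_distrib, neg_neg, Real.exp_sum]
        exact Finset.prod_congr rfl fun i _ => (Real.exp_log ((hGD k).pos _)).symm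
      rw [e1, ← Real.exp_add]
      congr 1
      unfold Uk
      ring
    have t1 : Tendsto (fun k : ℕ => ∏ i, H k (x i)) atTop (𝓝 (∏ i, h (x i))) :=
      tendsto_finsetProd _ fun i _ => hlim (x i) (hx.1 i)
    have t2 : Tendsto (fun k : ℕ => ∏ p : Fin n × Fin n,
        Real.exp (-(if R p.1 p.2 then (k : ℝ) / 2 * max 0 (x p.1 - x p.2) ^ 2 else 0))) atTop
        (𝓝 (∏ p : Fin n × Fin n, if R p.1 p.2 ∧ x p.2 < x p.1 then 0 else 1)) := by
      refine tendsto_finsetProd _ fun p _ => ?_
      by_cases hp : R p.1 p.2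
      · simp only [if_pos hp]
        by_cases hlt : x p.2 < x p.1
        · rw [if_pos ⟨hp, hlt⟩]
          have hpos' : 0 < max 0 (x p.1 - x p.2) ^ 2 := by
            rw [max_eq_right (by linarith)]
            have : 0 < x p.1 - x p.2 := by linarith
            positivity
          have h3 : Tendsto (fun k : ℕ => (k : ℝ) / 2 * max 0 (x p.1 - x p.2) ^ 2) atTop atTop := by
            have h4 : Tendsto (fun k : ℕ => (k : ℝ)) atTop atTop := tendsto_natCast_atTop_atTop
            exact (h4.atTop_div_const (by norm_num)).atTop_mul_const hpos'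
          exact Real.tendsto_exp_neg_atTop_nhds_zero.comp h3
        · rw [if_neg (fun hc => hlt hc.2)]
          have h5 : max 0 (x p.1 - x p.2) = 0 := max_eq_left (by linarith [not_lt.1 hlt])
          rw [h5]
          simp
      · simp only [if_neg hp, neg_zero, Real.exp_zero]
        rw [if_neg (fun hc => hp hc.1)]
        exact tendsto_const_nhds
    have t3 := t1.mul t2
    have e2 : (∏ i, h (x i)) * (∏ p : Fin n × Fin n, if R p.1 p.2 ∧ x p.2 < x p.1 then (0 : ℝ) else 1) =
        wR h R x := by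
      unfold wR
      by_cases hc : x ∈ coneE R
      · rw [if_pos hc]
        have : ∀ p : Fin n × Fin n, (if R p.1 p.2 ∧ x p.2 < x p.1 then (0 : ℝ) else 1) = 1 := by
          intro p
          rw [if_neg]
          rintro ⟨h1, h2⟩
          exact absurd (hc p.1 p.2 h1) (not_le.2 h2)
        rw [Finset.prod_congr rfl fun p _ => this p]
        simp
      · rw [if_neg hc]
        have hc' : ∃ i j, R i j ∧ x j < x i := by
          unfold coneE at hc
          simp only [mem_ofPred_eq, not_forall, not_le] at hc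
          obtain ⟨i, j, hij, hlt⟩ := hc
          exact ⟨i, j, hij, hlt⟩
        obtain ⟨i, j, hij, hlt⟩ := hc'
        have h0 : (∏ p : Fin n × Fin n, if R p.1 p.2 ∧ x p.2 < x p.1 then (0 : ℝ) else 1) = 0 :=
          Finset.prod_eq_zero (Finset.mem_univ (i, j)) (if_pos (⟨hij, hlt⟩ : R i j ∧ x j < x i))
        rw [h0, mul_zero]
    rw [e2] at t3
    exact t3.congr fun k => (e k).symm
  have hwbd : ∀ᵐ x : Eu (Fin n), |wR h R x| ≤
      (K * Real.exp (r ^ 2 / 2)) ^ n * Real.exp (-(1 / 4 * ‖x‖ ^ 2)) := by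
    filter_upwards [hpt] with x hx
    rw [abs_of_nonneg (wR_nonneg hh.nonneg R x)]
    exact le_of_tendsto' hx fun k => (hU k).2 x
  have hwi : Integrable (wR h R) :=
    hg.mono' (wR_meas hh.meas R).aestronglyMeasurable hwbd
  have hexpi : ∀ k : ℕ, Integrable fun x => Real.exp (-Uk (H k) k R x) := by
    intro k
    refine hg.mono' (Real.continuous_exp.comp (hcont k).neg).aestronglyMeasurable
      (Eventually.of_forall fun x => ?_)
    rw [Real.norm_eq_abs, Real.abs_exp]
    exact (hU k).2 x
  have hT : Tendsto (fun k : ℕ => ∫ x, |Real.exp (-Uk (H k) k R x) - wR h R x|) atTop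
      (𝓝 (∫ _x : Eu (Fin n), (0 : ℝ))) := by
    refine tendsto_integral_of_dominated_convergence (fun x =>
      2 * ((K * Real.exp (r ^ 2 / 2)) ^ n * Real.exp (-(1 / 4 * ‖x‖ ^ 2)))) (fun k => ?_)
      (hg.const_mul 2) (fun k => ?_) ?_
    · exact ((hexpi k).sub hwi).abs.aestronglyMeasurable
    · filter_upwards [hwbd] with x hx
      rw [Real.norm_eq_abs, abs_abs]
      have h1 := (hU k).2 x
      have h2 := abs_sub (Real.exp (-Uk (H k) k R x)) (wR h R x)
      rw [Real.abs_exp] at h2
      linarith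
    · filter_upwards [hpt] with x hx
      have h1 := (hx.sub_const (wR h R x)).abs
      rw [sub_self, abs_zero] at h1
      exact h1
  rw [integral_zero] at hT
  obtain ⟨k, hk⟩ := (hT.eventually_lt_const hε).exists
  exact ⟨hwi, Uk (H k) k R, (hU k).1, hexpi k, hk.le⟩

/-- approximation of the density -/
theorem apx {ρ : ℝ → ℝ} (h : LCD ρ) (R : Fin n → Fin n → Prop) (hR : ∀ a, ¬ R a a)
    (hwi : Integrable (wR ρ R)) (ε : ℝ) (hε : 0 < ε) :
    ∃ U : Eu (Fin n) → ℝ, (∀ c : ℝ, ∃ (b : Eu (Fin n) → Eu (Fin n)) (A : ℝ),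
      Pot (fun x => U x + c) b A) ∧ Integrable (fun x => Real.exp (-U x)) ∧
      ∫ x, |Real.exp (-U x) - wR ρ R x| ≤ ε := by
  classical
  obtain ⟨tr, htr⟩ : ∃ tr : ℕ → ℝ → ℝ, tr = fun (k : ℕ) s => if |s| ≤ (k : ℝ) then ρ s else 0 :=
    ⟨_, rfl⟩
  have htr0 : ∀ k s, 0 ≤ tr k s := by
    intro k s
    rw [htr]
    dsimp only
    split_ifs
    · exact h.nonneg s
    · exact le_rfl
  have htr1 : ∀ k s, tr k s ≤ ρ s := by
    intro k s
    rw [htr]
    dsimp only
    split_ifs
    · exact le_rfl
    · exact h.nonneg s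
  have htrm : ∀ k, Measurable (tr k) := by
    intro k
    rw [htr]
    exact Measurable.ite (measurableSet_le (by fun_prop) measurable_const) h.meas measurable_const
  have hev : ∀ s, ∀ᶠ k : ℕ in atTop, tr k s = ρ s := by
    intro s
    filter_upwards [eventually_ge_atTop ⌈|s|⌉₊] with k hk
    rw [htr]
    dsimp only
    rw [if_pos]
    exact (Nat.le_ceil _).trans (by exact_mod_cast hk)
  -- the integrals of the truncations are eventually positive
  have h1 : Tendsto (fun k => ∫ s, tr k s) atTop (𝓝 (∫ s, ρ s)) := by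
    refine tendsto_integral_of_dominated_convergence ρ (fun k => (htrm k).aestronglyMeasurable)
      h.integrable (fun k => Eventually.of_forall fun s => ?_) (Eventually.of_forall fun s => ?_)
    · rw [Real.norm_eq_abs, abs_of_nonneg (htr0 k s)]
      exact htr1 k s
    · exact tendsto_nhds_of_eventually_eq (hev s)
  rw [h.integral_eq] at h1
  -- the densities converge
  have h2 : Tendsto (fun k => ∫ x, |wR (tr k) R x - wR ρ R x|) atTop
      (𝓝 (∫ _x : Eu (Fin n), (0 : ℝ))) := by
    refine tendsto_integral_of_dominated_convergence (wR ρ R) (fun k => ?_) hwi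
      (fun k => Eventually.of_forall fun x => ?_) (Eventually.of_forall fun x => ?_)
    · exact (((wR_meas (htrm k) R).sub (wR_meas h.meas R)).abs).aestronglyMeasurable
    · rw [Real.norm_eq_abs, abs_abs]
      have h3 : wR (tr k) R x ≤ wR ρ R x := by
        unfold wR
        split_ifs
        · exact Finset.prod_le_prod (fun i _ => htr0 k _) fun i _ => htr1 k _
        · exact le_rfl
      have h4 := wR_nonneg (htr0 k) R x
      rw [abs_of_nonpos (by linarith)]
      linarith
    · have h3 : ∀ᶠ k : ℕ in atTop, ∀ i, tr k (x i) = ρ (x i) :=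
        eventually_all.2 fun i => hev (x i)
      refine tendsto_nhds_of_eventually_eq ?_
      filter_upwards [h3] with k hk
      have : wR (tr k) R x = wR ρ R x := by
        unfold wR
        simp only [hk]
      rw [this, sub_self, abs_zero]
  rw [integral_zero] at h2
  obtain ⟨k, hk1, hk2, hk3⟩ := ((h1.eventually_const_lt zero_lt_one).and
    ((h2.eventually_lt_const (half_pos hε)).and (eventually_gt_atTop 0))).exists
  have hLC : LC1 (tr k) := by
    rw [htr]
    exact trunc h k
  obtain ⟨hi, U, hU, hUi, hUw⟩ := apx_trunc (n := n) hLC (r := (k : ℝ)) (by exact_mod_cast hk3)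
    (fun s hs => by
      rw [htr]
      dsimp only
      rw [if_neg (not_le.2 hs)]) hk1 R hR (ε / 2) (half_pos hε)
  refine ⟨U, hU, hUi, ?_⟩
  have h5 : ∫ x, |Real.exp (-U x) - wR ρ R x| ≤
      ∫ x, (|Real.exp (-U x) - wR (tr k) R x| + |wR (tr k) R x - wR ρ R x|) := by
    refine integral_mono (hUi.sub hwi).abs ((hUi.sub hi).abs.add (hi.sub hwi).abs) fun x => ?_
    exact abs_sub_le _ _ _
  have h6 : ∫ x, (|Real.exp (-U x) - wR (tr k) R x| + |wR (tr k) R x - wR ρ R x|) =
      (∫ x, |Real.exp (-U x) - wR (tr k) R x|) + ∫ x, |wR (tr k) R x - wR ρ R x| :=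
    integral_add (hUi.sub hi).abs (hi.sub hwi).abs
  rw [h6] at h5
  linarith

end Pool.Agent.U959.OC
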