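import Pool.Agent.U959.OC.Fin

/-!
# The conditional law is log-concave
-/

set_option autoImplicit false

namespace Pool.Agent.U959.OC

open MeasureTheory Set Filter Topology
open scoped ENNReal InnerProductSpace
open Pool.Agent.W695.KH (Eu EU Sm Pot)

variable {ρ : ℝ → ℝ} {n : ℕ}

theorem wR_logc (h : LCD ρ) (R : Fin n → Fin n → Prop) (x y : Eu (Fin n)) (t : ℝ) (h0 : 0 < t)
    (h1 : t < 1) : wR ρ R x ^ (1 - t) * wR ρ R y ^ t ≤ wR ρ R ((1 - t) • x + t • y) := by
  classical
  by_cases hx : x ∈ coneE R
  · by_cases hy : y ∈ coneE R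
    · have hz : (1 - t) • x + t • y ∈ coneE R := by
        intro i j hij
        have h2 := hx i j hij
        have h3 := hy i j hij
        show ((1 - t) • x + t • y) i ≤ ((1 - t) • x + t • y) j
        simp only [PiLp.add_apply, PiLp.smul_apply, smul_eq_mul]
        have h4 := mul_le_mul_of_nonneg_left h2 (by linarith : 0 ≤ 1 - t)
        have h5 := mul_le_mul_of_nonneg_left h3 h0.le
        linarith
      unfold wR
      rw [if_pos hx, if_pos hy, if_pos hz, ← Real.finsetProd_rpow _ _ (fun i _ => h.nonneg _),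
        ← Real.finsetProd_rpow _ _ (fun i _ => h.nonneg _), ← Finset.prod_mul_distrib]
      refine Finset.prod_le_prod (fun i _ => mul_nonneg (Real.rpow_nonneg (h.nonneg _) _)
        (Real.rpow_nonneg (h.nonneg _) _)) fun i _ => ?_
      exact h.logc (x i) (y i) t h0 h1
    · have : wR ρ R y = 0 := by unfold wR; rw [if_neg hy]
      rw [this, Real.zero_rpow h0.ne', mul_zero]
      exact wR_nonneg h.nonneg R _
  · have : wR ρ R x = 0 := by unfold wR; rw [if_neg hx]
    rw [this, Real.zero_rpow (by linarith : (1 - t) ≠ 0), zero_mul]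
    exact wR_nonneg h.nonneg R _

theorem nu_dens (h : LCD ρ) (R : Fin n → Fin n → Prop) (hne : iid n ρ (coneE R) ≠ 0) :
    nu ρ R = volume.withDensity fun x =>
      ENNReal.ofReal ((iid n ρ (coneE R)).toReal⁻¹ * wR ρ R x) := by
  classical
  have hp := iid_prob (n := n) h
  have hc := coneE_meas (n := n) R
  have hZ0 : 0 < (iid n ρ (coneE R)).toReal := ENNReal.toReal_pos hne (measure_ne_top _ _)
  have hwm : Measurable (wR ρ R) := wR_meas h.meas R
  have e1 : (iid n ρ).restrict (coneE R) = volume.withDensity fun x => ENNReal.ofReal (wR ρ R x) := by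
    unfold iid
    rw [restrict_withDensity hc, ← withDensity_indicator hc]
    congr 1
    funext x
    unfold wR
    by_cases hx : x ∈ coneE R
    · rw [indicator_of_mem hx, if_pos hx, ENNReal.ofReal_prod_of_nonneg fun i _ => h.nonneg _]
    · rw [indicator_of_notMem hx, if_neg hx, ENNReal.ofReal_zero]
  unfold nu ProbabilityTheory.cond
  rw [e1, ← withDensity_smul _ hwm.ennreal_ofReal]
  congr 1
  funext x
  rw [Pi.smul_apply, smul_eq_mul, ENNReal.ofReal_mul (inv_nonneg.2 hZ0.le),
    ENNReal.ofReal_inv_of_pos hZ0, ENNReal.ofReal_toReal (measure_ne_top _ _)]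

end Pool.Agent.U959.OC
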