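import Pool.Agent.R656.OP2.Core
import Pool.Agent.R310.OP2.Body

/-!
# From the Poincare inequality to the `L¹` inequality at all levels, for limits of smooth
log-concave measures
-/

set_option autoImplicit false

namespace Pool.Agent.U959.OC

open MeasureTheory Set Filter Topology
open scoped ENNReal InnerProductSpace
open Pool.Agent.W695.KH (Eu EU Sm Pot)
open Pool.Agent.W880.KH (EU_le EU_sub_const EU_sub_sq)
open Pool.Agent.R310.OP2.Body (EU_mul)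

variable {κ : Type} [Fintype κ]

/-- `μ` is a limit of measures with smooth potentials in total variation -/
def Lim (μ : Measure (Eu κ)) : Prop :=
  ∀ ε : ℝ, 0 < ε → ∃ (U : Eu κ → ℝ) (b : Eu κ → Eu κ) (A : ℝ), Pot U b A ∧
    EU U (fun _ => 1) = 1 ∧
    ∀ g : Eu κ → ℝ, Continuous g → (∀ x, |g x| ≤ 1) → |EU U g - ∫ x, g x ∂μ| ≤ ε

theorem scaled {μ : Measure (Eu κ)} {U : Eu κ → ℝ} {ε : ℝ}
    (h : ∀ g : Eu κ → ℝ, Continuous g → (∀ x, |g x| ≤ 1) → |EU U g - ∫ x, g x ∂μ| ≤ ε)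
    {g : Eu κ → ℝ} (hg : Continuous g) {B : ℝ} (hB : 0 < B) (hb : ∀ x, |g x| ≤ B) :
    |EU U g - ∫ x, g x ∂μ| ≤ B * ε := by
  have h1 := h (fun x => 1 / B * g x) (continuous_const.mul hg) (fun x => by
    rw [abs_mul, abs_of_pos (by positivity : 0 < 1 / B), one_div, inv_mul_le_iff₀ hB, mul_one]
    exact hb x)
  rw [EU_mul, integral_const_mul, ← mul_sub, abs_mul, abs_of_pos (by positivity : 0 < 1 / B)] at h1
  calc |EU U g - ∫ x, g x ∂μ| = B * (1 / B * |EU U g - ∫ x, g x ∂μ|) := by field_simp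
    _ ≤ B * ε := mul_le_mul_of_nonneg_left h1 hB.le

theorem lev (μ : Measure (Eu κ)) [IsProbabilityMeasure μ] (happ : Lim μ) (Cp : ℝ) (hCp : 0 < Cp)
    (hPoi : ∀ (v : Eu κ → ℝ) (L : ℝ), ContDiff ℝ 1 v → (∀ x, |v x| ≤ 1) →
      (∀ x, ‖fderiv ℝ v x‖ ≤ L) →
      (∫ x, v x ^ 2 ∂μ) - (∫ x, v x ∂μ) ^ 2 ≤ Cp * ∫ x, ‖fderiv ℝ v x‖ ^ 2 ∂μ)
    (f : Eu κ → ℝ) (L M : ℝ) (hf : Sm f L M) (hfb : ∀ x, |f x| ≤ 1 / 2) :
    (∫ x, f x ^ 2 ∂μ) - (∫ x, f x ∂μ) ^ 2 ≤ 4 * Real.sqrt Cp * ∫ x, ‖fderiv ℝ f x‖ ∂μ := by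
  have hcont : Continuous f := hf.diff.continuous
  have hL : 0 ≤ L := (norm_nonneg _).trans (hf.grad 0)
  have hgc : Continuous fun x => ‖fderiv ℝ f x‖ :=
    (hf.diff.continuous_fderiv one_ne_zero).norm
  obtain ⟨V, hVdef⟩ : ∃ V, V = (∫ x, f x ^ 2 ∂μ) - (∫ x, f x ∂μ) ^ 2 := ⟨_, rfl⟩
  obtain ⟨G, hGdef⟩ : ∃ G, G = ∫ x, ‖fderiv ℝ f x‖ ∂μ := ⟨_, rfl⟩
  rw [← hVdef, ← hGdef]
  have hG0 : 0 ≤ G := by
    rw [hGdef]
    exact integral_nonneg fun x => norm_nonneg _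
  by_contra hcon
  push Not at hcon
  have hsq : 0 ≤ Real.sqrt Cp := Real.sqrt_nonneg _
  have hsq2 : Real.sqrt Cp ^ 2 = Cp := Real.sq_sqrt hCp.le
  have hV : 0 < V := lt_of_le_of_lt (by positivity) hcon
  have hV2 : 16 * Cp * G ^ 2 < V ^ 2 := by
    have h1 : (4 * Real.sqrt Cp * G) ^ 2 < V ^ 2 := by
      apply pow_lt_pow_left₀ hcon (by positivity) two_ne_zero
    have h2 : (4 * Real.sqrt Cp * G) ^ 2 = 16 * Cp * G ^ 2 := by
      rw [mul_pow, mul_pow, hsq2]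
      ring
    rwa [h2] at h1
  obtain ⟨c, hc1, hc2⟩ : ∃ c, 4 * G ^ 2 / V < c ∧ c < V / (4 * Cp) := by
    apply exists_between
    rw [div_lt_div_iff₀ hV (by positivity)]
    nlinarith
  have hc : 0 < c := lt_of_le_of_lt (by positivity) hc1
  obtain ⟨δ, hδ1, hδ2⟩ : ∃ δ, Cp * c < δ ∧ δ < V / 4 := by
    apply exists_between
    rw [lt_div_iff₀ (by positivity)] at hc2
    linarith
  have hδ : 0 < δ := lt_trans (by positivity) hδ1
  obtain ⟨L0, hL0⟩ : ∃ L0 : ℝ, L0 = max (max L M) 1 := ⟨_, rfl⟩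
  have hL01 : 1 ≤ L0 := by rw [hL0]; exact le_max_right _ _
  have hLL0 : L ≤ L0 := by rw [hL0]; exact (le_max_left _ _).trans (le_max_left _ _)
  have hgap : 0 < δ / Cp - c := by
    have : c < δ / Cp := by
      rw [lt_div_iff₀ hCp]
      linarith
    linarith
  have hden : 0 < 3 / Cp + L0 ^ 2 := by positivity
  -- for small `ε`
  have hmain : ∀ ε : ℝ, 0 < ε → ε * (3 / Cp + L0 ^ 2) ≤ δ / Cp - c → 3 * ε < V - 4 * δ →
      V - 3 * ε ≤ 4 / c * (G + L0 * ε) ^ 2 := by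
    intro ε hε hε1 hε2
    obtain ⟨U, b, A, hP, hA4, hU⟩ := happ ε hε
    -- variances
    have hvar : ∀ v : Eu κ → ℝ, Continuous v → (∀ x, |v x| ≤ 1) →
        |(EU U (fun x => v x ^ 2) - EU U v ^ 2) - ((∫ x, v x ^ 2 ∂μ) - (∫ x, v x ∂μ) ^ 2)| ≤ 3 * ε := by
      intro v hv1 hv2
      have hv4 : ∀ x, |v x ^ 2| ≤ 1 := fun x => by
        rw [abs_pow]
        exact pow_le_one₀ (abs_nonneg _) (hv2 x)
      have k1 := hU v hv1 hv2
      have k3 := hU (fun x => v x ^ 2) (hv1.pow 2) hv4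
      have k5 := EU_le U hA4 v hv1 1 hv2
      have k6 : |∫ x, v x ∂μ| ≤ 1 := by
        have h1 := norm_integral_le_of_norm_le_const (μ := μ) (f := v) (C := 1)
          (Eventually.of_forall hv2)
        simpa using h1
      have e : (EU U (fun x => v x ^ 2) - EU U v ^ 2) - ((∫ x, v x ^ 2 ∂μ) - (∫ x, v x ∂μ) ^ 2) =
          (EU U (fun x => v x ^ 2) - ∫ x, v x ^ 2 ∂μ) -
            (EU U v - ∫ x, v x ∂μ) * (EU U v + ∫ x, v x ∂μ) := by
        ring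
      rw [e]
      have h3 : |EU U v + ∫ x, v x ∂μ| ≤ 2 := by
        have := abs_add_le (EU U v) (∫ x, v x ∂μ)
        linarith
      have h2 : |(EU U v - ∫ x, v x ∂μ) * (EU U v + ∫ x, v x ∂μ)| ≤ ε * 2 := by
        rw [abs_mul]
        exact mul_le_mul k1 h3 (abs_nonneg _) hε.le
      have h4 := abs_sub (EU U (fun x => v x ^ 2) - ∫ x, v x ^ 2 ∂μ)
        ((EU U v - ∫ x, v x ∂μ) * (EU U v + ∫ x, v x ∂μ))
      linarith
    have hWP : ∀ v : Eu κ → ℝ, ContDiff ℝ 1 v → (∀ x, |v x| ≤ 1) →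
        (∀ x, ‖fderiv ℝ v x‖ ≤ max (max L M) 1) →
        δ ≤ EU U (fun x => v x ^ 2) - EU U v ^ 2 →
        c ≤ EU U fun x => ‖fderiv ℝ v x‖ ^ 2 := by
      intro v hv1 hv2 hv3 hv5
      rw [← hL0] at hv3
      have h1 := hPoi v L0 hv1 hv2 hv3
      have hL02 : 0 < L0 ^ 2 := by positivity
      have hw1 : ∀ x, |‖fderiv ℝ v x‖ ^ 2| ≤ L0 ^ 2 := by
        intro x
        rw [abs_of_nonneg (by positivity)]
        exact pow_le_pow_left₀ (norm_nonneg _) (hv3 x) 2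
      have k7 := scaled hU (g := fun x => ‖fderiv ℝ v x‖ ^ 2)
        ((hv1.continuous_fderiv one_ne_zero).norm.pow 2) hL02 hw1
      have k8 := hvar v hv1.continuous hv2
      have h5 : δ - 3 * ε ≤ (∫ x, v x ^ 2 ∂μ) - (∫ x, v x ∂μ) ^ 2 := by
        have := (abs_le.1 k8).2
        linarith
      have h6 : (δ - 3 * ε) / Cp ≤ ∫ x, ‖fderiv ℝ v x‖ ^ 2 ∂μ := by
        rw [div_le_iff₀ hCp]
        linarith
      have h7 := (abs_le.1 k7).1
      have h9 : (δ - 3 * ε) / Cp = δ / Cp - ε * (3 / Cp) := by ring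
      rw [h9] at h6
      nlinarith
    obtain ⟨m, hm⟩ : ∃ m, m = EU U f := ⟨_, rfl⟩
    have hmb : |m| ≤ 1 / 2 := hm ▸ EU_le U hA4 f hcont (1 / 2) hfb
    have hfd : ∀ x, fderiv ℝ (fun y => f y - m) x = fderiv ℝ f x := by
      intro x
      rw [fderiv_sub_const]
    have hS : Sm (fun x => f x - m) L M := by
      refine ⟨?_, hf.diff.sub contDiff_const, ?_, ?_⟩
      · intro x
        have h1 := hfb x
        have h2 : |f x - m| ≤ |f x| + |m| := abs_sub _ _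
        linarith
      · intro x
        rw [hfd]
        exact hf.grad x
      · intro x y
        rw [hfd, hfd]
        exact hf.lip x y
    have h1 : EU U (fun x => f x - m) = 0 := by
      rw [EU_sub_const U hA4 f hcont (1 / 2) hfb m, hm, sub_self]
    have h2 : EU U (fun x => (f x - m) ^ 2) =
        EU U (fun x => f x ^ 2) - EU U f ^ 2 := by
      rw [EU_sub_sq U hA4 f hcont (1 / 2) hfb m, ← hm]
      ring
    have hfb1 : ∀ x, |f x| ≤ 1 := hf.bdd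
    have k8 := (abs_le.1 (hvar f hcont hfb1)).1
    rw [← hVdef] at k8
    have h3 := Pool.Agent.R656.OP2.t_corl κ U b A hP hA4 δ c hδ hc (fun x => f x - m) L M hS hWP h1
      (by rw [h2]; linarith)
    rw [h2] at h3
    simp only [hfd] at h3
    have k9 := scaled hU hgc (B := L0) (by linarith) (fun x => by
      rw [abs_norm]
      exact (hf.grad x).trans hLL0)
    rw [← hGdef] at k9
    have k10 := (abs_le.1 k9).2
    have k11 : 0 ≤ EU U fun x => ‖fderiv ℝ f x‖ := by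
      unfold Pool.Agent.W695.KH.EU
      exact integral_nonneg fun x => mul_nonneg (norm_nonneg _) (Real.exp_pos _).le
    have k12 : (EU U fun x => ‖fderiv ℝ f x‖) ^ 2 ≤ (G + L0 * ε) ^ 2 :=
      pow_le_pow_left₀ k11 (by linarith) 2
    have k13 : 4 / c * (EU U fun x => ‖fderiv ℝ f x‖) ^ 2 ≤ 4 / c * (G + L0 * ε) ^ 2 :=
      mul_le_mul_of_nonneg_left k12 (by positivity)
    linarith
  have hfinal : V ≤ 4 / c * G ^ 2 := by
    have t1 : Tendsto (fun ε : ℝ => V - 3 * ε) (𝓝[>] 0) (𝓝 V) := by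
      have h1 : Continuous fun ε : ℝ => V - 3 * ε := by fun_prop
      have h2 := (h1.tendsto 0).mono_left (nhdsWithin_le_nhds (s := Ioi (0 : ℝ)))
      simpa using h2
    have t2 : Tendsto (fun ε : ℝ => 4 / c * (G + L0 * ε) ^ 2) (𝓝[>] 0) (𝓝 (4 / c * G ^ 2)) := by
      have h1 : Continuous fun ε : ℝ => 4 / c * (G + L0 * ε) ^ 2 := by fun_prop
      have h2 := (h1.tendsto 0).mono_left (nhdsWithin_le_nhds (s := Ioi (0 : ℝ)))
      simpa using h2
    refine le_of_tendsto_of_tendsto t1 t2 ?_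
    have e1 : ∀ᶠ ε : ℝ in 𝓝[>] 0, ε * (3 / Cp + L0 ^ 2) < δ / Cp - c := by
      have h1 : Continuous fun ε : ℝ => ε * (3 / Cp + L0 ^ 2) := by fun_prop
      have h2 := (h1.tendsto 0).mono_left (nhdsWithin_le_nhds (s := Ioi (0 : ℝ)))
      rw [zero_mul] at h2
      exact h2.eventually_lt_const hgap
    have e2 : ∀ᶠ ε : ℝ in 𝓝[>] 0, 3 * ε < V - 4 * δ := by
      have h1 : Continuous fun ε : ℝ => 3 * ε := by fun_prop
      have h2 := (h1.tendsto 0).mono_left (nhdsWithin_le_nhds (s := Ioi (0 : ℝ)))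
      rw [mul_zero] at h2
      exact h2.eventually_lt_const (by linarith)
    filter_upwards [e1, e2, self_mem_nhdsWithin] with ε h1 h2 h3
    exact hmain ε h3 h1.le h2
  rw [div_lt_iff₀ hV] at hc1
  have h9 : V * c ≤ 4 * G ^ 2 := by
    have : 4 / c * G ^ 2 = 4 * G ^ 2 / c := by ring
    rw [this, le_div_iff₀ hc] at hfinal
    exact hfinal
  linarith

end Pool.Agent.U959.OC
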