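import Mathlib

/-!
# Log-concave densities on the line: hazard inequalities, bounds by the density at the median
-/

set_option autoImplicit false

namespace Pool.Agent.U959.OC

open MeasureTheory Set Filter Topology
open scoped ENNReal

/-- log-concave probability density on the line -/
structure LCD (ρ : ℝ → ℝ) : Prop where
  nonneg : ∀ t, 0 ≤ ρ t
  meas : Measurable ρ
  logc : ∀ x y t : ℝ, 0 < t → t < 1 → ρ x ^ (1 - t) * ρ y ^ t ≤ ρ ((1 - t) * x + t * y)
  mass : ∫⁻ s, ENNReal.ofReal (ρ s) = 1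

variable {ρ : ℝ → ℝ}

theorem LCD.integrable (h : LCD ρ) : Integrable ρ := by
  refine ⟨h.meas.aestronglyMeasurable, ?_⟩
  rw [hasFiniteIntegral_iff_ofReal (Eventually.of_forall h.nonneg), h.mass]
  exact ENNReal.one_lt_top

theorem LCD.integral_eq (h : LCD ρ) : ∫ s, ρ s = 1 := by
  rw [integral_eq_lintegral_of_nonneg_ae (Eventually.of_forall h.nonneg)
    h.meas.aestronglyMeasurable, h.mass]
  simp

/-- four points -/
theorem LCD.four (h : LCD ρ) {a b c d : ℝ} (hab : a ≤ b) (hac : a ≤ c) (hs : a + d = b + c) :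
    ρ a * ρ d ≤ ρ b * ρ c := by
  rcases eq_or_lt_of_le hab with rfl | hab'
  · have : d = c := by linarith
    rw [this]
  rcases eq_or_lt_of_le hac with rfl | hac'
  · have : d = b := by linarith
    rw [this, mul_comm]
  have had : 0 < d - a := by linarith
  obtain ⟨t, ht⟩ : ∃ t, t = (b - a) / (d - a) := ⟨_, rfl⟩
  have ht0 : 0 < t := by rw [ht]; exact div_pos (by linarith) had
  have ht1 : t < 1 := by rw [ht, div_lt_one had]; linarith
  have hb : (1 - t) * a + t * d = b := by
    have : t * (d - a) = b - a := by rw [ht]; field_simp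
    linarith
  have hc : (1 - (1 - t)) * a + (1 - t) * d = c := by
    have : t * (d - a) = b - a := by rw [ht]; field_simp
    linarith
  have h1 := h.logc a d t ht0 ht1
  have h2 := h.logc a d (1 - t) (by linarith) (by linarith)
  rw [hb] at h1
  rw [hc] at h2
  have ha0 := h.nonneg a
  have hd0 := h.nonneg d
  have e : ρ a * ρ d = (ρ a ^ (1 - t) * ρ d ^ t) * (ρ a ^ (1 - (1 - t)) * ρ d ^ (1 - t)) := by
    have e1 : ρ a ^ (1 - t) * ρ a ^ (1 - (1 - t)) = ρ a := by
      rw [← Real.rpow_add_of_nonneg ha0 (by linarith) (by linarith)]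
      simp
    have e2 : ρ d ^ t * ρ d ^ (1 - t) = ρ d := by
      rw [← Real.rpow_add_of_nonneg hd0 (by linarith) (by linarith)]
      simp
    calc ρ a * ρ d = (ρ a ^ (1 - t) * ρ a ^ (1 - (1 - t))) * (ρ d ^ t * ρ d ^ (1 - t)) := by
          rw [e1, e2]
      _ = _ := by ring
  rw [e]
  exact mul_le_mul h1 h2 (mul_nonneg (Real.rpow_nonneg ha0 _) (Real.rpow_nonneg hd0 _))
    (h.nonneg b)

/-- the support -/
def supp (ρ : ℝ → ℝ) : Set ℝ := {t | 0 < ρ t}

theorem LCD.convex (h : LCD ρ) : Convex ℝ (supp ρ) := by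
  refine convex_iff_forall_pos.2 fun x hx y hy a b ha hb hab => ?_
  have hb1 : b < 1 := by linarith
  have h1 := h.logc x y b hb hb1
  have : a = 1 - b := by linarith
  subst this
  refine lt_of_lt_of_le ?_ h1
  exact mul_pos (Real.rpow_pos_of_pos hx _) (Real.rpow_pos_of_pos hy _)

/-- interior of the support -/
def J (ρ : ℝ → ℝ) : Set ℝ := interior (supp ρ)

theorem J_pos {t : ℝ} (ht : t ∈ J ρ) : 0 < ρ t := (interior_subset ht : t ∈ supp ρ)

theorem J_open : IsOpen (J ρ) := isOpen_interior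

theorem LCD.J_conv (h : LCD ρ) : Convex ℝ (J ρ) := h.convex.interior

theorem LCD.J_ord (h : LCD ρ) : (J ρ).OrdConnected := h.J_conv.ordConnected

theorem LCD.cont (h : LCD ρ) : ContinuousOn ρ (J ρ) := by
  have hc : ConcaveOn ℝ (supp ρ) fun t => Real.log (ρ t) := by
    refine ⟨h.convex, fun x hx y hy a b ha hb hab => ?_⟩
    rcases eq_or_lt_of_le ha with rfl | ha'
    · have : b = 1 := by linarith
      subst this
      simp
    rcases eq_or_lt_of_le hb with rfl | hb'
    · have : a = 1 := by linarith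
      subst this
      simp
    have h1 := h.logc x y b hb' (by linarith)
    have : a = 1 - b := by linarith
    subst this
    have hx' : 0 < ρ x := hx
    have hy' : 0 < ρ y := hy
    have h2 := Real.log_le_log (mul_pos (Real.rpow_pos_of_pos hx' _) (Real.rpow_pos_of_pos hy' _)) h1
    rw [Real.log_mul (Real.rpow_pos_of_pos hx' _).ne' (Real.rpow_pos_of_pos hy' _).ne',
      Real.log_rpow hx', Real.log_rpow hy'] at h2
    simpa [smul_eq_mul] using h2
  have h1 := hc.continuousOn_interior
  have h2 : ContinuousOn (fun t => Real.exp (Real.log (ρ t))) (J ρ) :=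
    Real.continuous_exp.comp_continuousOn h1
  refine h2.congr fun t ht => ?_
  exact (Real.exp_log (J_pos ht)).symm

/-- the density vanishes almost everywhere outside `J` -/
theorem LCD.ae_zero (h : LCD ρ) : ∀ᵐ t, t ∉ J ρ → ρ t = 0 := by
  have h1 : volume (frontier (supp ρ)) = 0 := h.convex.addHaar_frontier volume
  have h2 : ∀ᵐ t, t ∉ frontier (supp ρ) := by
    rw [ae_iff]
    simpa using h1
  filter_upwards [h2] with t ht hJ
  by_contra h0
  have hpos : 0 < ρ t := lt_of_le_of_ne (h.nonneg t) (Ne.symm h0)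
  apply ht
  rw [frontier]
  exact ⟨subset_closure hpos, hJ⟩

/-- distribution function -/
noncomputable def F (ρ : ℝ → ℝ) (t : ℝ) : ℝ := ∫ s in Iic t, ρ s

/-- tail -/
noncomputable def G (ρ : ℝ → ℝ) (t : ℝ) : ℝ := ∫ s in Ioi t, ρ s

theorem LCD.F_add_G (h : LCD ρ) (t : ℝ) : F ρ t + G ρ t = 1 := by
  unfold F G
  rw [← h.integral_eq, ← compl_Iic]
  exact integral_add_compl measurableSet_Iic h.integrable

theorem LCD.F_nonneg (h : LCD ρ) (t : ℝ) : 0 ≤ F ρ t := integral_nonneg h.nonneg

theorem LCD.G_nonneg (h : LCD ρ) (t : ℝ) : 0 ≤ G ρ t := integral_nonneg h.nonneg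

theorem LCD.F_mono (h : LCD ρ) : Monotone (F ρ) := fun _ _ hst =>
  setIntegral_mono_set h.integrable.integrableOn (Eventually.of_forall h.nonneg)
    (Iic_subset_Iic.2 hst).eventuallyLE

theorem LCD.F_sub (h : LCD ρ) (a b : ℝ) : F ρ b - F ρ a = ∫ s in a..b, ρ s :=
  intervalIntegral.integral_Iic_sub_Iic h.integrable.integrableOn h.integrable.integrableOn

theorem LCD.F_cont (h : LCD ρ) : Continuous (F ρ) := by
  have h1 : Continuous fun b : ℝ => ∫ s in (0 : ℝ)..b, ρ s :=
    intervalIntegral.continuous_primitive (fun _ _ => h.integrable.intervalIntegrable) 0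
  have h2 : F ρ = fun b => F ρ 0 + ∫ s in (0 : ℝ)..b, ρ s := by
    funext b
    rw [← h.F_sub 0 b]
    ring
  rw [h2]
  exact continuous_const.add h1

theorem LCD.F_der (h : LCD ρ) {t : ℝ} (ht : t ∈ J ρ) : HasDerivAt (F ρ) (ρ t) t := by
  have h1 : HasDerivAt (fun b : ℝ => ∫ s in (0 : ℝ)..b, ρ s) (ρ t) t :=
    intervalIntegral.integral_hasDerivAt_right h.integrable.intervalIntegrable
      h.meas.stronglyMeasurable.stronglyMeasurableAtFilter
      (h.cont.continuousAt (J_open.mem_nhds ht))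
  have h2 : F ρ = fun b => F ρ 0 + ∫ s in (0 : ℝ)..b, ρ s := by
    funext b
    rw [← h.F_sub 0 b]
    ring
  rw [h2]
  simpa using h1.const_add (F ρ 0)

theorem LCD.F_bot (h : LCD ρ) : Tendsto (F ρ) atBot (𝓝 0) := by
  have h1 : Tendsto (fun t : ℝ => ∫ s in Iic t, ρ s) atBot (𝓝 (∫ s in (∅ : Set ℝ), ρ s)) := by
    have := tendsto_setIntegral_of_antitone (μ := volume) (f := ρ) (s := fun t : ℝᵒᵈ => Iic
      (OrderDual.ofDual t)) (fun _ => measurableSet_Iic) (fun a b hab => Iic_subset_Iic.2 hab)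
      ⟨OrderDual.toDual 0, h.integrable.integrableOn⟩
    have e : (⋂ t : ℝᵒᵈ, Iic (OrderDual.ofDual t)) = (∅ : Set ℝ) := by
      ext x
      simp only [mem_iInter, mem_Iic, mem_empty_iff_false, iff_false, not_forall, not_le]
      exact ⟨OrderDual.toDual (x - 1), by simp⟩
    rw [e] at this
    exact this
  rw [setIntegral_empty] at h1
  exact h1

theorem LCD.F_top (h : LCD ρ) : Tendsto (F ρ) atTop (𝓝 1) := by
  have h1 := tendsto_setIntegral_of_monotone (μ := volume) (f := ρ) (s := fun t : ℝ => Iic t)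
    (fun _ => measurableSet_Iic) (fun a b hab => Iic_subset_Iic.2 hab)
    h.integrable.integrableOn
  have e : (⋃ t : ℝ, Iic t) = (univ : Set ℝ) := by
    ext x
    simp only [mem_iUnion, mem_Iic, mem_univ, iff_true]
    exact ⟨x, le_rfl⟩
  rw [e, setIntegral_univ, h.integral_eq] at h1
  exact h1

/-- every level in `(0, 1)` is attained in `J` -/
theorem LCD.surj (h : LCD ρ) {x : ℝ} (h0 : 0 < x) (h1 : x < 1) : ∃ t ∈ J ρ, F ρ t = x := by
  obtain ⟨a, ha⟩ := (h.F_bot.eventually (gt_mem_nhds h0)).exists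
  obtain ⟨b, hb⟩ := (h.F_top.eventually (lt_mem_nhds h1)).exists
  have hab : a ≤ b := by
    by_contra hc
    push Not at hc
    have := h.F_mono hc.le
    linarith
  obtain ⟨t, -, ht⟩ := intermediate_value_Icc hab h.F_cont.continuousOn ⟨ha.le, hb.le⟩
  -- if `t` is not in `J` then `J` is on one side of `t`
  refine ⟨t, ?_, ht⟩
  by_contra hJ
  by_cases hr : ∃ u ∈ J ρ, t < u
  · obtain ⟨u, hu, htu⟩ := hr
    have hl : ∀ v ∈ J ρ, t < v := by
      intro v hv
      by_contra hc
      push Not at hc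
      exact hJ (h.J_ord.out hv hu ⟨hc, htu.le⟩)
    have : F ρ t = 0 := by
      unfold F
      refine setIntegral_eq_zero_of_ae_eq_zero ?_
      filter_upwards [h.ae_zero] with s hs hst
      exact hs fun hsJ => absurd (hl s hsJ) (not_lt.2 hst)
    linarith
  · push Not at hr
    have : G ρ t = 0 := by
      unfold G
      refine setIntegral_eq_zero_of_ae_eq_zero ?_
      filter_upwards [h.ae_zero] with s hs hst
      exact hs fun hsJ => absurd (hr s hsJ) (not_le.2 hst)
    have := h.F_add_G t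
    linarith

theorem LCD.F_strict (h : LCD ρ) {s t : ℝ} (hs : s ∈ J ρ) (ht : t ∈ J ρ) (hst : s < t) :
    F ρ s < F ρ t := by
  have h1 : 0 < ∫ u in s..t, ρ u := by
    refine intervalIntegral.intervalIntegral_pos_of_pos_on h.integrable.intervalIntegrable
      (fun u hu => J_pos (h.J_ord.out hs ht ⟨hu.1.le, hu.2.le⟩)) hst
  have := h.F_sub s t
  linarith

theorem LCD.F_pos (h : LCD ρ) {t : ℝ} (ht : t ∈ J ρ) : 0 < F ρ t := by
  obtain ⟨ε, hε, hsub⟩ := Metric.isOpen_iff.1 J_open t ht
  have hm : t - ε / 2 ∈ J ρ := hsub (by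
    rw [Metric.mem_ball, Real.dist_eq]
    rw [abs_lt]; constructor <;> linarith)
  have := h.F_strict hm ht (by linarith)
  exact lt_of_le_of_lt (h.F_nonneg _) this

theorem LCD.G_pos (h : LCD ρ) {t : ℝ} (ht : t ∈ J ρ) : 0 < G ρ t := by
  obtain ⟨ε, hε, hsub⟩ := Metric.isOpen_iff.1 J_open t ht
  have hm : t + ε / 2 ∈ J ρ := hsub (by
    rw [Metric.mem_ball, Real.dist_eq]
    rw [abs_lt]; constructor <;> linarith)
  have h1 := h.F_strict ht hm (by linarith)
  have h2 := h.F_add_G t
  have h3 := h.F_add_G (t + ε / 2)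
  have h4 := h.G_nonneg (t + ε / 2)
  linarith

/-- hazard inequality -/
theorem LCD.hazard (h : LCD ρ) {t s : ℝ} (hts : t ≤ s) : G ρ s * ρ t ≤ ρ s * G ρ t := by
  have e : ∀ a : ℝ, G ρ a = ∫ u in Ioi (0 : ℝ), ρ (a + u) := by
    intro a
    unfold G
    rw [← integral_indicator measurableSet_Ioi, ← integral_indicator measurableSet_Ioi,
      ← integral_add_left_eq_self _ a]
    congr 1
    funext u
    simp only [indicator, mem_Ioi, lt_add_iff_pos_right]
  have hi : ∀ a : ℝ, IntegrableOn (fun u => ρ (a + u)) (Ioi (0 : ℝ)) := fun a =>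
    (h.integrable.comp_add_left a).integrableOn
  rw [e s, e t, ← integral_mul_const, ← integral_const_mul]
  refine setIntegral_mono_on ((hi s).mul_const _) ((hi t).const_mul _) measurableSet_Ioi
    fun u hu => ?_
  have hu' : (0 : ℝ) < u := hu
  have := h.four (a := t) (b := s) (c := t + u) (d := s + u) hts (by linarith) (by ring)
  linarith

/-- mirror of the hazard inequality -/
theorem LCD.hazard' (h : LCD ρ) {t s : ℝ} (hts : t ≤ s) : F ρ t * ρ s ≤ ρ t * F ρ s := by
  have e : ∀ a : ℝ, F ρ a = ∫ u in Iic (0 : ℝ), ρ (a + u) := by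
    intro a
    unfold F
    rw [← integral_indicator measurableSet_Iic, ← integral_indicator measurableSet_Iic,
      ← integral_add_left_eq_self _ a]
    congr 1
    funext u
    simp only [indicator, mem_Iic, add_le_iff_nonpos_right]
  have hi : ∀ a : ℝ, IntegrableOn (fun u => ρ (a + u)) (Iic (0 : ℝ)) := fun a =>
    (h.integrable.comp_add_left a).integrableOn
  rw [e s, e t, ← integral_mul_const, ← integral_const_mul]
  refine setIntegral_mono_on ((hi t).mul_const _) ((hi s).const_mul _) measurableSet_Iic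
    fun u hu => ?_
  have hu' : u ≤ 0 := hu
  have := h.four (a := t + u) (b := t) (c := s + u) (d := s) (by linarith) (by linarith) (by ring)
  linarith

/-- the bounds by the density at the median `m` -/
theorem LCD.median (h : LCD ρ) : ∃ m ∈ J ρ, F ρ m = 1 / 2 ∧ 0 < ρ m ∧
    (∀ t, F ρ t * G ρ t ≤ ρ t / (2 * ρ m)) ∧ ∀ t, ρ t ≤ 2 * ρ m := by
  obtain ⟨m, hm, hF⟩ := h.surj (x := 1 / 2) (by norm_num) (by norm_num)
  have hp : 0 < ρ m := J_pos hm
  have hG : G ρ m = 1 / 2 := by
    have := h.F_add_G m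
    linarith
  refine ⟨m, hm, hF, hp, fun t => ?_, fun t => ?_⟩
  · have h0 := h.F_nonneg t
    have h0' := h.G_nonneg t
    have hs := h.F_add_G t
    rw [le_div_iff₀ (by positivity)]
    rcases le_total m t with hmt | hmt
    · have h1 := h.hazard hmt
      rw [hG] at h1
      have h2 : F ρ t * G ρ t ≤ G ρ t := by nlinarith
      nlinarith
    · have h1 := h.hazard' hmt
      rw [hF] at h1
      have h2 : F ρ t * G ρ t ≤ F ρ t := by nlinarith
      nlinarith
  · have h0 := h.F_nonneg t
    have h0' := h.G_nonneg t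
    have hs := h.F_add_G t
    rcases le_total m t with hmt | hmt
    · have h1 := h.hazard' hmt
      rw [hF] at h1
      nlinarith
    · have h1 := h.hazard hmt
      rw [hG] at h1
      nlinarith

end Pool.Agent.U959.OC
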