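import Pool.Agent.U959.OC.Pots
import Pool.Agent.U959.OC.Lev
import Pool.Agent.U959.OC.One
import Pool.Agent.Y333.RG.Reg
import Pool.Agent.W762.KH.Proj

/-!
# Approximation of log-concave densities restricted to order cones
-/

set_option autoImplicit false

namespace Pool.Agent.U959.OC

open MeasureTheory Set Filter Topology
open scoped ENNReal InnerProductSpace
open Pool.Agent.W695.KH (Eu EU Sm Pot)
open Pool.Agent.Y506.RG (LC1 GD)

/-! ### the square of the positive part -/

theorem pp_bd (x y : ℝ) : |max 0 y ^ 2 - max 0 x ^ 2 - 2 * max 0 x * (y - x)| ≤ (y - x) ^ 2 := by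
  rcases le_total 0 x with hx | hx <;> rcases le_total 0 y with hy | hy
  · rw [max_eq_right hx, max_eq_right hy, abs_le]
    constructor <;> nlinarith [sq_nonneg (y - x)]
  · rw [max_eq_right hx, max_eq_left hy, abs_le]
    constructor <;> nlinarith [sq_nonneg (y - x), mul_nonneg hx (neg_nonneg.2 hy)]
  · rw [max_eq_left hx, max_eq_right hy, abs_le]
    constructor <;> nlinarith [sq_nonneg (y - x), mul_nonneg hy (neg_nonneg.2 hx)]
  · rw [max_eq_left hx, max_eq_left hy, abs_le]
    constructor <;> nlinarith [sq_nonneg (y - x)]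

theorem pp_der (k x : ℝ) : HasDerivAt (fun s : ℝ => k / 2 * max 0 s ^ 2) (k * max 0 x) x := by
  have h1 : HasDerivAt (fun s : ℝ => max 0 s ^ 2) (2 * max 0 x) x := by
    rw [hasDerivAt_iff_isLittleO]
    have h2 : (fun y : ℝ => max 0 y ^ 2 - max 0 x ^ 2 - (y - x) • (2 * max 0 x)) =O[𝓝 x]
        fun y => ‖y - x‖ ^ 2 := by
      refine Asymptotics.IsBigO.of_bound 1 (Eventually.of_forall fun y => ?_)
      have := pp_bd x y
      rw [Real.norm_eq_abs, Real.norm_eq_abs, one_mul, smul_eq_mul]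
      have e : |‖y - x‖ ^ 2| = (y - x) ^ 2 := by
        rw [Real.norm_eq_abs, sq_abs, abs_of_nonneg (sq_nonneg _)]
      rw [e]
      have e2 : (y - x) * (2 * max 0 x) = 2 * max 0 x * (y - x) := by ring
      rw [e2]
      exact this
    exact h2.trans_isLittleO (Asymptotics.isLittleO_pow_sub_sub x one_lt_two)
  have h3 := h1.const_mul (k / 2)
  refine h3.congr_deriv ?_
  ring

/-! ### total variation approximations -/

section

variable {κ : Type} [Fintype κ]

/-- normalised approximations -/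
theorem lim_of (w : Eu κ → ℝ) (hw0 : ∀ x, 0 ≤ w x) (hwi : Integrable w) (hV : 0 < ∫ x, w x)
    (μ : Measure (Eu κ)) (hμ : ∀ g : Eu κ → ℝ, Continuous g → (∀ x, |g x| ≤ 1) →
      ∫ x, g x ∂μ = (∫ x, g x * w x) / ∫ x, w x)
    (happ : ∀ ε : ℝ, 0 < ε → ∃ U : Eu κ → ℝ, (∀ c : ℝ, ∃ (b : Eu κ → Eu κ) (A : ℝ),
      Pot (fun x => U x + c) b A) ∧ Integrable (fun x => Real.exp (-U x)) ∧
      ∫ x, |Real.exp (-U x) - w x| ≤ ε) : Lim μ := by
  obtain ⟨V, hVd⟩ : ∃ V, V = ∫ x, w x := ⟨_, rfl⟩
  rw [← hVd] at hV hμ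
  intro ε hε
  -- choose `η`
  obtain ⟨η, hη0, hη1, hη2⟩ : ∃ η : ℝ, 0 < η ∧ η ≤ V / 2 ∧ 4 / V * η ≤ ε := by
    refine ⟨min (V / 2) (V * ε / 4), lt_min (by positivity) (by positivity), min_le_left _ _, ?_⟩
    calc 4 / V * min (V / 2) (V * ε / 4) ≤ 4 / V * (V * ε / 4) :=
          mul_le_mul_of_nonneg_left (min_le_right _ _) (by positivity)
      _ = ε := by field_simp
  obtain ⟨U, hU, hUi, hUw⟩ := happ η hη0
  obtain ⟨Z, hZd⟩ : ∃ Z, Z = ∫ x, Real.exp (-U x) := ⟨_, rfl⟩
  have hZV : |Z - V| ≤ η := by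
    rw [hZd, hVd, ← integral_sub hUi hwi]
    exact (abs_integral_le_integral_abs).trans hUw
  have hZ : V / 2 ≤ Z := by
    have := (abs_le.1 hZV).1
    linarith
  have hZ0 : 0 < Z := by linarith
  obtain ⟨b, A, hP⟩ := hU (Real.log Z)
  have hexp : ∀ x, Real.exp (-(U x + Real.log Z)) = Real.exp (-U x) / Z := by
    intro x
    rw [neg_add, Real.exp_add, Real.exp_neg (Real.log Z), Real.exp_log hZ0]
    rfl
  have hEU : ∀ g : Eu κ → ℝ, EU (fun x => U x + Real.log Z) g =
      (∫ x, g x * Real.exp (-U x)) / Z := by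
    intro g
    unfold Pool.Agent.W695.KH.EU
    simp only [hexp]
    rw [← integral_div]
    congr 1
    funext x
    ring
  refine ⟨fun x => U x + Real.log Z, b, A, hP, ?_, ?_⟩
  · rw [hEU]
    simp only [one_mul]
    rw [← hZd]
    exact div_self hZ0.ne'
  · intro g hg hg1
    rw [hEU, hμ g hg hg1]
    have i1 : Integrable fun x => g x * Real.exp (-U x) := by
      refine hUi.bdd_mul hg.aestronglyMeasurable (c := 1) (Eventually.of_forall hg1)
    have i2 : Integrable fun x => g x * w x :=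
      hwi.bdd_mul hg.aestronglyMeasurable (c := 1) (Eventually.of_forall hg1)
    have h1 : |(∫ x, g x * Real.exp (-U x)) - ∫ x, g x * w x| ≤ η := by
      rw [← integral_sub i1 i2]
      refine (abs_integral_le_integral_abs).trans (le_trans ?_ hUw)
      refine integral_mono (i1.sub i2).abs (hUi.sub hwi).abs fun x => ?_
      show |g x * Real.exp (-U x) - g x * w x| ≤ |Real.exp (-U x) - w x|
      rw [← mul_sub, abs_mul]
      exact mul_le_of_le_one_left (abs_nonneg _) (hg1 x)
    have h2 : |∫ x, g x * w x| ≤ V := by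
      rw [hVd]
      refine (abs_integral_le_integral_abs).trans ?_
      refine integral_mono i2.abs hwi fun x => ?_
      show |g x * w x| ≤ w x
      rw [abs_mul, abs_of_nonneg (hw0 x)]
      exact mul_le_of_le_one_left (hw0 x) (hg1 x)
    obtain ⟨a, had⟩ : ∃ a, a = ∫ x, g x * Real.exp (-U x) := ⟨_, rfl⟩
    obtain ⟨a', had'⟩ : ∃ a', a' = ∫ x, g x * w x := ⟨_, rfl⟩
    rw [← had, ← had'] at h1
    rw [← had'] at h2
    rw [← had, ← had']
    have e : a / Z - a' / V = (a - a') / Z + a' / V * ((V - Z) / Z) := by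
      field_simp
      ring
    rw [e]
    have h3 : |(a - a') / Z| ≤ η / (V / 2) := by
      rw [abs_div, abs_of_pos hZ0]
      exact div_le_div₀ hη0.le h1 (by positivity) hZ
    have h4 : |a' / V * ((V - Z) / Z)| ≤ 1 * (η / (V / 2)) := by
      rw [abs_mul]
      refine mul_le_mul ?_ ?_ (abs_nonneg _) zero_le_one
      · rw [abs_div, abs_of_pos hV, div_le_one hV]
        exact h2
      · rw [abs_div, abs_of_pos hZ0, abs_sub_comm]
        exact div_le_div₀ hη0.le hZV (by positivity) hZ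
    calc |(a - a') / Z + a' / V * ((V - Z) / Z)| ≤ |(a - a') / Z| + |a' / V * ((V - Z) / Z)| :=
          abs_add_le _ _
      _ ≤ η / (V / 2) + 1 * (η / (V / 2)) := add_le_add h3 h4
      _ = 4 / V * η := by field_simp; norm_num
      _ ≤ ε := hη2

end

/-! ### densities on order cones -/

section

variable {n : ℕ}

/-- the order cone -/
def coneE (R : Fin n → Fin n → Prop) : Set (Eu (Fin n)) := {x | ∀ i j, R i j → x i ≤ x j}

open Classical in
/-- the density -/
noncomputable def wR (h : ℝ → ℝ) (R : Fin n → Fin n → Prop) (x : Eu (Fin n)) : ℝ :=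
  if x ∈ coneE R then ∏ i, h (x i) else 0

open Classical in
/-- smooth approximations -/
noncomputable def Uk (H : ℝ → ℝ) (k : ℝ) (R : Fin n → Fin n → Prop) (x : Eu (Fin n)) : ℝ :=
  ∑ i, -Real.log (H (x i)) + ∑ p : Fin n × Fin n, if R p.1 p.2 then k / 2 * max 0 (x p.1 - x p.2) ^ 2 else 0

theorem Uk_pot {H : ℝ → ℝ} (hH : GD H) {K r : ℝ} (hK : 0 < K) (hr : 0 < r)
    (hb : ∀ s, H s ≤ K * Real.exp (-(max 0 (|s| - r)) ^ 2 / 2)) {k : ℝ} (hk : 0 ≤ k)
    (R : Fin n → Fin n → Prop) :
    (∀ c : ℝ, ∃ (b : Eu (Fin n) → Eu (Fin n)) (A : ℝ), Pot (fun x => Uk H k R x + c) b A) ∧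
    ∀ x, Real.exp (-Uk H k R x) ≤ (K * Real.exp (r ^ 2 / 2)) ^ n * Real.exp (-(1 / 4 * ‖x‖ ^ 2)) := by
  classical
  have hbound : ∀ x, Real.exp (-Uk H k R x) ≤
      (K * Real.exp (r ^ 2 / 2)) ^ n * Real.exp (-(1 / 4 * ‖x‖ ^ 2)) := by
    intro x
    have h1 : Real.exp (-Uk H k R x) ≤ ∏ i, H (x i) := by
      have e1 : ∏ i, H (x i) = Real.exp (-∑ i, -Real.log (H (x i))) := by
        rw [Finset.sum_neg_distrib, neg_neg, Real.exp_sum]
        exact Finset.prod_congr rfl fun i _ => (Real.exp_log (hH.pos _)).symm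
      rw [e1]
      refine Real.exp_le_exp.2 ?_
      have h2 : 0 ≤ ∑ p : Fin n × Fin n,
          if R p.1 p.2 then k / 2 * max 0 (x p.1 - x p.2) ^ 2 else 0 :=
        Finset.sum_nonneg fun p _ => by
          split_ifs
          · positivity
          · exact le_rfl
      unfold Uk
      linarith
    refine h1.trans ?_
    have h3 : ∀ s : ℝ, H s ≤ K * Real.exp (r ^ 2 / 2) * Real.exp (-(1 / 4 * s ^ 2)) := by
      intro s
      refine (hb s).trans ?_
      rw [mul_assoc, ← Real.exp_add]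
      refine mul_le_mul_of_nonneg_left (Real.exp_le_exp.2 ?_) hK.le
      have h4 : s ^ 2 / 2 - r ^ 2 ≤ (max 0 (|s| - r)) ^ 2 := by
        rcases le_total (|s|) r with h5 | h5
        · have h6 : 0 ≤ (max 0 (|s| - r)) ^ 2 := sq_nonneg _
          have h7 : s ^ 2 ≤ r ^ 2 := by
            rw [← sq_abs]
            exact pow_le_pow_left₀ (abs_nonneg _) h5 2
          nlinarith
        · rw [max_eq_right (by linarith)]
          have h7 := sq_abs s
          nlinarith [sq_nonneg (|s| - 2 * r)]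
      nlinarith
    calc ∏ i, H (x i) ≤ ∏ i : Fin n, K * Real.exp (r ^ 2 / 2) * Real.exp (-(1 / 4 * x i ^ 2)) :=
          Finset.prod_le_prod (fun i _ => (hH.pos _).le) fun i _ => h3 _
      _ = _ := by
          rw [Finset.prod_mul_distrib, Finset.prod_const, Finset.card_univ, Fintype.card_fin,
            ← Real.exp_sum, Finset.sum_neg_distrib, ← Finset.mul_sum, EuclideanSpace.real_norm_sq_eq]
  refine ⟨fun c => ?_, hbound⟩
  obtain ⟨V', A0, hA0, hVd, hVm, hVl⟩ := hH.pot
  -- the family of ridge functions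
  obtain ⟨v, hv⟩ : ∃ v : Fin n ⊕ (Fin n × Fin n) → Eu (Fin n), v = fun m => match m with
      | Sum.inl i => EuclideanSpace.single i 1
      | Sum.inr p => EuclideanSpace.single p.1 1 - EuclideanSpace.single p.2 1 := ⟨_, rfl⟩
  obtain ⟨W, hW⟩ : ∃ W : Fin n ⊕ (Fin n × Fin n) → ℝ → ℝ, W = fun m => match m with
      | Sum.inl _ => fun s => -Real.log (H s)
      | Sum.inr p => fun s => if R p.1 p.2 then k / 2 * max 0 s ^ 2 else 0 := ⟨_, rfl⟩
  obtain ⟨W', hW'⟩ : ∃ W' : Fin n ⊕ (Fin n × Fin n) → ℝ → ℝ, W' = fun m => match m with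
      | Sum.inl _ => V'
      | Sum.inr p => fun s => if R p.1 p.2 then k * max 0 s else 0 := ⟨_, rfl⟩
  have hUeq : (fun x => Uk H k R x + c) = fun x => ∑ m, W m ⟪v m, x⟫_ℝ + c := by
    funext x
    rw [Fintype.sum_sum_type, hv, hW]
    simp only [Uk, inner_sub_left, EuclideanSpace.inner_single_left, map_one, one_mul]
  rw [hUeq]
  refine ridge_pot v W W' (max A0 k) c (lt_of_lt_of_le hA0 (le_max_left _ _)) ?_ ?_ ?_ ?_
  · rintro (i | p) s
    · rw [hW, hW']
      exact hVd s
    · rw [hW, hW']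
      dsimp only
      split_ifs
      · exact pp_der k s
      · exact hasDerivAt_const s 0
  · rintro (i | p)
    · rw [hW']
      exact hVm
    · rw [hW']
      dsimp only
      split_ifs
      · intro s t hst
        exact mul_le_mul_of_nonneg_left (max_le_max le_rfl hst) hk
      · exact monotone_const
  · rintro (i | p) s t
    · rw [hW']
      exact (hVl s t).trans (mul_le_mul_of_nonneg_right (le_max_left _ _) (abs_nonneg _))
    · rw [hW']
      dsimp only
      split_ifs
      · rw [← mul_sub, abs_mul, abs_of_nonneg hk]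
        refine mul_le_mul (le_max_right _ _) ?_ (abs_nonneg _) (hA0.le.trans (le_max_left _ _))
        rw [max_comm 0 s, max_comm 0 t]
        exact abs_max_sub_max_le_abs s t 0
      · rw [sub_zero, abs_zero]
        exact mul_nonneg (hA0.le.trans (le_max_left _ _)) (abs_nonneg _)
  · -- integrability
    have e0 : (fun x : Eu (Fin n) => (1 + ‖x‖ ^ 2) * Real.exp (-(∑ m, W m ⟪v m, x⟫_ℝ + c))) =
        fun x => (1 + ‖x‖ ^ 2) * Real.exp (-(Uk H k R x + c)) := by
      funext x
      rw [← congrFun hUeq x]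
    rw [e0]
    have hg := (Pool.Agent.W762.KH.gauss_int (κ := Fin n) (1 / 8) (by norm_num)).const_mul
      (9 * (K * Real.exp (r ^ 2 / 2)) ^ n * Real.exp (-c))
    have hUc : Continuous fun x : Eu (Fin n) => Uk H k R x := by
      unfold Uk
      refine (continuous_finsetSum _ fun i _ => ?_).add (continuous_finsetSum _ fun p _ => ?_)
      · have h1 : Continuous fun s => -Real.log (H s) :=
          continuous_iff_continuousAt.2 fun s => (hVd s).continuousAt
        exact h1.comp (by fun_prop)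
      · split_ifs
        · fun_prop
        · exact continuous_const
    refine hg.mono' ?_ (Eventually.of_forall fun x => ?_)
    · exact ((continuous_const.add (continuous_norm.pow 2)).mul
        (Real.continuous_exp.comp (hUc.add continuous_const).neg)).aestronglyMeasurable
    · rw [Real.norm_eq_abs, abs_of_nonneg (mul_nonneg (by positivity) (Real.exp_pos _).le),
        neg_add, Real.exp_add]
      have h5 : (1 + ‖x‖ ^ 2) * Real.exp (-(1 / 4 * ‖x‖ ^ 2)) ≤ 9 * Real.exp (-(1 / 8 * ‖x‖ ^ 2)) := by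
        have h6 : Real.exp (-(1 / 4 * ‖x‖ ^ 2)) = Real.exp (-(1 / 8 * ‖x‖ ^ 2)) *
            Real.exp (-(1 / 8 * ‖x‖ ^ 2)) := by
          rw [← Real.exp_add]
          congr 1
          ring
        have h7 : (1 + ‖x‖ ^ 2) * Real.exp (-(1 / 8 * ‖x‖ ^ 2)) ≤ 9 := by
          rw [Real.exp_neg, ← div_eq_mul_inv, div_le_iff₀ (Real.exp_pos _)]
          have h8 := Real.add_one_le_exp (1 / 8 * ‖x‖ ^ 2)
          nlinarith [sq_nonneg ‖x‖]
        rw [h6, ← mul_assoc]
        exact mul_le_mul_of_nonneg_right h7 (Real.exp_pos _).le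
      have h9 := hbound x
      have h10 : 0 ≤ (K * Real.exp (r ^ 2 / 2)) ^ n := by positivity
      calc (1 + ‖x‖ ^ 2) * (Real.exp (-Uk H k R x) * Real.exp (-c))
          ≤ (1 + ‖x‖ ^ 2) * (((K * Real.exp (r ^ 2 / 2)) ^ n * Real.exp (-(1 / 4 * ‖x‖ ^ 2))) *
            Real.exp (-c)) := by
            refine mul_le_mul_of_nonneg_left ?_ (by positivity)
            exact mul_le_mul_of_nonneg_right h9 (Real.exp_pos _).le
        _ = (K * Real.exp (r ^ 2 / 2)) ^ n * Real.exp (-c) *
            ((1 + ‖x‖ ^ 2) * Real.exp (-(1 / 4 * ‖x‖ ^ 2))) := by ring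
        _ ≤ (K * Real.exp (r ^ 2 / 2)) ^ n * Real.exp (-c) * (9 * Real.exp (-(1 / 8 * ‖x‖ ^ 2))) :=
            mul_le_mul_of_nonneg_left h5 (mul_nonneg h10 (Real.exp_pos _).le)
        _ = _ := by ring

end

end Pool.Agent.U959.OC
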