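import Pool.Agent.U959.OC.Trans

/-!
# Poincare inequality for independent log-concave variables conditioned on an order
-/

set_option autoImplicit false

namespace Pool.Agent.U959.OC

open MeasureTheory Set Filter Topology
open scoped ENNReal
open Pool.Agent.R972.OP

variable {n : ℕ} {ρ : ℝ → ℝ}

theorem opp_sub (R : Fin n → Fin n → Prop) : OPp R ⊆ OPp (fun _ _ : Fin n => False) :=
  fun _ hx => ⟨hx.1, fun _ _ h => h.elim⟩

/-- limits of bounded continuous functions -/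
theorem lim_int {θ : ℕ → ℝ → ℝ} {q : ℝ → ℝ}
    (hθ : ∀ k, Continuous (θ k)) (hlim : ∀ x, 0 < x → x < 1 → Tendsto (fun k => θ k x) atTop (𝓝 (q x)))
    (R : Fin n → Fin n → Prop) {φ : (Fin n → ℝ) → ℝ} (hφ : Continuous φ) {B : ℝ}
    (hB : ∀ x, |φ x| ≤ B) :
    Tendsto (fun k => ∫ x in OPp R, φ (cw (θ k) x)) atTop (𝓝 (∫ x in OPp R, φ (cw q x))) := by
  have hcp : IsCompact (OPp R) := Pool.Agent.R372.OP.SYM.cpK R
  have hfin : IsFiniteMeasure ((volume : Measure (Fin n → ℝ)).restrict (OPp R)) :=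
    ⟨by rw [Measure.restrict_apply_univ]; exact hcp.measure_lt_top⟩
  refine tendsto_integral_of_dominated_convergence (fun _ => B) (fun k => ?_)
    (integrable_const _) (fun k => ?_) ?_
  · have : Continuous (cw (n := n) (θ k)) := continuous_pi fun i => (hθ k).comp (continuous_apply i)
    exact (hφ.comp this).aestronglyMeasurable
  · exact Eventually.of_forall fun x => hB _
  · rw [ae_restrict_iff' hcp.isClosed.measurableSet]
    filter_upwards [ae_open (n := n)] with x hx hxo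
    have h1 := hx (opp_sub R hxo)
    have h2 : Tendsto (fun k => cw (θ k) x) atTop (𝓝 (cw q x)) := by
      rw [tendsto_pi_nhds]
      intro i
      exact hlim (x i) (h1 i).1 (h1 i).2
    exact (hφ.tendsto _).comp h2

/-- Poincare inequality, bounded functions -/
theorem poin (h : LCD ρ) : ∃ m, 0 < ρ m ∧ F ρ m = 1 / 2 ∧ (∀ t, ρ t ≤ 2 * ρ m) ∧
    ∀ (n : ℕ) (R : Fin n → Fin n → Prop), (∀ a, ¬ R a a) →
    volume (OPp R) = Pn n ρ (cone R) ∧
    ∀ (f : (Fin n → ℝ) → ℝ) (B B' : ℝ), ContDiff ℝ 1 f → (∀ x, |f x| ≤ B) → (∀ x, en f x ≤ B') →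
    (Pn n ρ (cone R)).toReal * (∫ x in cone R, f x ^ 2 ∂(Pn n ρ)) -
      (∫ x in cone R, f x ∂(Pn n ρ)) ^ 2 ≤
    (Pn n ρ (cone R)).toReal * (1 / ρ m ^ 2 * ∫ x in cone R, en f x ∂(Pn n ρ)) := by
  obtain ⟨m, T, hp, hF, hs, hT, hTm, hder⟩ := h.exists_T
  refine ⟨m, hp, hF, hs, fun n R hR => ?_⟩
  have htr := fun φ hφ => transport (n := n) h hT hTm R φ hφ
  refine ⟨(htr (fun _ => 0) continuous_const).2, fun f B B' hf hfB hfB' => ?_⟩
  rw [← (htr (fun _ => 0) continuous_const).2]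
  -- the derivative of `T`
  obtain ⟨d, hd⟩ : ∃ d : ℝ → ℝ, d = fun y => F ρ (T y) * G ρ (T y) / ρ (T y) := ⟨_, rfl⟩
  have hTd : ∀ y, HasDerivAt T (d y) y ∧ 0 ≤ d y ∧ d y ≤ 1 / (2 * ρ m) := by
    intro y
    obtain ⟨e, h1, h2, h3, h4⟩ := hder y
    have : d y = e := by rw [hd, h4]
    rw [this]
    exact ⟨h1, h2, h3⟩
  have hTc : Continuous T := continuous_iff_continuousAt.2 fun y => (hTd y).1.continuousAt
  have hGc : Continuous (G ρ) := by
    have e : G ρ = fun t => 1 - F ρ t := by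
      funext t
      have := h.F_add_G t
      linarith
    rw [e]
    exact continuous_const.sub h.F_cont
  have hdc : Continuous d := by
    rw [hd]
    refine ((h.F_cont.comp hTc).mul (hGc.comp hTc)).div ?_ fun y => (J_pos (hT y).1).ne'
    exact h.cont.comp_continuous hTc fun y => (hT y).1
  have hep : ∀ k : ℕ, (0 : ℝ) < 1 / ((k : ℝ) + 1) := fun k => by positivity
  obtain ⟨θ, hθ⟩ : ∃ θ : ℕ → ℝ → ℝ, θ = fun (k : ℕ) x => T (le (1 / ((k : ℝ) + 1)) x) := ⟨_, rfl⟩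
  obtain ⟨θ', hθ'⟩ : ∃ θ' : ℕ → ℝ → ℝ, θ' = fun (k : ℕ) x =>
      d (le (1 / ((k : ℝ) + 1)) x) * le' (1 / ((k : ℝ) + 1)) x := ⟨_, rfl⟩
  have hθd : ∀ k y, HasDerivAt (θ k) (θ' k y) y := by
    intro k y
    rw [hθ, hθ']
    exact (hTd _).1.comp y (le_der (hep k) y)
  have hlec : ∀ k : ℕ, Continuous (le (1 / ((k : ℝ) + 1))) := fun k =>
    continuous_iff_continuousAt.2 fun y => (le_der (hep k) y).continuousAt
  have hθc : ∀ k, Continuous (θ' k) := by
    intro k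
    rw [hθ']
    exact (hdc.comp (hlec k)).mul (le'_cont (hep k))
  have hθ0 : ∀ k, Continuous (θ k) := fun k =>
    continuous_iff_continuousAt.2 fun y => (hθd k y).continuousAt
  have hK : ∀ k x, 0 ≤ x → x ≤ 1 → (x * (1 - x) * θ' k x) ^ 2 ≤ (1 / (2 * ρ m)) ^ 2 := by
    intro k x h0 h1
    obtain ⟨b1, b2⟩ := le'_bd (hep k) h0 h1
    obtain ⟨-, d1, d2⟩ := hTd (le (1 / ((k : ℝ) + 1)) x)
    have e : x * (1 - x) * θ' k x =
        d (le (1 / ((k : ℝ) + 1)) x) * (x * (1 - x) * le' (1 / ((k : ℝ) + 1)) x) := by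
      rw [hθ']
      ring
    rw [e]
    refine pow_le_pow_left₀ (mul_nonneg d1 b1) ?_ 2
    calc d (le (1 / ((k : ℝ) + 1)) x) * (x * (1 - x) * le' (1 / ((k : ℝ) + 1)) x)
        ≤ d (le (1 / ((k : ℝ) + 1)) x) * 1 := mul_le_mul_of_nonneg_left b2 d1
      _ ≤ _ := by rw [mul_one]; exact d2
  have hlim : ∀ x, 0 < x → x < 1 → Tendsto (fun k => θ k x) atTop (𝓝 (T (lg x))) := by
    intro x h0 h1
    rw [hθ]
    exact (hTc.tendsto _).comp (le_lim h0 h1)
  have hB0 : 0 ≤ B := (abs_nonneg _).trans (hfB 0)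
  have hen0 : ∀ x, 0 ≤ en f x := fun x => Finset.sum_nonneg fun a _ => sq_nonneg _
  have t1 := lim_int (q := fun x => T (lg x)) hθ0 hlim R hf.continuous hfB
  have hf2 : Continuous fun x => f x ^ 2 := hf.continuous.pow 2
  have t2 := lim_int (q := fun x => T (lg x)) hθ0 hlim R hf2 (B := B ^ 2)
    (fun x => by rw [abs_pow]; exact pow_le_pow_left₀ (abs_nonneg _) (hfB x) 2)
  have t3 := lim_int (q := fun x => T (lg x)) hθ0 hlim R (en_cont hf) (B := B')
    (fun x => by rw [abs_of_nonneg (hen0 x)]; exact hfB' x)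
  have tL := (t2.const_mul (volume (OPp R)).toReal).sub (t1.pow 2)
  have tR := (t3.const_mul (4 * (1 / (2 * ρ m)) ^ 2)).const_mul (volume (OPp R)).toReal
  have hfin := le_of_tendsto_of_tendsto' tL tR fun k => approx (hθd k) (hθc k) (hK k) R hR hf
  rw [(htr _ hf.continuous).1] at hfin
  have e2 := (htr (fun x => f x ^ 2) hf2).1
  have e3 := (htr (en f) (en_cont hf)).1
  rw [e3] at hfin
  have e5 : 4 * (1 / (2 * ρ m)) ^ 2 = 1 / ρ m ^ 2 := by
    field_simp
    norm_num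
  rw [e5] at hfin
  rw [← e2]
  exact hfin

end Pool.Agent.U959.OC
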