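import Mathlib

/-!
# Poincare inequalities: from bounded functions with bounded gradients to all `C¹` functions in `L²`
-/

set_option autoImplicit false

namespace Pool.Agent.U959.OC

open MeasureTheory Set Filter Topology
open scoped ENNReal InnerProductSpace

section

variable {E : Type*} [NormedAddCommGroup E] [InnerProductSpace ℝ E] [FiniteDimensional ℝ E]
  [MeasurableSpace E] [BorelSpace E]

/-- cut-off -/
noncomputable def et (t : ℝ) : ℝ := Real.smoothTransition (2 - t)

theorem et_contDiff : ContDiff ℝ 1 et := by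
  unfold et
  exact Real.smoothTransition.contDiff.comp (contDiff_const.sub contDiff_id)

theorem et_one {t : ℝ} (ht : t ≤ 1) : et t = 1 := Real.smoothTransition.one_of_one_le (by linarith)

theorem et_zero {t : ℝ} (ht : 2 ≤ t) : et t = 0 := Real.smoothTransition.zero_of_nonpos (by linarith)

theorem et_bd (t : ℝ) : |et t| ≤ 1 := by
  unfold et
  rw [abs_of_nonneg (Real.smoothTransition.nonneg _)]
  exact Real.smoothTransition.le_one _

theorem et_der : ∃ D : ℝ, 0 ≤ D ∧ ∀ t, |deriv et t| ≤ D := by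
  have hc : Continuous (deriv et) := et_contDiff.continuous_deriv le_rfl
  obtain ⟨D, hD⟩ := (isCompact_Icc (a := (1 : ℝ)) (b := 2)).exists_bound_of_continuousOn
    hc.continuousOn
  refine ⟨D, (norm_nonneg _).trans (hD 1 ⟨le_rfl, by norm_num⟩), fun t => ?_⟩
  have hD0 : 0 ≤ D := (norm_nonneg _).trans (hD 1 ⟨le_rfl, by norm_num⟩)
  rcases lt_or_ge t 1 with h1 | h1
  · have : et =ᶠ[𝓝 t] fun _ => 1 := by
      filter_upwards [Iio_mem_nhds h1] with s hs
      exact et_one (le_of_lt hs)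
    rw [this.deriv_eq]
    simpa using hD0
  rcases lt_or_ge 2 t with h2 | h2
  · have : et =ᶠ[𝓝 t] fun _ => 0 := by
      filter_upwards [Ioi_mem_nhds h2] with s hs
      exact et_zero (le_of_lt hs)
    rw [this.deriv_eq]
    simpa using hD0
  · exact hD t ⟨h1, h2⟩

/-- cut-off at radius `r` -/
noncomputable def chi (r : ℝ) (x : E) : ℝ := et (‖x‖ ^ 2 / r ^ 2)

theorem chi_contDiff (r : ℝ) : ContDiff ℝ 1 (chi (E := E) r) := by
  unfold chi
  exact et_contDiff.comp ((contDiff_norm_sq ℝ).div_const _)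

theorem chi_der {D : ℝ} (hD : ∀ t, |deriv et t| ≤ D) {r : ℝ} (hr : 0 < r) (x : E) :
    ‖fderiv ℝ (chi r) x‖ ≤ 4 * D / r := by
  have hD0 : 0 ≤ D := (abs_nonneg _).trans (hD 0)
  rcases le_or_gt (‖x‖) (2 * r) with hx | hx
  · have h1 : HasFDerivAt (fun y : E => ‖y‖ ^ 2 / r ^ 2) ((r ^ 2)⁻¹ • (2 • innerSL ℝ x)) x := by
      have h2 := (hasStrictFDerivAt_norm_sq (F := E) x).hasFDerivAt.const_mul ((r ^ 2)⁻¹)
      refine h2.congr_of_eventuallyEq (Eventually.of_forall fun y => ?_)
      show ‖y‖ ^ 2 / r ^ 2 = (r ^ 2)⁻¹ * ‖y‖ ^ 2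
      rw [div_eq_inv_mul]
    have h3 : HasFDerivAt (chi (E := E) r) (deriv et (‖x‖ ^ 2 / r ^ 2) • ((r ^ 2)⁻¹ • (2 • innerSL ℝ x))) x :=
      ((et_contDiff.differentiable one_ne_zero) _).hasDerivAt.comp_hasFDerivAt x h1
    rw [h3.fderiv, norm_smul, norm_smul, Real.norm_eq_abs, Real.norm_eq_abs]
    have h4 : ‖(2 : ℕ) • innerSL ℝ x‖ ≤ 2 * ‖x‖ := by
      refine (norm_nsmul_le).trans ?_
      rw [innerSL_apply_norm]
      norm_num
    have h5 : |(r ^ 2)⁻¹| = (r ^ 2)⁻¹ := abs_of_pos (by positivity)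
    rw [h5]
    calc |deriv et (‖x‖ ^ 2 / r ^ 2)| * ((r ^ 2)⁻¹ * ‖(2 : ℕ) • innerSL ℝ x‖)
        ≤ D * ((r ^ 2)⁻¹ * (2 * (2 * r))) := by
          refine mul_le_mul (hD _) ?_ (by positivity) hD0
          refine mul_le_mul_of_nonneg_left (h4.trans ?_) (by positivity)
          linarith
      _ = 4 * D / r := by
          field_simp
          norm_num
  · have : chi (E := E) r =ᶠ[𝓝 x] fun _ => 0 := by
      have ho : {y : E | 2 * r < ‖y‖} ∈ 𝓝 x := (isOpen_lt continuous_const continuous_norm).mem_nhds hx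
      filter_upwards [ho] with y hy
      refine et_zero ?_
      rw [le_div_iff₀ (by positivity)]
      have hy' : 2 * r < ‖y‖ := hy
      nlinarith
    rw [this.fderiv_eq]
    simp only [fderiv_const_apply, norm_zero]
    positivity

theorem chi_supp {r : ℝ} (hr : 0 < r) {x : E} (hx : 2 * r < ‖x‖) : chi r x = 0 := by
  refine et_zero ?_
  rw [le_div_iff₀ (by positivity)]
  nlinarith

/-- bounded increasing function with derivative at most one -/
noncomputable def ps (k t : ℝ) : ℝ := k * Real.arctan (t / k)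

theorem ps_der {k : ℝ} (hk : 0 < k) (t : ℝ) : HasDerivAt (ps k) (1 / (1 + (t / k) ^ 2)) t := by
  have h1 : HasDerivAt (fun t : ℝ => t / k) (1 / k) t := (hasDerivAt_id t).div_const k
  have h2 := (h1.arctan).const_mul k
  refine h2.congr_deriv ?_
  field_simp

theorem ps_contDiff (k : ℝ) : ContDiff ℝ 1 (ps k) := by
  unfold ps
  exact contDiff_const.mul (Real.contDiff_arctan.comp (contDiff_id.div_const k))

theorem ps_bd {k : ℝ} (hk : 0 < k) (t : ℝ) : |ps k t| ≤ 2 * k := by
  unfold ps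
  rw [abs_mul, abs_of_pos hk, mul_comm 2 k]
  refine mul_le_mul_of_nonneg_left ?_ hk.le
  have h1 := Real.arctan_lt_pi_div_two (t / k)
  have h2 := Real.neg_pi_div_two_lt_arctan (t / k)
  have h3 := Real.pi_lt_four
  rw [abs_le]
  constructor <;> linarith

theorem ps_le {k : ℝ} (hk : 0 < k) (t : ℝ) : |ps k t| ≤ |t| := by
  have h1 : LipschitzWith 1 (ps k) := by
    refine lipschitzWith_of_nnnorm_deriv_le (fun t => (ps_der hk t).differentiableAt) fun t => ?_
    rw [← NNReal.coe_le_coe, coe_nnnorm, (ps_der hk t).deriv, Real.norm_eq_abs, NNReal.coe_one,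
      abs_of_pos (by positivity), div_le_one (by positivity)]
    have := sq_nonneg (t / k)
    linarith
  have h2 := h1.dist_le_mul t 0
  have h3 : ps k 0 = 0 := by unfold ps; simp
  rw [h3, NNReal.coe_one, one_mul, Real.dist_eq, Real.dist_eq, sub_zero, sub_zero] at h2
  exact h2

theorem ps_lim (t : ℝ) : Tendsto (fun k : ℕ => ps ((k : ℝ) + 1) t) atTop (𝓝 t) := by
  have h1 : HasDerivAt Real.arctan 1 0 := by
    simpa using Real.hasDerivAt_arctan 0
  by_cases ht : t = 0
  · subst ht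
    unfold ps
    simp
  · have h2 := h1.tendsto_slope
    have h3 : Tendsto (fun k : ℕ => t / ((k : ℝ) + 1)) atTop (𝓝[≠] 0) := by
      rw [tendsto_nhdsWithin_iff]
      constructor
      · have := (tendsto_one_div_add_atTop_nhds_zero_nat (𝕜 := ℝ)).const_mul t
        simpa [div_eq_mul_inv] using this
      · exact Eventually.of_forall fun k => by
          simp only [mem_compl_iff, mem_singleton_iff, div_eq_zero_iff, not_or]
          exact ⟨ht, by positivity⟩
    have h4 := (h2.comp h3).const_mul t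
    rw [mul_one] at h4
    refine h4.congr fun k => ?_
    have hk : (0 : ℝ) < (k : ℝ) + 1 := by positivity
    show t * slope Real.arctan 0 (t / ((k : ℝ) + 1)) = ps ((k : ℝ) + 1) t
    unfold ps
    rw [slope_def_field, Real.arctan_zero, sub_zero, sub_zero]
    field_simp

/-- the extension -/
theorem gen (μ : Measure E) [IsProbabilityMeasure μ] {C : ℝ} (hC : 0 < C)
    (H : ∀ (v : E → ℝ) (B L : ℝ), ContDiff ℝ 1 v → (∀ x, |v x| ≤ B) → (∀ x, ‖fderiv ℝ v x‖ ≤ L) →
      (∫ x, v x ^ 2 ∂μ) - (∫ x, v x ∂μ) ^ 2 ≤ C * ∫ x, ‖fderiv ℝ v x‖ ^ 2 ∂μ)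
    (f : E → ℝ) (hf : ContDiff ℝ 1 f) (hf2 : MemLp f 2 μ) :
    ENNReal.ofReal (ProbabilityTheory.variance f μ) ≤
      ENNReal.ofReal C * ∫⁻ x, ENNReal.ofReal (‖fderiv ℝ f x‖ ^ 2) ∂μ := by
  have hgc : Continuous fun x => ‖fderiv ℝ f x‖ := (hf.continuous_fderiv one_ne_zero).norm
  by_cases hfin : ∫⁻ x, ENNReal.ofReal (‖fderiv ℝ f x‖ ^ 2) ∂μ = ⊤
  · rw [hfin, ENNReal.mul_top (by simpa using hC)]
    exact le_top
  have hint : Integrable (fun x => ‖fderiv ℝ f x‖ ^ 2) μ := by
    refine ⟨(hgc.pow 2).aestronglyMeasurable, ?_⟩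
    rw [hasFiniteIntegral_iff_ofReal (Eventually.of_forall fun x => sq_nonneg _)]
    exact lt_top_iff_ne_top.2 hfin
  have hint1 : Integrable (fun x => ‖fderiv ℝ f x‖) μ := by
    have h1 : MemLp (fun x => ‖fderiv ℝ f x‖) 2 μ := by
      rw [memLp_two_iff_integrable_sq hgc.aestronglyMeasurable]
      exact hint
    exact h1.integrable one_le_two
  rw [← ofReal_integral_eq_lintegral_ofReal hint (Eventually.of_forall fun x => sq_nonneg _),
    ← ENNReal.ofReal_mul hC.le]
  refine ENNReal.ofReal_le_ofReal ?_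
  have hfi : Integrable f μ := hf2.integrable one_le_two
  have hf2i : Integrable (fun x => f x ^ 2) μ := hf2.integrable_sq
  rw [ProbabilityTheory.variance_eq_sub hf2]
  obtain ⟨I, hI⟩ : ∃ I, I = ∫ x, ‖fderiv ℝ f x‖ ^ 2 ∂μ := ⟨_, rfl⟩
  rw [← hI]
  obtain ⟨D, hD0, hD⟩ := et_der
  -- bounded functions
  have hk : ∀ k : ℝ, 0 < k → (∫ x, ps k (f x) ^ 2 ∂μ) - (∫ x, ps k (f x) ∂μ) ^ 2 ≤ C * I := by
    intro k hk
    have huc : ContDiff ℝ 1 fun x => ps k (f x) := (ps_contDiff k).comp hf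
    have hub : ∀ x, |ps k (f x)| ≤ 2 * k := fun x => ps_bd hk _
    have hud : ∀ x, ‖fderiv ℝ (fun x => ps k (f x)) x‖ ≤ ‖fderiv ℝ f x‖ := by
      intro x
      have h1 := (ps_der hk (f x)).comp_hasFDerivAt x
        ((hf.differentiable one_ne_zero) x).hasFDerivAt
      have h2 : fderiv ℝ (fun x => ps k (f x)) x = (1 / (1 + (f x / k) ^ 2)) • fderiv ℝ f x :=
        h1.fderiv
      rw [h2, norm_smul, Real.norm_eq_abs, abs_of_pos (by positivity)]
      refine mul_le_of_le_one_left (norm_nonneg _) ?_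
      rw [div_le_one (by positivity)]
      have := sq_nonneg (f x / k)
      linarith
    have hr : ∀ r : ℕ, (∫ x, (chi ((r : ℝ) + 1) x * ps k (f x)) ^ 2 ∂μ) -
        (∫ x, chi ((r : ℝ) + 1) x * ps k (f x) ∂μ) ^ 2 ≤
        C * (I + 2 * (8 * k * D / ((r : ℝ) + 1)) * (∫ x, ‖fderiv ℝ f x‖ ∂μ) +
          (8 * k * D / ((r : ℝ) + 1)) ^ 2) := by
      intro r
      have hr0 : (0 : ℝ) < (r : ℝ) + 1 := by positivity
      obtain ⟨e, he⟩ : ∃ e : ℝ, e = 8 * k * D / ((r : ℝ) + 1) := ⟨_, rfl⟩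
      have he0 : 0 ≤ e := by rw [he]; positivity
      rw [← he]
      have hvc : ContDiff ℝ 1 fun x => chi ((r : ℝ) + 1) x * ps k (f x) :=
        (chi_contDiff _).mul huc
      have hvb : ∀ x : E, |chi ((r : ℝ) + 1) x * ps k (f x)| ≤ 2 * k := by
        intro x
        rw [abs_mul]
        have h1 : |chi ((r : ℝ) + 1) x| ≤ 1 := et_bd _
        exact (mul_le_of_le_one_left (abs_nonneg _) h1).trans (hub x)
      have hvd : ∀ x, ‖fderiv ℝ (fun x => chi ((r : ℝ) + 1) x * ps k (f x)) x‖ ≤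
          ‖fderiv ℝ f x‖ + e := by
        intro x
        have h1 : fderiv ℝ (fun x => chi ((r : ℝ) + 1) x * ps k (f x)) x =
            chi ((r : ℝ) + 1) x • fderiv ℝ (fun x => ps k (f x)) x +
              ps k (f x) • fderiv ℝ (chi ((r : ℝ) + 1)) x :=
          fderiv_fun_mul ((chi_contDiff _).differentiable one_ne_zero x)
            (huc.differentiable one_ne_zero x)
        rw [h1]
        refine (norm_add_le _ _).trans (add_le_add ?_ ?_)
        · rw [norm_smul]
          exact (mul_le_of_le_one_left (norm_nonneg _) (et_bd _)).trans (hud x)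
        · rw [norm_smul, Real.norm_eq_abs]
          calc |ps k (f x)| * ‖fderiv ℝ (chi ((r : ℝ) + 1)) x‖ ≤ (2 * k) * (4 * D / ((r : ℝ) + 1)) :=
                mul_le_mul (hub x) (chi_der hD hr0 x) (norm_nonneg _) (by positivity)
            _ = e := by rw [he]; ring
      obtain ⟨L, hL⟩ : ∃ L, ∀ x, ‖fderiv ℝ (fun x => chi ((r : ℝ) + 1) x * ps k (f x)) x‖ ≤ L := by
        obtain ⟨L, hL⟩ := (isCompact_closedBall (0 : E) (2 * ((r : ℝ) + 1) + 1)).exists_bound_of_continuousOn
          (hvc.continuous_fderiv one_ne_zero).continuousOn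
        refine ⟨L, fun x => ?_⟩
        by_cases hx : x ∈ Metric.closedBall (0 : E) (2 * ((r : ℝ) + 1) + 1)
        · exact hL x hx
        · rw [Metric.mem_closedBall, dist_zero_right, not_le] at hx
          have hz : (fun x => chi ((r : ℝ) + 1) x * ps k (f x)) =ᶠ[𝓝 x] fun _ => 0 := by
            have ho : {y : E | 2 * ((r : ℝ) + 1) < ‖y‖} ∈ 𝓝 x :=
              (isOpen_lt continuous_const continuous_norm).mem_nhds
                (show 2 * ((r : ℝ) + 1) < ‖x‖ by linarith)
            filter_upwards [ho] with y hy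
            rw [chi_supp hr0 hy, zero_mul]
          rw [hz.fderiv_eq]
          simp only [fderiv_const_apply, norm_zero]
          exact (norm_nonneg _).trans (hL 0 (Metric.mem_closedBall_self (by positivity)))
      refine (H _ _ L hvc hvb hL).trans (mul_le_mul_of_nonneg_left ?_ hC.le)
      have h2 : ∫ x, (‖fderiv ℝ f x‖ + e) ^ 2 ∂μ = I + 2 * e * (∫ x, ‖fderiv ℝ f x‖ ∂μ) + e ^ 2 := by
        have e1 : (fun x => (‖fderiv ℝ f x‖ + e) ^ 2) = fun x =>
            (‖fderiv ℝ f x‖ ^ 2 + 2 * e * ‖fderiv ℝ f x‖) + e ^ 2 := by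
          funext x
          ring
        have e2 : Integrable (fun x => 2 * e * ‖fderiv ℝ f x‖) μ := hint1.const_mul _
        have e3 : Integrable (fun x => ‖fderiv ℝ f x‖ ^ 2 + 2 * e * ‖fderiv ℝ f x‖) μ := hint.add e2
        rw [e1, integral_add e3 (integrable_const _), integral_add hint e2, integral_const_mul, ← hI]
        simp
      rw [← h2]
      refine integral_mono_of_nonneg (Eventually.of_forall fun x => sq_nonneg _) ?_
        (Eventually.of_forall fun x => pow_le_pow_left₀ (norm_nonneg _) (hvd x) 2)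
      have e1 : (fun x => (‖fderiv ℝ f x‖ + e) ^ 2) = fun x =>
          (‖fderiv ℝ f x‖ ^ 2 + 2 * e * ‖fderiv ℝ f x‖) + e ^ 2 := by
        funext x
        ring
      rw [e1]
      exact (hint.add (hint1.const_mul _)).add (integrable_const _)
    have hchi : ∀ x : E, ∀ᶠ r : ℕ in atTop, chi ((r : ℝ) + 1) x = 1 := by
      intro x
      filter_upwards [eventually_ge_atTop ⌈‖x‖⌉₊] with r hr
      refine et_one ?_
      have h1 : ‖x‖ ≤ (r : ℝ) + 1 := by
        have := Nat.le_ceil ‖x‖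
        have h2 : ((⌈‖x‖⌉₊ : ℕ) : ℝ) ≤ r := by exact_mod_cast hr
        linarith
      rw [div_le_one (by positivity)]
      exact pow_le_pow_left₀ (norm_nonneg _) h1 2
    have hm : ∀ r : ℕ, AEStronglyMeasurable (fun x => chi ((r : ℝ) + 1) x * ps k (f x)) μ :=
      fun r => ((chi_contDiff _).continuous.mul huc.continuous).aestronglyMeasurable
    have t1 : Tendsto (fun r : ℕ => ∫ x, chi ((r : ℝ) + 1) x * ps k (f x) ∂μ) atTop
        (𝓝 (∫ x, ps k (f x) ∂μ)) := by
      refine tendsto_integral_of_dominated_convergence (fun _ => 2 * k) hm (integrable_const _)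
        (fun r => Eventually.of_forall fun x => ?_) (Eventually.of_forall fun x => ?_)
      · rw [Real.norm_eq_abs, abs_mul]
        exact (mul_le_of_le_one_left (abs_nonneg _) (et_bd _)).trans (hub x)
      · refine tendsto_nhds_of_eventually_eq ?_
        filter_upwards [hchi x] with r hr
        rw [hr, one_mul]
    have t2 : Tendsto (fun r : ℕ => ∫ x, (chi ((r : ℝ) + 1) x * ps k (f x)) ^ 2 ∂μ) atTop
        (𝓝 (∫ x, ps k (f x) ^ 2 ∂μ)) := by
      refine tendsto_integral_of_dominated_convergence (fun _ => (2 * k) ^ 2)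
        (fun r => (hm r).pow 2) (integrable_const _)
        (fun r => Eventually.of_forall fun x => ?_) (Eventually.of_forall fun x => ?_)
      · rw [Real.norm_eq_abs, abs_pow, abs_mul]
        exact pow_le_pow_left₀ (by positivity)
          ((mul_le_of_le_one_left (abs_nonneg _) (et_bd _)).trans (hub x)) 2
      · refine tendsto_nhds_of_eventually_eq ?_
        filter_upwards [hchi x] with r hr
        rw [hr, one_mul]
    have t3 : Tendsto (fun r : ℕ => 8 * k * D / ((r : ℝ) + 1)) atTop (𝓝 0) := by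
      have := (tendsto_one_div_add_atTop_nhds_zero_nat (𝕜 := ℝ)).const_mul (8 * k * D)
      simpa [div_eq_mul_inv] using this
    have t4 : Tendsto (fun r : ℕ => C * (I + 2 * (8 * k * D / ((r : ℝ) + 1)) *
        (∫ x, ‖fderiv ℝ f x‖ ∂μ) + (8 * k * D / ((r : ℝ) + 1)) ^ 2)) atTop (𝓝 (C * I)) := by
      have h1 := ((((t3.const_mul 2).mul_const (∫ x, ‖fderiv ℝ f x‖ ∂μ)).const_add I).add
        (t3.pow 2)).const_mul C
      simpa using h1
    exact le_of_tendsto_of_tendsto' (t2.sub (t1.pow 2)) t4 hr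
  -- the limit `k → ∞`
  have hm : ∀ k : ℕ, AEStronglyMeasurable (fun x => ps ((k : ℝ) + 1) (f x)) μ :=
    fun k => ((ps_contDiff _).continuous.comp hf.continuous).aestronglyMeasurable
  have t1 : Tendsto (fun k : ℕ => ∫ x, ps ((k : ℝ) + 1) (f x) ∂μ) atTop (𝓝 (∫ x, f x ∂μ)) := by
    refine tendsto_integral_of_dominated_convergence (fun x => |f x|) hm hfi.abs
      (fun r => Eventually.of_forall fun x => ps_le (by positivity) _)
      (Eventually.of_forall fun x => ps_lim _)
  have t2 : Tendsto (fun k : ℕ => ∫ x, ps ((k : ℝ) + 1) (f x) ^ 2 ∂μ) atTop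
      (𝓝 (∫ x, f x ^ 2 ∂μ)) := by
    refine tendsto_integral_of_dominated_convergence (fun x => f x ^ 2)
      (fun k => (hm k).pow 2) hf2i
      (fun r => Eventually.of_forall fun x => ?_)
      (Eventually.of_forall fun x => (ps_lim _).pow 2)
    rw [Real.norm_eq_abs, abs_pow, ← sq_abs (f x)]
    exact pow_le_pow_left₀ (abs_nonneg _) (ps_le (by positivity) _) 2
  exact le_of_tendsto' (t2.sub (t1.pow 2)) fun k => hk _ (by positivity)

end

end Pool.Agent.U959.OC
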