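import Pool.Agent.U959.OC.Sym
import Pool.Agent.U959.OC.Gen
import Pool.Agent.U959.OC.Mink

/-!
# Independent log-concave variables conditioned on an order: assembly
-/

set_option autoImplicit false

namespace Pool.Agent.U959.OC

open MeasureTheory Set Filter Topology
open scoped ENNReal InnerProductSpace
open Pool.Agent.W695.KH (Eu EU Sm Pot)
open Pool.Agent.R972.OP

variable {ρ : ℝ → ℝ} {n : ℕ}

/-- the conditional law -/
noncomputable def nu (ρ : ℝ → ℝ) (R : Fin n → Fin n → Prop) : Measure (Eu (Fin n)) :=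
  ProbabilityTheory.cond (iid n ρ) (coneE R)

/-- strict version of a relation -/
def st (R : Fin n → Fin n → Prop) (a b : Fin n) : Prop := R a b ∧ a ≠ b

theorem coneE_st (R : Fin n → Fin n → Prop) : coneE (st R) = coneE R := by
  ext x
  constructor
  · intro hx i j hij
    by_cases h : i = j
    · rw [h]
    · exact hx i j ⟨hij, h⟩
  · intro hx i j hij
    exact hx i j hij.1

theorem iid_cone (h : LCD ρ) (R : Fin n → Fin n → Prop) : iid n ρ (coneE R) = Pn n ρ (cone R) := by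
  have hm : Measurable (WithLp.toLp 2 : (Fin n → ℝ) → Eu (Fin n)) :=
    (PiLp.volume_preserving_toLp (Fin n)).measurable
  rw [iid_eq h, Measure.map_apply hm (coneE_meas R)]
  rfl

theorem int_cone (h : LCD ρ) (R : Fin n → Fin n → Prop) {g : Eu (Fin n) → ℝ} (hg : Continuous g) :
    ∫ x in coneE R, g x ∂(iid n ρ) = ∫ x in cone R, g (WithLp.toLp 2 x) ∂(Pn n ρ) := by
  have hm : Measurable (WithLp.toLp 2 : (Fin n → ℝ) → Eu (Fin n)) :=
    (PiLp.volume_preserving_toLp (Fin n)).measurable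
  rw [iid_eq h, setIntegral_map (coneE_meas R) hg.aestronglyMeasurable hm.aemeasurable]
  rfl

theorem int_w (h : LCD ρ) (R : Fin n → Fin n → Prop) (g : Eu (Fin n) → ℝ) :
    ∫ x in coneE R, g x ∂(iid n ρ) = ∫ x, g x * wR ρ R x := by
  classical
  have hc := coneE_meas (n := n) R
  unfold iid
  rw [restrict_withDensity hc, integral_withDensity_eq_integral_toReal_smul (dens_meas h)
    (Eventually.of_forall fun x => ENNReal.prod_lt_top fun i _ => ENNReal.ofReal_lt_top),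
    ← integral_indicator hc]
  congr 1
  funext x
  unfold wR
  by_cases hx : x ∈ coneE R
  · rw [indicator_of_mem hx, if_pos hx, ENNReal.toReal_prod, smul_eq_mul, mul_comm]
    congr 1
    exact Finset.prod_congr rfl fun i _ => ENNReal.toReal_ofReal (h.nonneg _)
  · rw [indicator_of_notMem hx, if_neg hx, mul_zero]

theorem w_int (h : LCD ρ) (R : Fin n → Fin n → Prop) : Integrable (wR ρ R) ∧
    ∫ x, wR ρ R x = (iid n ρ (coneE R)).toReal := by
  have hp := iid_prob (n := n) h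
  constructor
  · have hm := wR_meas h.meas R
    refine ⟨hm.aestronglyMeasurable, ?_⟩
    rw [hasFiniteIntegral_iff_ofReal (Eventually.of_forall (wR_nonneg h.nonneg R))]
    have h1 : ∀ x, ENNReal.ofReal (wR ρ R x) ≤ ∏ i, ENNReal.ofReal (ρ (x i)) := by
      intro x
      unfold wR
      split_ifs
      · rw [ENNReal.ofReal_prod_of_nonneg fun i _ => h.nonneg _]
      · simp
    refine (lintegral_mono h1).trans_lt ?_
    have h2 := hp.measure_univ
    unfold iid at h2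
    rw [withDensity_apply _ MeasurableSet.univ, setLIntegral_univ] at h2
    rw [h2]
    exact ENNReal.one_lt_top
  · have h1 := int_w h R (fun _ => (1 : ℝ))
    simp only [one_mul] at h1
    rw [← h1, setIntegral_const]
    simp [Measure.real]

/-- the main facts -/
theorem facts (h : LCD ρ) (R : Fin n → Fin n → Prop) (hanti : ∀ a b, R a b → R b a → a = b)
    (htr : ∀ a b c, R a b → R b c → R a c) :
    IsProbabilityMeasure (nu ρ R) ∧ iid n ρ (coneE R) ≠ 0 ∧
    ProbabilityTheory.evariance (fun x : Eu (Fin n) => ∑ i, x i) (nu ρ R) ≥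
      ENNReal.ofReal (n * ProbabilityTheory.variance (fun t : ℝ => t) (law ρ)) ∧
    ∃ m, 0 < ρ m ∧ 1 / ρ m ^ 2 ≤ 48 * ProbabilityTheory.variance (fun t : ℝ => t) (law ρ) ∧
    (∀ (v : Eu (Fin n) → ℝ) (B L : ℝ), ContDiff ℝ 1 v → (∀ x, |v x| ≤ B) →
      (∀ x, ‖fderiv ℝ v x‖ ≤ L) → (∫ x, v x ^ 2 ∂(nu ρ R)) - (∫ x, v x ∂(nu ρ R)) ^ 2 ≤
        1 / ρ m ^ 2 * ∫ x, ‖fderiv ℝ v x‖ ^ 2 ∂(nu ρ R)) ∧
    ∀ S : Set (Eu (Fin n)), nu ρ R S * (1 - nu ρ R S) ≤ ENNReal.ofReal (4 / ρ m) *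
      liminf (fun ε : ℝ => (nu ρ R (Metric.thickening ε S) - nu ρ R S) / ENNReal.ofReal ε) (𝓝[>] 0) := by
  obtain ⟨m, hp, hF, hs, H⟩ := poin h
  have hR' : ∀ a, ¬ st R a a := fun a ha => ha.2 rfl
  obtain ⟨hvol, hP⟩ := H n (st R) hR'
  have hipr := iid_prob (n := n) h
  -- positivity
  have hgeo := geo_all n (st R)
  have hint : (interior (OE (st R))).Nonempty := by
    refine hgeo.2.2 (fun a b c hab hbc => ⟨htr a b c hab.1 hbc.1, fun hac => ?_⟩)
      (fun a b hab hba => absurd (hanti a b hab.1 hba.1) hab.2)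
    subst hac
    exact hab.2 (hanti a b hab.1 hbc.1)
  have hvpos : 0 < volume (OE (st R)) := lt_of_lt_of_le (isOpen_interior.measure_pos volume hint)
    (measure_mono interior_subset)
  rw [(tr_all n (st R)).1, hvol, ← iid_cone h, coneE_st] at hvpos
  have hZne : iid n ρ (coneE R) ≠ 0 := hvpos.ne'
  have hprob : IsProbabilityMeasure (nu ρ R) := ProbabilityTheory.cond_isProbabilityMeasure hZne
  obtain ⟨Z, hZ⟩ : ∃ Z, Z = (iid n ρ (coneE R)).toReal := ⟨_, rfl⟩
  have hZ0 : 0 < Z := by rw [hZ]; exact ENNReal.toReal_pos hZne (measure_ne_top _ _)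
  have hint1 : ∀ g : Eu (Fin n) → ℝ, ∫ x, g x ∂(nu ρ R) = (∫ x in coneE R, g x ∂(iid n ρ)) / Z := by
    intro g
    unfold nu ProbabilityTheory.cond
    rw [integral_smul_measure, ENNReal.toReal_inv, ← hZ, smul_eq_mul, inv_mul_eq_div]
  -- the Poincare inequality
  have hPoi : ∀ (v : Eu (Fin n) → ℝ) (B L : ℝ), ContDiff ℝ 1 v → (∀ x, |v x| ≤ B) →
      (∀ x, ‖fderiv ℝ v x‖ ≤ L) → (∫ x, v x ^ 2 ∂(nu ρ R)) - (∫ x, v x ∂(nu ρ R)) ^ 2 ≤
        1 / ρ m ^ 2 * ∫ x, ‖fderiv ℝ v x‖ ^ 2 ∂(nu ρ R) := by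
    intro v B L hv hB hL
    have hv' : ContDiff ℝ 1 (v ∘ Pool.Agent.R711.POBE.L n) :=
      hv.comp (Pool.Agent.R711.POBE.L n).contDiff
    have hen : ∀ x, en (v ∘ Pool.Agent.R711.POBE.L n) x = ‖fderiv ℝ v (WithLp.toLp 2 x)‖ ^ 2 :=
      fun x => Pool.Agent.R711.POBE.sum_pd v x
    have h1 := hP (v ∘ Pool.Agent.R711.POBE.L n) B (L ^ 2) hv' (fun x => hB _) (fun x => by
      rw [hen]
      exact pow_le_pow_left₀ (norm_nonneg _) (hL _) 2)
    have e1 : ∫ x in cone (st R), (v ∘ Pool.Agent.R711.POBE.L n) x ∂(Pn n ρ) =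
        ∫ x in coneE R, v x ∂(iid n ρ) := by
      rw [← coneE_st R, int_cone h (st R) hv.continuous]
      rfl
    have e2 : ∫ x in cone (st R), (v ∘ Pool.Agent.R711.POBE.L n) x ^ 2 ∂(Pn n ρ) =
        ∫ x in coneE R, v x ^ 2 ∂(iid n ρ) := by
      have := int_cone h (st R) (g := fun x => v x ^ 2) (hv.continuous.pow 2)
      rw [← coneE_st R, this]
      rfl
    have e3 : ∫ x in cone (st R), en (v ∘ Pool.Agent.R711.POBE.L n) x ∂(Pn n ρ) =
        ∫ x in coneE R, ‖fderiv ℝ v x‖ ^ 2 ∂(iid n ρ) := by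
      have := int_cone h (st R) (g := fun x => ‖fderiv ℝ v x‖ ^ 2)
        ((hv.continuous_fderiv one_ne_zero).norm.pow 2)
      rw [← coneE_st R, this]
      simp only [hen]
    rw [e1, e2, e3, ← iid_cone h, coneE_st, ← hZ] at h1
    rw [hint1, hint1, hint1]
    have e4 : (∫ x in coneE R, v x ^ 2 ∂(iid n ρ)) / Z - ((∫ x in coneE R, v x ∂(iid n ρ)) / Z) ^ 2 =
        (Z * (∫ x in coneE R, v x ^ 2 ∂(iid n ρ)) - (∫ x in coneE R, v x ∂(iid n ρ)) ^ 2) / Z ^ 2 := by
      field_simp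
    have e5 : 1 / ρ m ^ 2 * ((∫ x in coneE R, ‖fderiv ℝ v x‖ ^ 2 ∂(iid n ρ)) / Z) =
        (Z * (1 / ρ m ^ 2 * ∫ x in coneE R, ‖fderiv ℝ v x‖ ^ 2 ∂(iid n ρ))) / Z ^ 2 := by
      field_simp
    rw [e4, e5]
    exact div_le_div_of_nonneg_right h1 (by positivity)
  -- the approximation
  obtain ⟨hwi, hwZ⟩ := w_int h (n := n) R
  have hlim : Lim (nu ρ R) := by
    refine lim_of (wR ρ R) (wR_nonneg h.nonneg R) hwi (by rw [hwZ, ← hZ]; exact hZ0) (nu ρ R) ?_ ?_
    · intro g hg hg1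
      rw [hint1, int_w h R, hwZ, ← hZ]
    · intro ε hε
      have hwe : wR ρ (st R) = wR ρ R := by
        funext x
        unfold wR
        rw [coneE_st]
      obtain ⟨U, h1, h2, h3⟩ := apx h (st R) hR' (by rw [hwe]; exact hwi) ε hε
      rw [hwe] at h3
      exact ⟨U, h1, h2, h3⟩
  refine ⟨hprob, hZne, ?_, m, hp, ?_, hPoi, ?_⟩
  · -- the variance of the sum
    obtain ⟨hv1, hv2⟩ := var_sum (n := n) h
    have hSc : Continuous fun x : Eu (Fin n) => ∑ i, x i := by fun_prop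
    obtain ⟨a, ha⟩ : ∃ a, a = ∫ x : Eu (Fin n), ∑ i, x i ∂(nu ρ R) := ⟨_, rfl⟩
    obtain ⟨Hf, hHf⟩ : ∃ Hf : Eu (Fin n) → ℝ≥0∞, Hf = fun x => ‖(∑ i, x i) - a‖ₑ ^ 2 := ⟨_, rfl⟩
    have hHm : Measurable Hf := by
      rw [hHf]
      exact ((hSc.measurable.sub_const a).enorm).pow_const 2
    have e1 : ProbabilityTheory.evariance (fun x : Eu (Fin n) => ∑ i, x i) (nu ρ R) =
        ∫⁻ x, Hf x ∂(nu ρ R) := by
      unfold ProbabilityTheory.evariance
      rw [← ha, hHf]
    have e2 : ∫⁻ x, Hf x ∂(nu ρ R) = ∫⁻ x, Hf x ∂(iid n ρ) := by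
      unfold nu ProbabilityTheory.cond
      rw [lintegral_smul_measure, symI h R Hf hHm, smul_eq_mul, ← mul_assoc,
        ENNReal.inv_mul_cancel hZne (measure_ne_top _ _), one_mul]
      intro p x
      rw [hHf]
      dsimp only
      rw [Equiv.sum_comp p fun i => x i]
    have hmem : MemLp (fun x : Eu (Fin n) => (∑ i, x i) - a) 2 (iid n ρ) := hv2.sub (memLp_const a)
    have e3 : ∫⁻ x, Hf x ∂(iid n ρ) = ENNReal.ofReal (∫ x : Eu (Fin n), ((∑ i, x i) - a) ^ 2 ∂(iid n ρ)) := by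
      rw [ofReal_integral_eq_lintegral_ofReal hmem.integrable_sq
        (Eventually.of_forall fun x => sq_nonneg _), hHf]
      refine lintegral_congr fun x => ?_
      rw [← sq_abs, ENNReal.ofReal_pow (abs_nonneg _), ← Real.norm_eq_abs, ofReal_norm_eq_enorm]
    rw [e1, e2, e3, ge_iff_le]
    refine ENNReal.ofReal_le_ofReal ?_
    rw [← hv1]
    have h5 := ProbabilityTheory.variance_le_expectation_sq (μ := iid n ρ)
      (X := fun x : Eu (Fin n) => (∑ i, x i) - a) (hSc.sub continuous_const).aestronglyMeasurable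
    have h6 : ProbabilityTheory.variance (fun x : Eu (Fin n) => (∑ i, x i) - a) (iid n ρ) =
        ProbabilityTheory.variance (fun x : Eu (Fin n) => ∑ i, x i) (iid n ρ) :=
      ProbabilityTheory.variance_sub_const hSc.aestronglyMeasurable _
    rw [h6] at h5
    exact h5
  · have h1 := h.var_lower (M := 2 * ρ m) (by positivity) hs
    have e : 1 / (12 * (2 * ρ m) ^ 2) = 1 / ρ m ^ 2 / 48 := by
      field_simp
      norm_num
    rw [e] at h1
    linarith
  · intro S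
    have hCp : 0 < 1 / ρ m ^ 2 := by positivity
    have hsq : Real.sqrt (1 / ρ m ^ 2) = 1 / ρ m := by
      rw [Real.sqrt_div zero_le_one, Real.sqrt_one, Real.sqrt_sq hp.le]
    have h1 := minka (nu ρ R) (4 / ρ m) (by positivity) (fun f L M hf hfb => by
      have h2 := lev (nu ρ R) hlim (1 / ρ m ^ 2) hCp (fun v L hv hv1 hv2 => hPoi v 1 L hv hv1 hv2)
        f L M hf hfb
      rw [hsq] at h2
      have e : 4 * (1 / ρ m) = 4 / ρ m := by ring
      rwa [e] at h2) S
    exact h1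

end Pool.Agent.U959.OC
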