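import Pool.Agent.W695.KH.Defs

/-!
# Sums of ridge functions are potentials
-/

set_option autoImplicit false

namespace Pool.Agent.U959.OC

open MeasureTheory Set Filter Topology
open scoped ENNReal InnerProductSpace
open Pool.Agent.W695.KH (Eu Pot)

variable {κ ι : Type} [Fintype κ] [Fintype ι]

/-- gradient of a sum of ridge functions -/
noncomputable def rb (v : ι → Eu κ) (V' : ι → ℝ → ℝ) (x : Eu κ) : Eu κ :=
  ∑ m, V' m ⟪v m, x⟫_ℝ • v m

theorem rb_sub (v : ι → Eu κ) (V' : ι → ℝ → ℝ) (x y : Eu κ) :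
    rb v V' x - rb v V' y = ∑ m, (V' m ⟪v m, x⟫_ℝ - V' m ⟪v m, y⟫_ℝ) • v m := by
  unfold rb
  rw [← Finset.sum_sub_distrib]
  exact Finset.sum_congr rfl fun m _ => (sub_smul _ _ _).symm

theorem ridge_pot (v : ι → Eu κ) (V V' : ι → ℝ → ℝ) (A c : ℝ) (hA : 0 < A)
    (hd : ∀ m s, HasDerivAt (V m) (V' m s) s) (hm : ∀ m, Monotone (V' m))
    (hl : ∀ m s t, |V' m s - V' m t| ≤ A * |s - t|)
    (hint : Integrable fun x : Eu κ => (1 + ‖x‖ ^ 2) * Real.exp (-(∑ m, V m ⟪v m, x⟫_ℝ + c))) :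
    ∃ (b : Eu κ → Eu κ) (B : ℝ), Pot (fun x => ∑ m, V m ⟪v m, x⟫_ℝ + c) b B := by
  obtain ⟨S, hS⟩ : ∃ S : ℝ, S = ∑ m, ‖v m‖ ^ 2 := ⟨_, rfl⟩
  have hS0 : 0 ≤ S := by rw [hS]; exact Finset.sum_nonneg fun m _ => sq_nonneg _
  have hlip : ∀ x y, ‖rb v V' x - rb v V' y‖ ≤ (A * S + 1) * ‖x - y‖ := by
    intro x y
    rw [rb_sub]
    refine (norm_sum_le _ _).trans ?_
    calc ∑ m, ‖(V' m ⟪v m, x⟫_ℝ - V' m ⟪v m, y⟫_ℝ) • v m‖ ≤ ∑ m, A * ‖v m‖ ^ 2 * ‖x - y‖ := by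
          refine Finset.sum_le_sum fun m _ => ?_
          rw [norm_smul, Real.norm_eq_abs]
          have h1 := hl m ⟪v m, x⟫_ℝ ⟪v m, y⟫_ℝ
          rw [← inner_sub_right] at h1
          have h2 := abs_real_inner_le_norm (v m) (x - y)
          calc |V' m ⟪v m, x⟫_ℝ - V' m ⟪v m, y⟫_ℝ| * ‖v m‖ ≤ (A * (‖v m‖ * ‖x - y‖)) * ‖v m‖ :=
                mul_le_mul_of_nonneg_right (h1.trans (mul_le_mul_of_nonneg_left h2 hA.le))
                  (norm_nonneg _)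
            _ = _ := by ring
      _ = A * S * ‖x - y‖ := by
          rw [← Finset.sum_mul, ← Finset.mul_sum, ← hS]
      _ ≤ _ := by
          have := norm_nonneg (x - y)
          nlinarith
  have hcont : Continuous (rb v V') := by
    have : LipschitzWith (A * S + 1).toNNReal (rb v V') := LipschitzWith.of_dist_le_mul fun x y => by
      rw [Real.coe_toNNReal _ (by positivity), dist_eq_norm, dist_eq_norm]
      exact hlip x y
    exact this.continuous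
  refine ⟨rb v V', A * S + 1, ?_, ?_, hlip, ?_, ?_⟩
  · positivity
  · intro x
    have h1 : ∀ m, HasFDerivAt (fun x : Eu κ => V m ⟪v m, x⟫_ℝ)
        ((V' m ⟪v m, x⟫_ℝ) • innerSL ℝ (v m)) x := by
      intro m
      exact (hd m _).comp_hasFDerivAt x (innerSL ℝ (v m)).hasFDerivAt
    have h2 := (HasFDerivAt.fun_sum fun m (_ : m ∈ Finset.univ) => h1 m).add_const c
    refine h2.congr_fderiv ?_
    unfold rb
    rw [map_sum]
    refine Finset.sum_congr rfl fun m _ => ?_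
    rw [map_smul]
  · intro h h0 hh x y
    obtain ⟨d, hdd⟩ : ∃ d, d = x - y := ⟨_, rfl⟩
    obtain ⟨k, hk⟩ : ∃ k : ι → ℝ, k = fun m => V' m ⟪v m, x⟫_ℝ - V' m ⟪v m, y⟫_ℝ := ⟨_, rfl⟩
    have e1 : (x - h • rb v V' x) - (y - h • rb v V' y) = d - h • ∑ m, k m • v m := by
      have h3 := rb_sub v V' x y
      rw [hk, ← h3, hdd, smul_sub]
      abel
    rw [e1, ← hdd]
    refine abs_le_of_sq_le_sq' ?_ (norm_nonneg _) |>.2
    -- expand the square
    obtain ⟨q, hq⟩ : ∃ q, q = ∑ m, k m * ⟪v m, d⟫_ℝ := ⟨_, rfl⟩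
    have hterm : ∀ m, 0 ≤ k m * ⟪v m, d⟫_ℝ ∧ k m ^ 2 ≤ A * (k m * ⟪v m, d⟫_ℝ) := by
      intro m
      have h4 : ⟪v m, d⟫_ℝ = ⟪v m, x⟫_ℝ - ⟪v m, y⟫_ℝ := by rw [hdd, inner_sub_right]
      have h5 := hl m ⟪v m, x⟫_ℝ ⟪v m, y⟫_ℝ
      rw [hk, h4]
      dsimp only
      rcases le_total ⟪v m, y⟫_ℝ ⟪v m, x⟫_ℝ with hxy | hxy
      · have h6 := hm m hxy
        rw [abs_of_nonneg (by linarith), abs_of_nonneg (by linarith)] at h5
        refine ⟨mul_nonneg (by linarith) (by linarith), ?_⟩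
        nlinarith
      · have h6 := hm m hxy
        rw [abs_of_nonpos (by linarith), abs_of_nonpos (by linarith)] at h5
        refine ⟨mul_nonneg_of_nonpos_of_nonpos (by linarith) (by linarith), ?_⟩
        nlinarith
    have hq0 : 0 ≤ q := by rw [hq]; exact Finset.sum_nonneg fun m _ => (hterm m).1
    have hin : ⟪d, ∑ m, k m • v m⟫_ℝ = q := by
      rw [inner_sum, hq]
      refine Finset.sum_congr rfl fun m _ => ?_
      rw [real_inner_smul_right, real_inner_comm]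
    have hns : ‖∑ m, k m • v m‖ ^ 2 ≤ A * S * q := by
      have h7 : ‖∑ m, k m • v m‖ ≤ ∑ m, |k m| * ‖v m‖ := by
        refine (norm_sum_le _ _).trans (Finset.sum_le_sum fun m _ => ?_)
        rw [norm_smul, Real.norm_eq_abs]
      have h8 : (∑ m, |k m| * ‖v m‖) ^ 2 ≤ (∑ m, |k m| ^ 2) * ∑ m, ‖v m‖ ^ 2 :=
        Finset.sum_mul_sq_le_sq_mul_sq _ _ _
      have h9 : ∑ m, |k m| ^ 2 ≤ A * q := by
        rw [hq, Finset.mul_sum]
        refine Finset.sum_le_sum fun m _ => ?_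
        rw [sq_abs]
        exact (hterm m).2
      calc ‖∑ m, k m • v m‖ ^ 2 ≤ (∑ m, |k m| * ‖v m‖) ^ 2 :=
            pow_le_pow_left₀ (norm_nonneg _) h7 2
        _ ≤ (∑ m, |k m| ^ 2) * ∑ m, ‖v m‖ ^ 2 := h8
        _ ≤ (A * q) * S := by
            rw [← hS]
            exact mul_le_mul_of_nonneg_right h9 hS0
        _ = _ := by ring
    rw [norm_sub_sq_real, real_inner_smul_right, hin, norm_smul, Real.norm_eq_abs, mul_pow, sq_abs]
    have h10 : h ^ 2 * ‖∑ m, k m • v m‖ ^ 2 ≤ h ^ 2 * (A * S * q) :=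
      mul_le_mul_of_nonneg_left hns (sq_nonneg _)
    have h11 : h ^ 2 * (A * S * q) ≤ h * q := by
      have h12 : h * (A * S) ≤ 1 := by nlinarith
      have h13 : 0 ≤ h * q := mul_nonneg h0 hq0
      nlinarith
    have h13 : 0 ≤ h * q := mul_nonneg h0 hq0
    linarith
  · -- integrability
    obtain ⟨C, hC⟩ : ∃ C : ℝ, C = 1 + 2 * ‖rb v V' 0‖ ^ 2 + 2 * (A * S + 1) ^ 2 := ⟨_, rfl⟩
    have hVc : Continuous fun x : Eu κ => ∑ m, V m ⟪v m, x⟫_ℝ + c := by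
      refine (continuous_finsetSum _ fun m _ => ?_).add continuous_const
      have h1 : Continuous (V m) := continuous_iff_continuousAt.2 fun s => (hd m s).continuousAt
      exact h1.comp (by fun_prop)
    refine (hint.const_mul C).mono' ?_ (Eventually.of_forall fun x => ?_)
    · exact ((continuous_const.add (hcont.norm.pow 2)).mul
        (Real.continuous_exp.comp hVc.neg)).aestronglyMeasurable
    · have he : 0 ≤ Real.exp (-(∑ m, V m ⟪v m, x⟫_ℝ + c)) := (Real.exp_pos _).le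
      rw [Real.norm_eq_abs, abs_of_nonneg (mul_nonneg (by positivity) he), ← mul_assoc]
      refine mul_le_mul_of_nonneg_right ?_ he
      have h1 := hlip x 0
      rw [sub_zero] at h1
      have h2 : ‖rb v V' x‖ ≤ ‖rb v V' 0‖ + (A * S + 1) * ‖x‖ := by
        have := norm_sub_norm_le (rb v V' x) (rb v V' 0)
        linarith
      have h3 : ‖rb v V' x‖ ^ 2 ≤ (‖rb v V' 0‖ + (A * S + 1) * ‖x‖) ^ 2 :=
        pow_le_pow_left₀ (norm_nonneg _) h2 2
      have h4 : (‖rb v V' 0‖ + (A * S + 1) * ‖x‖) ^ 2 ≤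
          2 * ‖rb v V' 0‖ ^ 2 + 2 * ((A * S + 1) ^ 2 * ‖x‖ ^ 2) := by
        nlinarith [sq_nonneg (‖rb v V' 0‖ - (A * S + 1) * ‖x‖)]
      rw [hC]
      have h5 : 0 ≤ ‖rb v V' 0‖ ^ 2 * ‖x‖ ^ 2 := by positivity
      have h6 : 0 ≤ (A * S + 1) ^ 2 := by positivity
      nlinarith [sq_nonneg ‖x‖]

end Pool.Agent.U959.OC
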