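import Pool.Agent.U959.OC.One

/-!
# Log-concave densities on the line are Lipschitz images of the logistic law
-/

set_option autoImplicit false

namespace Pool.Agent.U959.OC

open MeasureTheory Set Filter Topology
open scoped ENNReal

variable {ρ : ℝ → ℝ}

/-- `log F - log G` -/
noncomputable def La (ρ : ℝ → ℝ) (t : ℝ) : ℝ := Real.log (F ρ t) - Real.log (G ρ t)

theorem LCD.G_der (h : LCD ρ) {t : ℝ} (ht : t ∈ J ρ) : HasDerivAt (G ρ) (-ρ t) t := by
  have e : G ρ = fun t => 1 - F ρ t := by
    funext t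
    have := h.F_add_G t
    linarith
  rw [e]
  simpa using (h.F_der ht).const_sub 1

theorem LCD.La_der (h : LCD ρ) {t : ℝ} (ht : t ∈ J ρ) :
    HasDerivAt (La ρ) (ρ t / (F ρ t * G ρ t)) t := by
  have hF := (h.F_pos ht).ne'
  have hG := (h.G_pos ht).ne'
  have h1 := (h.F_der ht).log hF
  have h2 := (h.G_der ht).log hG
  have h3 := h1.sub h2
  have e : ρ t / F ρ t - -ρ t / G ρ t = ρ t / (F ρ t * G ρ t) := by
    have := h.F_add_G t
    field_simp
    linear_combination (ρ t) * this
  rw [e] at h3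
  exact h3

/-- the map from the logistic law -/
theorem LCD.exists_T (h : LCD ρ) : ∃ (m : ℝ) (T : ℝ → ℝ), 0 < ρ m ∧ F ρ m = 1 / 2 ∧
    (∀ t, ρ t ≤ 2 * ρ m) ∧ (∀ y, T y ∈ J ρ ∧ La ρ (T y) = y) ∧ StrictMono T ∧
    ∀ y, ∃ d, HasDerivAt T d y ∧ 0 ≤ d ∧ d ≤ 1 / (2 * ρ m) ∧ d = F ρ (T y) * G ρ (T y) / ρ (T y) := by
  obtain ⟨m, hm, hF, hp, hb, hs⟩ := h.median
  have hex : ∀ y : ℝ, ∃ t ∈ J ρ, La ρ t = y := by
    intro y
    have hE : 0 < Real.exp (-y) := Real.exp_pos _
    have h0 : 0 < 1 / (1 + Real.exp (-y)) := by positivity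
    have h1 : 1 / (1 + Real.exp (-y)) < 1 := by
      rw [div_lt_one (by positivity)]
      linarith
    obtain ⟨t, ht, hFt⟩ := h.surj h0 h1
    refine ⟨t, ht, ?_⟩
    have hG : G ρ t = Real.exp (-y) * F ρ t := by
      have := h.F_add_G t
      have e : G ρ t = 1 - F ρ t := by linarith
      rw [e, hFt]
      field_simp
      ring
    unfold La
    rw [hG, Real.log_mul hE.ne' (h.F_pos ht).ne', Real.log_exp]
    ring
  choose T hTJ hTL using hex
  have hder : ∀ t ∈ J ρ, 2 * ρ m ≤ ρ t / (F ρ t * G ρ t) := by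
    intro t ht
    have h1 := hb t
    have h2 : 0 < F ρ t * G ρ t := mul_pos (h.F_pos ht) (h.G_pos ht)
    rw [le_div_iff₀ h2]
    rw [le_div_iff₀ (by positivity)] at h1
    linarith
  -- `La t - 2 ρ(m) t` is nondecreasing on `J`
  have hmono : MonotoneOn (fun t => La ρ t - 2 * ρ m * t) (J ρ) := by
    refine monotoneOn_of_deriv_nonneg h.J_conv ?_ ?_ ?_
    · intro t ht
      exact ((h.La_der ht).continuousAt.sub (continuous_const.mul
        continuous_id).continuousAt).continuousWithinAt
    · intro t ht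
      rw [J_open.interior_eq] at ht
      exact ((h.La_der ht).sub ((hasDerivAt_id t).const_mul (2 * ρ m))).differentiableAt.differentiableWithinAt
    · intro t ht
      rw [J_open.interior_eq] at ht
      have h1 : HasDerivAt (fun t => La ρ t - 2 * ρ m * t) (ρ t / (F ρ t * G ρ t) - 2 * ρ m * 1) t :=
        (h.La_der ht).sub ((hasDerivAt_id t).const_mul (2 * ρ m))
      rw [h1.deriv]
      have := hder t ht
      linarith
  have hstrict : StrictMono T := by
    intro x y hxy
    by_contra hc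
    push Not at hc
    have h1 := hmono (hTJ y) (hTJ x) hc
    simp only [hTL] at h1
    have : 2 * ρ m * T y ≤ 2 * ρ m * T x := mul_le_mul_of_nonneg_left hc (by positivity)
    linarith
  have hlip : ∀ x y, x ≤ y → T y - T x ≤ 1 / (2 * ρ m) * (y - x) := by
    intro x y hxy
    have h1 := hmono (hTJ x) (hTJ y) (hstrict.monotone hxy)
    simp only [hTL] at h1
    have h2 : 2 * ρ m * (T y - T x) ≤ y - x := by linarith
    rw [one_div, ← div_eq_inv_mul, le_div_iff₀ (by positivity)]
    linarith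
  have hL : LipschitzWith (1 / (2 * ρ m)).toNNReal T := by
    refine LipschitzWith.of_dist_le_mul fun x y => ?_
    rw [Real.coe_toNNReal _ (by positivity), Real.dist_eq, Real.dist_eq]
    rcases le_total x y with hxy | hxy
    · have h1 := hlip x y hxy
      have h2 := hstrict.monotone hxy
      rw [abs_sub_comm, abs_of_nonneg (by linarith), abs_sub_comm, abs_of_nonneg (by linarith)]
      exact h1
    · have h1 := hlip y x hxy
      have h2 := hstrict.monotone hxy
      rw [abs_of_nonneg (by linarith), abs_of_nonneg (by linarith)]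
      exact h1
  refine ⟨m, T, hp, hF, hs, fun y => ⟨hTJ y, hTL y⟩, hstrict, fun y => ?_⟩
  have hpos := J_pos (hTJ y)
  have hFG : 0 < F ρ (T y) * G ρ (T y) := mul_pos (h.F_pos (hTJ y)) (h.G_pos (hTJ y))
  refine ⟨(ρ (T y) / (F ρ (T y) * G ρ (T y)))⁻¹, ?_, ?_, ?_, ?_⟩
  · refine HasDerivAt.of_local_left_inverse hL.continuous.continuousAt (h.La_der (hTJ y)) ?_ ?_
    · positivity
    · exact Eventually.of_forall hTL
  · positivity
  · have := hder _ (hTJ y)
    rw [one_div]
    exact inv_anti₀ (by positivity) this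
  · rw [inv_div]

/-- the logit -/
noncomputable def lg (x : ℝ) : ℝ := Real.log x - Real.log (1 - x)

theorem LCD.F_T (h : LCD ρ) {T : ℝ → ℝ} (hT : ∀ y, T y ∈ J ρ ∧ La ρ (T y) = y) {x : ℝ}
    (h0 : 0 < x) (h1 : x < 1) : F ρ (T (lg x)) = x := by
  obtain ⟨hJ, hL⟩ := hT (lg x)
  have hF := h.F_pos hJ
  have hG := h.G_pos hJ
  have hs := h.F_add_G (T (lg x))
  unfold La at hL
  conv_rhs at hL => unfold lg
  rw [← Real.log_div hF.ne' hG.ne', ← Real.log_div h0.ne' (by linarith : (1 - x) ≠ 0)] at hL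
  have h2 := Real.log_injOn_pos (mem_Ioi.2 (div_pos hF hG)) (mem_Ioi.2 (div_pos h0 (by linarith))) hL
  rw [div_eq_div_iff hG.ne' (by linarith)] at h2
  have e : G ρ (T (lg x)) = 1 - F ρ (T (lg x)) := by linarith
  rw [e] at h2
  linarith

/-- the law with density `ρ` -/
noncomputable def law (ρ : ℝ → ℝ) : Measure ℝ := volume.withDensity fun s => ENNReal.ofReal (ρ s)

theorem LCD.prob (h : LCD ρ) : IsProbabilityMeasure (law ρ) := by
  refine ⟨?_⟩
  unfold law
  rw [withDensity_apply _ MeasurableSet.univ, setLIntegral_univ, h.mass]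

theorem LCD.law_Iic (h : LCD ρ) (a : ℝ) : law ρ (Iic a) = ENNReal.ofReal (F ρ a) := by
  unfold law F
  rw [withDensity_apply _ measurableSet_Iic, ofReal_integral_eq_lintegral_ofReal
    h.integrable.integrableOn (Eventually.of_forall h.nonneg)]

theorem lg_strict {x y : ℝ} (h0 : 0 < x) (hxy : x < y) (h1 : y < 1) : lg x < lg y := by
  unfold lg
  have h2 := Real.log_lt_log h0 hxy
  have h3 := Real.log_lt_log (by linarith : 0 < 1 - y) (by linarith : 1 - y < 1 - x)
  linarith

theorem lg_meas : Measurable lg := by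
  unfold lg
  fun_prop

/-- image of the uniform law -/
theorem LCD.map_q (h : LCD ρ) {T : ℝ → ℝ} (hT : ∀ y, T y ∈ J ρ ∧ La ρ (T y) = y)
    (hTm : StrictMono T) :
    Measure.map (fun x => T (lg x)) (volume.restrict (Ioo (0 : ℝ) 1)) = law ρ := by
  have hmeas : Measurable fun x => T (lg x) := hTm.monotone.measurable.comp lg_meas
  have := h.prob
  have hfin : IsFiniteMeasure (volume.restrict (Ioo (0 : ℝ) 1)) :=
    ⟨by rw [Measure.restrict_apply_univ]; simp⟩
  refine Measure.ext_of_Iic _ _ fun a => ?_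
  rw [Measure.map_apply hmeas measurableSet_Iic, Measure.restrict_apply
    (hmeas measurableSet_Iic), h.law_Iic]
  have hFa0 := h.F_nonneg a
  have hFa1 : F ρ a ≤ 1 := by
    have := h.F_add_G a
    have := h.G_nonneg a
    linarith
  refine le_antisymm ?_ ?_
  · calc volume ((fun x => T (lg x)) ⁻¹' Iic a ∩ Ioo 0 1) ≤ volume (Ioc 0 (F ρ a)) := by
          refine measure_mono fun x hx => ?_
          have h1 : T (lg x) ≤ a := hx.1
          have h2 := h.F_T hT hx.2.1 hx.2.2
          refine ⟨hx.2.1, ?_⟩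
          rw [← h2]
          exact h.F_mono h1
      _ = _ := by rw [Real.volume_Ioc, sub_zero]
  · calc ENNReal.ofReal (F ρ a) = volume (Ioo 0 (F ρ a)) := by rw [Real.volume_Ioo, sub_zero]
      _ ≤ _ := by
          refine measure_mono fun x hx => ?_
          have hx1 : x < 1 := lt_of_lt_of_le hx.2 hFa1
          refine ⟨?_, hx.1, hx1⟩
          show T (lg x) ≤ a
          by_contra hc
          push Not at hc
          have h2 := h.F_T hT hx.1 hx1
          have h3 := h.F_mono hc.le
          rw [h2] at h3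
          exact absurd h3 (not_le.2 hx.2)

end Pool.Agent.U959.OC
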