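import Pool.Agent.U959.OC.Core
import Pool.Agent.U959.OC.Apx2
import Pool.Agent.R711.POBE

/-!
# Symmetric functions on order cones; the variance of the sum of the coordinates
-/

set_option autoImplicit false

namespace Pool.Agent.U959.OC

open MeasureTheory Set Filter Topology
open scoped ENNReal InnerProductSpace
open Pool.Agent.W695.KH (Eu EU Sm Pot)
open Pool.Agent.R972.OP

variable {ρ : ℝ → ℝ}

/-! ### one dimension -/

theorem lg_sq_int : IntegrableOn (fun x : ℝ => lg x ^ 2) (Ioo 0 1) := by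
  -- `log² x ≤ 16 x^(-1/2)`
  have h1 : IntegrableOn (fun x : ℝ => x ^ (-(1 / 2) : ℝ)) (Ioo 0 1) := by
    have := intervalIntegral.intervalIntegrable_rpow' (a := 0) (b := 1) (r := -(1 / 2))
      (by norm_num)
    rw [intervalIntegrable_iff_integrableOn_Ioo_of_le zero_le_one] at this
    exact this
  have h2 : IntegrableOn (fun x : ℝ => (1 - x) ^ (-(1 / 2) : ℝ)) (Ioo 0 1) := by
    have h3 := (intervalIntegral.intervalIntegrable_rpow' (a := 0) (b := 1) (r := -(1 / 2))
      (by norm_num)).comp_sub_left 1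
    rw [sub_zero, sub_self] at h3
    have h4 := h3.symm
    rw [intervalIntegrable_iff_integrableOn_Ioo_of_le zero_le_one] at h4
    exact h4
  have hlog : ∀ x : ℝ, 0 < x → x < 1 → Real.log x ^ 2 ≤ 16 * x ^ (-(1 / 2) : ℝ) := by
    intro x h0 h1
    have h5 := Real.abs_log_mul_self_rpow_lt x (1 / 4) h0 h1.le (by norm_num)
    have h6 : 0 < x ^ (1 / 4 : ℝ) := Real.rpow_pos_of_pos h0 _
    rw [abs_mul, abs_of_pos h6] at h5
    have h7 : |Real.log x| ≤ 4 / x ^ (1 / 4 : ℝ) := by
      rw [le_div_iff₀ h6]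
      norm_num at h5
      linarith
    have h8 : |Real.log x| ^ 2 ≤ (4 / x ^ (1 / 4 : ℝ)) ^ 2 := pow_le_pow_left₀ (abs_nonneg _) h7 2
    rw [sq_abs] at h8
    refine h8.trans (le_of_eq ?_)
    rw [div_pow, ← Real.rpow_natCast (x ^ (1 / 4 : ℝ)) 2, ← Real.rpow_mul h0.le, Real.rpow_neg h0.le]
    norm_num
    rfl
  refine Integrable.mono' ((h1.const_mul 32).add (h2.const_mul 32))
    (lg_meas.pow_const 2).aestronglyMeasurable ?_
  rw [ae_restrict_iff' measurableSet_Ioo]
  refine Eventually.of_forall fun x hx => ?_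
  have h3 := hlog x hx.1 hx.2
  have h4 := hlog (1 - x) (by linarith [hx.2]) (by linarith [hx.1])
  show ‖lg x ^ 2‖ ≤ 32 * x ^ (-(1 / 2) : ℝ) + 32 * (1 - x) ^ (-(1 / 2) : ℝ)
  rw [Real.norm_eq_abs, abs_of_nonneg (sq_nonneg _)]
  unfold lg
  nlinarith [sq_nonneg (Real.log x + Real.log (1 - x))]

theorem LCD.moment (h : LCD ρ) : MemLp (fun t : ℝ => t) 2 (law ρ) := by
  obtain ⟨m, T, hp, hF, hs, hT, hTm, hder⟩ := h.exists_T
  have hq : Measurable fun x => T (lg x) := hTm.monotone.measurable.comp lg_meas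
  rw [← h.map_q hT hTm, memLp_map_measure_iff (by fun_prop) hq.aemeasurable]
  have hfin : IsFiniteMeasure (volume.restrict (Ioo (0 : ℝ) 1)) :=
    ⟨by rw [Measure.restrict_apply_univ]; simp⟩
  have h1 : Integrable (fun x : ℝ => (T (lg x)) ^ 2) (volume.restrict (Ioo (0 : ℝ) 1)) := by
    refine Integrable.mono' ((lg_sq_int.const_mul (2 * (1 / (2 * ρ m)) ^ 2)).add
      (integrable_const (2 * T 0 ^ 2))) (hq.pow_const 2).aestronglyMeasurable ?_
    refine Eventually.of_forall fun x => ?_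
    show ‖T (lg x) ^ 2‖ ≤ 2 * (1 / (2 * ρ m)) ^ 2 * lg x ^ 2 + 2 * T 0 ^ 2
    rw [Real.norm_eq_abs, abs_of_nonneg (sq_nonneg _)]
    have hL : LipschitzWith (1 / (2 * ρ m)).toNNReal T := by
      refine lipschitzWith_of_nnnorm_deriv_le (fun y => ?_) fun y => ?_
      · obtain ⟨d, hd, -⟩ := hder y
        exact hd.differentiableAt
      · obtain ⟨d, hd, hd0, hd1, -⟩ := hder y
        rw [← NNReal.coe_le_coe, coe_nnnorm, hd.deriv, Real.norm_eq_abs, abs_of_nonneg hd0,
          Real.coe_toNNReal _ (by positivity)]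
        exact hd1
    have h2 := hL.dist_le_mul (lg x) 0
    rw [Real.coe_toNNReal _ (by positivity), Real.dist_eq, Real.dist_eq, sub_zero] at h2
    have h3 : |T (lg x) - T 0| ^ 2 ≤ (1 / (2 * ρ m) * |lg x|) ^ 2 :=
      pow_le_pow_left₀ (abs_nonneg _) h2 2
    rw [sq_abs, mul_pow, sq_abs] at h3
    nlinarith [sq_nonneg (T (lg x) - 2 * T 0)]
  exact (memLp_two_iff_integrable_sq hq.aestronglyMeasurable).2 h1

/-- the law of `F` is uniform -/
theorem LCD.int_F (h : LCD ρ) (φ : ℝ → ℝ) (hφ : Continuous φ) :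
    ∫ t, φ (F ρ t) ∂(law ρ) = ∫ x in Ioo (0 : ℝ) 1, φ x := by
  obtain ⟨m, T, hp, hF, hs, hT, hTm, hder⟩ := h.exists_T
  have hq : Measurable fun x => T (lg x) := hTm.monotone.measurable.comp lg_meas
  have hc : Continuous fun t => φ (F ρ t) := hφ.comp h.F_cont
  rw [← h.map_q hT hTm, integral_map hq.aemeasurable hc.aestronglyMeasurable]
  refine setIntegral_congr_fun measurableSet_Ioo fun x hx => ?_
  show φ (F ρ (T (lg x))) = φ x
  rw [h.F_T hT hx.1 hx.2]

/-- lower bound of the variance -/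
theorem LCD.var_lower (h : LCD ρ) {M : ℝ} (hM : 0 < M) (hs : ∀ t, ρ t ≤ M) :
    1 / (12 * M ^ 2) ≤ ProbabilityTheory.variance (fun t : ℝ => t) (law ρ) := by
  have := h.prob
  have hmem := h.moment
  have hFb : ∀ t, |F ρ t| ≤ 1 := by
    intro t
    have h1 := h.F_nonneg t
    have h2 := h.F_add_G t
    have h3 := h.G_nonneg t
    rw [abs_of_nonneg h1]
    linarith
  have hFmem : MemLp (F ρ) 2 (law ρ) :=
    MemLp.of_bound h.F_cont.aestronglyMeasurable 1 (Eventually.of_forall hFb)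
  have h1 : ∫ t, F ρ t ∂(law ρ) = 1 / 2 := by
    rw [h.int_F (fun x => x) continuous_id, ← integral_Ioc_eq_integral_Ioo,
      ← intervalIntegral.integral_of_le zero_le_one, integral_id]
    norm_num
  have h2 : ∫ t, F ρ t ^ 2 ∂(law ρ) = 1 / 3 := by
    rw [h.int_F (fun x => x ^ 2) (continuous_pow 2), ← integral_Ioc_eq_integral_Ioo,
      ← intervalIntegral.integral_of_le zero_le_one, integral_pow]
    norm_num
  have hvF : ProbabilityTheory.variance (F ρ) (law ρ) = 1 / 12 := by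
    rw [ProbabilityTheory.variance_eq_sub hFmem, h1]
    have : ∫ t, (F ρ ^ 2) t ∂(law ρ) = 1 / 3 := h2
    rw [this]
    norm_num
  have hlip : ∀ s t, |F ρ s - F ρ t| ≤ M * |s - t| := by
    have h3 : ∀ s t, s ≤ t → F ρ t - F ρ s ≤ M * (t - s) := by
      intro s t hst
      rw [h.F_sub]
      calc ∫ u in s..t, ρ u ≤ ∫ u in s..t, M :=
            intervalIntegral.integral_mono hst h.integrable.intervalIntegrable
              intervalIntegrable_const fun u => hs u
        _ = M * (t - s) := by simp; ring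
    intro s t
    rcases le_total s t with hst | hst
    · rw [abs_sub_comm, abs_of_nonneg (by linarith [h.F_mono hst]), abs_sub_comm,
        abs_of_nonneg (by linarith)]
      exact h3 s t hst
    · rw [abs_of_nonneg (by linarith [h.F_mono hst]), abs_of_nonneg (by linarith)]
      exact h3 t s hst
  obtain ⟨a, ha⟩ : ∃ a, a = ∫ t, t ∂(law ρ) := ⟨_, rfl⟩
  have h4 : ProbabilityTheory.variance (F ρ) (law ρ) ≤ ∫ t, (F ρ t - F ρ a) ^ 2 ∂(law ρ) := by
    have h5 := ProbabilityTheory.variance_le_expectation_sq (μ := law ρ)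
      (X := fun t => F ρ t - F ρ a) (h.F_cont.sub continuous_const).aestronglyMeasurable
    have h6 : ProbabilityTheory.variance (fun t => F ρ t - F ρ a) (law ρ) =
        ProbabilityTheory.variance (F ρ) (law ρ) :=
      ProbabilityTheory.variance_sub_const h.F_cont.aestronglyMeasurable _
    rw [h6] at h5
    exact h5
  have h7 : ProbabilityTheory.variance (fun t : ℝ => t) (law ρ) = ∫ t, (t - a) ^ 2 ∂(law ρ) := by
    rw [ProbabilityTheory.variance_eq_integral (by fun_prop), ← ha]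
  have hi : Integrable (fun t : ℝ => (t - a) ^ 2) (law ρ) :=
    (hmem.sub (memLp_const a)).integrable_sq
  have h8 : ∫ t, (F ρ t - F ρ a) ^ 2 ∂(law ρ) ≤ ∫ t, M ^ 2 * (t - a) ^ 2 ∂(law ρ) := by
    refine integral_mono_of_nonneg (Eventually.of_forall fun t => sq_nonneg _) (hi.const_mul _)
      (Eventually.of_forall fun t => ?_)
    show (F ρ t - F ρ a) ^ 2 ≤ M ^ 2 * (t - a) ^ 2
    have h9 := pow_le_pow_left₀ (abs_nonneg _) (hlip t a) 2
    rwa [sq_abs, mul_pow, sq_abs] at h9
  rw [integral_const_mul, ← h7] at h8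
  rw [hvF] at h4
  rw [div_le_iff₀ (by positivity)]
  nlinarith

end Pool.Agent.U959.OC
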