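import Pool.Agent.U959.OC.Poi
import Pool.Agent.U959.OC.Quant

/-!
# From order polytopes to independent log-concave variables conditioned on an order
-/

set_option autoImplicit false

namespace Pool.Agent.U959.OC

open MeasureTheory Set Filter Topology
open scoped ENNReal
open Pool.Agent.R972.OP

/-! ### bounded approximations of the logit -/

/-- `(log (x² + e²) - log ((1 - x)² + e²)) / 2` -/
noncomputable def le (e x : ℝ) : ℝ :=
  1 / 2 * Real.log (x ^ 2 + e ^ 2) - 1 / 2 * Real.log ((1 - x) ^ 2 + e ^ 2)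

/-- its derivative -/
noncomputable def le' (e x : ℝ) : ℝ := x / (x ^ 2 + e ^ 2) + (1 - x) / ((1 - x) ^ 2 + e ^ 2)

theorem le_der {e : ℝ} (he : 0 < e) (x : ℝ) : HasDerivAt (le e) (le' e x) x := by
  have h1 : HasDerivAt (fun x : ℝ => x ^ 2 + e ^ 2) (2 * x) x := by
    simpa using (hasDerivAt_pow 2 x).add_const (e ^ 2)
  have h2 : HasDerivAt (fun x : ℝ => (1 - x) ^ 2 + e ^ 2) (-(2 * (1 - x))) x := by
    have h3 : HasDerivAt (fun x : ℝ => 1 - x) (-1) x := by
      simpa using (hasDerivAt_id x).const_sub 1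
    have h4 := (h3.pow 2).add_const (e ^ 2)
    refine h4.congr_deriv ?_
    norm_num
  have p1 : 0 < x ^ 2 + e ^ 2 := by positivity
  have p2 : 0 < (1 - x) ^ 2 + e ^ 2 := by positivity
  have h5 := ((h1.log p1.ne').const_mul (1 / 2)).sub ((h2.log p2.ne').const_mul (1 / 2))
  refine h5.congr_deriv ?_
  unfold le'
  ring

theorem le'_cont {e : ℝ} (he : 0 < e) : Continuous (le' e) := by
  unfold le'
  refine (continuous_id.div (by fun_prop) fun x => ?_).add
    ((continuous_const.sub continuous_id).div (by fun_prop) fun x => ?_)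
  · positivity
  · positivity

theorem le'_bd {e x : ℝ} (he : 0 < e) (h0 : 0 ≤ x) (h1 : x ≤ 1) :
    0 ≤ x * (1 - x) * le' e x ∧ x * (1 - x) * le' e x ≤ 1 := by
  have p1 : 0 < x ^ 2 + e ^ 2 := by positivity
  have p2 : 0 < (1 - x) ^ 2 + e ^ 2 := by positivity
  have q : 0 ≤ 1 - x := by linarith
  have e1 : x * (1 - x) * le' e x =
      (1 - x) * (x ^ 2 / (x ^ 2 + e ^ 2)) + x * ((1 - x) ^ 2 / ((1 - x) ^ 2 + e ^ 2)) := by
    unfold le'
    field_simp
  have b1 : x ^ 2 / (x ^ 2 + e ^ 2) ≤ 1 := by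
    rw [div_le_one p1]
    have := sq_nonneg e
    linarith
  have b2 : (1 - x) ^ 2 / ((1 - x) ^ 2 + e ^ 2) ≤ 1 := by
    rw [div_le_one p2]
    have := sq_nonneg e
    linarith
  rw [e1]
  constructor
  · positivity
  · have h3 := mul_le_mul_of_nonneg_left b1 q
    have h4 := mul_le_mul_of_nonneg_left b2 h0
    linarith

theorem le_lim {x : ℝ} (h0 : 0 < x) (h1 : x < 1) :
    Tendsto (fun k : ℕ => le (1 / ((k : ℝ) + 1)) x) atTop (𝓝 (lg x)) := by
  have he : Tendsto (fun k : ℕ => (1 / ((k : ℝ) + 1)) ^ 2) atTop (𝓝 0) := by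
    have := (tendsto_one_div_add_atTop_nhds_zero_nat (𝕜 := ℝ)).pow 2
    simpa using this
  have t1 : Tendsto (fun k : ℕ => Real.log (x ^ 2 + (1 / ((k : ℝ) + 1)) ^ 2)) atTop
      (𝓝 (Real.log (x ^ 2 + 0))) :=
    (he.const_add _).log (by positivity)
  have t2 : Tendsto (fun k : ℕ => Real.log ((1 - x) ^ 2 + (1 / ((k : ℝ) + 1)) ^ 2)) atTop
      (𝓝 (Real.log ((1 - x) ^ 2 + 0))) :=
    (he.const_add _).log (by
      have : 0 < 1 - x := by linarith
      positivity)
  have t3 := (t1.const_mul (1 / 2)).sub (t2.const_mul (1 / 2))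
  have e1 : 1 / 2 * Real.log (x ^ 2 + 0) - 1 / 2 * Real.log ((1 - x) ^ 2 + 0) = lg x := by
    rw [add_zero, add_zero, Real.log_pow, Real.log_pow]
    unfold lg
    push_cast
    ring
  rw [e1] at t3
  exact t3

/-! ### functions of the transported coordinates -/

section

variable {n : ℕ}

/-- coordinatewise map -/
def cw (θ : ℝ → ℝ) (x : Fin n → ℝ) : Fin n → ℝ := fun i => θ (x i)

theorem cw_der {θ θ' : ℝ → ℝ} (h : ∀ y, HasDerivAt θ (θ' y) y) (x : Fin n → ℝ) :
    HasFDerivAt (cw θ) (ContinuousLinearMap.pi fun i =>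
      (θ' (x i)) • (ContinuousLinearMap.proj (R := ℝ) (φ := fun _ : Fin n => ℝ) i)) x := by
  rw [hasFDerivAt_pi]
  intro i
  exact (h (x i)).comp_hasFDerivAt x (ContinuousLinearMap.proj (R := ℝ) (φ := fun _ : Fin n => ℝ) i).hasFDerivAt

theorem cw_contDiff {θ θ' : ℝ → ℝ} (h : ∀ y, HasDerivAt θ (θ' y) y) (hc : Continuous θ') :
    ContDiff ℝ 1 (cw (n := n) θ) := by
  have h1 : ContDiff ℝ 1 θ := by
    rw [contDiff_one_iff_deriv]
    refine ⟨fun y => (h y).differentiableAt, ?_⟩
    have : deriv θ = θ' := funext fun y => (h y).deriv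
    rw [this]
    exact hc
  refine contDiff_pi.2 fun i => ?_
  exact h1.comp (contDiff_apply ℝ ℝ i)

theorem pd_cw {θ θ' : ℝ → ℝ} (h : ∀ y, HasDerivAt θ (θ' y) y) {f : (Fin n → ℝ) → ℝ}
    (hf : ContDiff ℝ 1 f) (a : Fin n) (x : Fin n → ℝ) :
    pd (fun x => f (cw θ x)) a x = θ' (x a) * pd f a (cw θ x) := by
  unfold pd
  have h1 : HasFDerivAt (fun x => f (cw θ x)) ((fderiv ℝ f (cw θ x)).comp
      (ContinuousLinearMap.pi fun i =>
        (θ' (x i)) • (ContinuousLinearMap.proj (R := ℝ) (φ := fun _ : Fin n => ℝ) i))) x :=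
    ((hf.differentiable one_ne_zero) (cw θ x)).hasFDerivAt.comp x (cw_der h x)
  rw [h1.fderiv, ContinuousLinearMap.comp_apply]
  have e : (ContinuousLinearMap.pi fun i =>
      (θ' (x i)) • (ContinuousLinearMap.proj (R := ℝ) (φ := fun _ : Fin n => ℝ) i))
      (Pi.single a 1) = θ' (x a) • (Pi.single a (1 : ℝ) : Fin n → ℝ) := by
    funext i
    by_cases hi : i = a
    · subst hi
      simp
    · simp [hi]
  rw [e, map_smul, smul_eq_mul]

/-- `∑ (∂_a f)²` -/
noncomputable def en (f : (Fin n → ℝ) → ℝ) (x : Fin n → ℝ) : ℝ := ∑ a, pd f a x ^ 2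

theorem en_cont {f : (Fin n → ℝ) → ℝ} (hf : ContDiff ℝ 1 f) : Continuous (en f) := by
  unfold en pd
  exact continuous_finsetSum _ fun a _ =>
    ((hf.continuous_fderiv one_ne_zero).clm_apply continuous_const).pow 2

/-- the order cone -/
def cone (R : Fin n → Fin n → Prop) : Set (Fin n → ℝ) := {x | ∀ i j, R i j → x i ≤ x j}

theorem cone_meas (R : Fin n → Fin n → Prop) : MeasurableSet (cone R) := by
  have : cone R = ⋂ i, ⋂ j, ⋂ (_ : R i j), {x | x i ≤ x j} := by
    ext x; simp only [cone, mem_ofPred_eq, mem_iInter]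
  rw [this]
  exact MeasurableSet.iInter fun i => MeasurableSet.iInter fun j => MeasurableSet.iInter fun _ =>
    measurableSet_le (measurable_pi_apply i) (measurable_pi_apply j)

/-- one approximation -/
theorem approx {θ θ' : ℝ → ℝ} (h : ∀ y, HasDerivAt θ (θ' y) y) (hc : Continuous θ') {K : ℝ}
    (hK : ∀ x, 0 ≤ x → x ≤ 1 → (x * (1 - x) * θ' x) ^ 2 ≤ K ^ 2)
    (R : Fin n → Fin n → Prop) (hR : ∀ a, ¬ R a a)
    {f : (Fin n → ℝ) → ℝ} (hf : ContDiff ℝ 1 f) :
    (volume (OPp R)).toReal * (∫ x in OPp R, f (cw θ x) ^ 2) - (∫ x in OPp R, f (cw θ x)) ^ 2 ≤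
    (volume (OPp R)).toReal * (4 * K ^ 2 * ∫ x in OPp R, en f (cw θ x)) := by
  have hcd := cw_contDiff (n := n) h hc
  have hg : ContDiff ℝ 1 fun x => f (cw θ x) := hf.comp hcd
  refine (poil n R hR _ hg).trans ?_
  refine mul_le_mul_of_nonneg_left ?_ ENNReal.toReal_nonneg
  have hcp : IsCompact (OPp R) := Pool.Agent.R372.OP.SYM.cpK R
  have hcpd : ∀ a, Continuous (pd (fun x => f (cw θ x)) a) := by
    intro a
    unfold pd
    exact (hg.continuous_fderiv one_ne_zero).clm_apply continuous_const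
  have hcG : Continuous (Glo fun x => f (cw θ x)) := by
    unfold Glo
    refine continuous_finsetSum _ fun a _ => ?_
    exact (continuous_const.mul (((continuous_apply a).mul
      (continuous_const.sub (continuous_apply a))).pow 2)).mul ((hcpd a).pow 2)
  have hce : Continuous fun x => en f (cw θ x) := (en_cont hf).comp hcd.continuous
  have h1 : ∫ x in OPp R, Glo (fun x => f (cw θ x)) x ≤ ∫ x in OPp R, 8 * K ^ 2 * en f (cw θ x) := by
    refine setIntegral_mono_on (hcG.continuousOn.integrableOn_compact hcp)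
      ((continuous_const.mul hce).continuousOn.integrableOn_compact hcp)
      hcp.isClosed.measurableSet fun x hx => ?_
    unfold Glo en
    rw [Finset.mul_sum]
    refine Finset.sum_le_sum fun a _ => ?_
    rw [pd_cw h hf a x]
    have h2 := hK (x a) (hx.1 a).1 (hx.1 a).2
    calc 8 * (x a * (1 - x a)) ^ 2 * (θ' (x a) * pd f a (cw θ x)) ^ 2
        = 8 * (x a * (1 - x a) * θ' (x a)) ^ 2 * pd f a (cw θ x) ^ 2 := by ring
      _ ≤ 8 * K ^ 2 * pd f a (cw θ x) ^ 2 := by
          refine mul_le_mul_of_nonneg_right ?_ (sq_nonneg _)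
          linarith
  rw [integral_const_mul] at h1
  linarith

variable {ρ : ℝ → ℝ}

theorem sf_law (h : LCD ρ) : SigmaFinite (law ρ) := by
  have := h.prob
  infer_instance

/-- law of independent variables with density `ρ` -/
noncomputable def Pn (n : ℕ) (ρ : ℝ → ℝ) : Measure (Fin n → ℝ) := Measure.pi fun _ => law ρ

theorem ae_open : ∀ᵐ x : Fin n → ℝ ∂volume, x ∈ OPp (fun _ _ : Fin n => False) →
    ∀ i, x i ∈ Ioo (0 : ℝ) 1 := by
  have h : ∀ i : Fin n, ∀ᵐ x : Fin n → ℝ ∂volume, x i ≠ 0 ∧ x i ≠ 1 := by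
    intro i
    have h1 : ∀ᵐ t : ℝ ∂volume, t ≠ 0 ∧ t ≠ 1 := by
      have h2 : (volume : Measure ℝ) ({0, 1} : Set ℝ) = 0 := by
        exact (Set.toFinite ({0, 1} : Set ℝ)).measure_zero _
      rw [ae_iff]
      refine measure_mono_null ?_ h2
      intro t ht
      simp only [mem_ofPred_eq, not_and_or, not_not] at ht
      simpa using ht
    exact (Measure.quasiMeasurePreserving_eval (μ := fun _ : Fin n => (volume : Measure ℝ)) i).ae h1
  filter_upwards [ae_all_iff.2 h] with x hx hxo i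
  exact ⟨lt_of_le_of_ne (hxo.1 i).1 (Ne.symm (hx i).1), lt_of_le_of_ne (hxo.1 i).2 (hx i).2⟩

/-- transport of integrals -/
theorem transport (h : LCD ρ) {T : ℝ → ℝ} (hT : ∀ y, T y ∈ J ρ ∧ La ρ (T y) = y)
    (hTm : StrictMono T) (R : Fin n → Fin n → Prop) (φ : (Fin n → ℝ) → ℝ)
    (hφ : Continuous φ) :
    ∫ x in OPp R, φ (cw (fun x => T (lg x)) x) = ∫ x in cone R, φ x ∂(Pn n ρ) ∧
    volume (OPp R) = Pn n ρ (cone R) := by
  have := sf_law h
  have hq : Measurable fun x => T (lg x) := hTm.monotone.measurable.comp lg_meas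
  have hQ : Measurable (cw (n := n) fun x => T (lg x)) :=
    measurable_pi_iff.2 fun i => hq.comp (measurable_pi_apply i)
  have hmap : Measure.map (cw (n := n) fun x => T (lg x))
      ((volume : Measure (Fin n → ℝ)).restrict (univ.pi fun _ => Ioo (0 : ℝ) 1)) = Pn n ρ := by
    rw [volume_pi, Measure.restrict_pi_pi]
    have hsf : ∀ i : Fin n, SigmaFinite (Measure.map (fun x => T (lg x))
        ((volume : Measure ℝ).restrict (Ioo (0 : ℝ) 1))) := by
      intro i
      rw [h.map_q hT hTm]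
      exact sf_law h
    have h1 := Measure.pi_map_pi (μ := fun _ : Fin n => (volume : Measure ℝ).restrict (Ioo (0 : ℝ) 1))
      (f := fun _ => fun x => T (lg x)) (hμ := hsf) (fun i => hq.aemeasurable)
    have e : (cw (n := n) fun x => T (lg x)) = fun x i => T (lg (x i)) := rfl
    rw [e, h1]
    unfold Pn
    congr 1
    funext i
    exact h.map_q hT hTm
  have hset : OPp R =ᵐ[volume] ((cw fun x => T (lg x)) ⁻¹' cone R ∩
      (univ.pi fun _ : Fin n => Ioo (0 : ℝ) 1) : Set (Fin n → ℝ)) := by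
    filter_upwards [ae_open (n := n)] with x hx
    refine propext ⟨fun hxo => ?_, fun hxo => ?_⟩
    · have hxo' : x ∈ OPp R := hxo
      have h2 := hx ⟨hxo'.1, fun _ _ h => h.elim⟩
      refine ⟨fun i j hij => ?_, fun i _ => h2 i⟩
      show T (lg (x i)) ≤ T (lg (x j))
      refine hTm.monotone ?_
      rcases eq_or_lt_of_le (hxo'.2 i j hij) with he | hlt
      · rw [he]
      · exact (lg_strict (h2 i).1 hlt (h2 j).2).le
    · obtain ⟨h1, h2⟩ := hxo
      have h2' : ∀ i, x i ∈ Ioo (0 : ℝ) 1 := fun i => h2 i (mem_univ _)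
      refine ⟨fun i => ⟨(h2' i).1.le, (h2' i).2.le⟩, fun i j hij => ?_⟩
      by_contra hc
      push Not at hc
      have h3 : T (lg (x i)) ≤ T (lg (x j)) := h1 i j hij
      have h4 := hTm (lg_strict (h2' j).1 hc (h2' i).2)
      exact absurd h3 (not_le.2 h4)
  have hcm := cone_meas R
  constructor
  · rw [← hmap, setIntegral_map hcm hφ.aestronglyMeasurable hQ.aemeasurable,
      Measure.restrict_restrict (hQ hcm)]
    exact setIntegral_congr_set hset
  · rw [← hmap, Measure.map_apply hQ hcm, Measure.restrict_apply (hQ hcm)]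
    exact measure_congr hset

end

end Pool.Agent.U959.OC
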